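import Pool.Agent.N19.RB.FR

/-!
# The subgroup of the regular wreath product of the elements with product one
-/

set_option autoImplicit false

noncomputable section

namespace Pool.Agent.Hp21.UN

variable {M A : Type} [CommGroup M] [Group A] [Finite A]

theorem prodOne_one : ∏ᶠ a, (1 : M ≀ᵣ A).left a = 1 := by
  simp

theorem prodOne_mul {x y : M ≀ᵣ A} (hx : ∏ᶠ a, x.left a = 1) (hy : ∏ᶠ a, y.left a = 1) :
    ∏ᶠ a, (x * y).left a = 1 := by
  have h1 : ∏ᶠ a, y.left (x.right⁻¹ * a) = 1 := by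
    rw [← hy]
    exact finprod_comp_equiv (Equiv.mulLeft x.right⁻¹) (f := y.left)
  have h2 : ∏ᶠ a, x.left a * y.left (x.right⁻¹ * a) = 1 := by
    rw [finprod_mul_distrib (Set.toFinite _) (Set.toFinite _), hx, h1, one_mul]
  exact h2

theorem prodOne_inv {x : M ≀ᵣ A} (hx : ∏ᶠ a, x.left a = 1) : ∏ᶠ a, (x⁻¹).left a = 1 := by
  have h1 : ∏ᶠ a, x.left (x.right * a) = 1 := by
    rw [← hx]
    exact finprod_comp_equiv (Equiv.mulLeft x.right) (f := x.left)
  have h2 : ∏ᶠ a, (x.left (x.right * a))⁻¹ = 1 := by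
    rw [finprod_inv_distrib, h1, inv_one]
  exact h2

variable (M A) in
/-- The subgroup of the regular wreath product `M ≀ A = M^A ⋊ A` of the elements `(f, a)` with
`∏ f(x) = 1`. -/
def prodOne : Subgroup (M ≀ᵣ A) where
  carrier := {x | ∏ᶠ a, x.left a = 1}
  one_mem' := prodOne_one
  mul_mem' := prodOne_mul
  inv_mem' := prodOne_inv

theorem mem_prodOne {x : M ≀ᵣ A} : x ∈ prodOne M A ↔ ∏ᶠ a, x.left a = 1 := Iff.rfl

end Pool.Agent.Hp21.UN
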