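import Pool.Agent.Hp21.UN.Perf
import Pool.Agent.Hp21.UN.VDef
import Pool.Agent.Hp21.AW.Deg

/-!
# Universal groups and parities
-/

set_option autoImplicit false
set_option linter.unusedSectionVars false
set_option linter.style.haveILetI false

open scoped BigOperators Classical

noncomputable section

namespace Pool.Agent.Hp21.UN

open Pool.Agent.Q90.WR Pool.Agent.H254R3.IN Pool.Agent.Q259.BW Pool.Agent.Q288.MB
open Pool.Agent.N19.RB
open Pool.Agent.Helper884

section emb

/-- two copies of a permutation -/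
def twice (X : Type) : Equiv.Perm X →* Equiv.Perm (X × Fin 2) where
  toFun σ := Equiv.prodCongrLeft fun _ => σ
  map_one' := by
    ext x : 1
    rfl
  map_mul' σ τ := by
    ext x : 1
    rfl

theorem twice_inj (X : Type) : Function.Injective (twice X) := by
  intro σ τ h
  ext x : 1
  have := congrArg (fun e : Equiv.Perm (X × Fin 2) => (e (x, 0)).1) h
  exact this

theorem sgn_emb {X Y : Type} [DecidableEq X] [DecidableEq Y] [Fintype X] [Fintype Y]
    (e : Equiv.Perm X) (j : X ↪ Y) :
    Equiv.Perm.sign (e.viaEmbedding j) = Equiv.Perm.sign e :=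
  @Equiv.Perm.sign_extendDomain X _ Y _ _ _ e (fun y => y ∈ Set.range j)
    (fun _ => Classical.propDecidable _) (Equiv.ofInjective j.1 j.2)

theorem exists_embA (G : Type) [Group G] [Finite G] {n : ℕ} (hn : 2 * Nat.card G ≤ n) :
    ∃ ι : G →* alternatingGroup (Fin n), Function.Injective ι := by
  have := Fintype.ofFinite G
  have hc : Nat.card (G × Fin 2) ≤ n := by
    rw [Nat.card_prod, Nat.card_eq_fintype_card (α := Fin 2), Fintype.card_fin, mul_comm]
    exact hn
  let j : G × Fin 2 ↪ Fin n := (Finite.equivFin (G × Fin 2)).toEmbedding.trans (Fin.castLEEmb hc)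
  let κ : G →* Equiv.Perm (Fin n) := (Equiv.Perm.viaEmbeddingHom j).comp
    ((twice G).comp (MulAction.toPermHom G G))
  have hκ : Function.Injective κ := (Equiv.Perm.viaEmbeddingHom_injective j).comp
    ((twice_inj G).comp MulAction.toPerm_injective)
  have hs : ∀ g, κ g ∈ alternatingGroup (Fin n) := by
    intro g
    rw [Equiv.Perm.mem_alternatingGroup]
    change Equiv.Perm.sign (Equiv.Perm.viaEmbedding (twice G (MulAction.toPermHom G G g)) j) = 1
    refine (sgn_emb (X := G × Fin 2) (Y := Fin n) _ j).trans ?_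
    change Equiv.Perm.sign (Equiv.prodCongrLeft fun _ => MulAction.toPermHom G G g) = 1
    rw [Equiv.Perm.sign_prodCongrLeft, Fin.prod_univ_two]
    exact Int.units_mul_self _
  exact ⟨κ.codRestrict _ hs, fun a b hab => hκ (congrArg Subtype.val hab)⟩

theorem card_alt {m n : ℕ} (h1 : 5 ≤ n) (h2 : 2 * m ≤ n) : 2 * m < Nat.card (alternatingGroup (Fin n)) := by
  have h3 : Nontrivial (Fin n) := Fin.nontrivial_iff_two_le.mpr (by omega)
  have h4 : 2 * Nat.card (alternatingGroup (Fin n)) = Nat.card (Equiv.Perm (Fin n)) := by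
    rw [Nat.card_eq_fintype_card (α := alternatingGroup (Fin n)),
      Nat.card_eq_fintype_card (α := Equiv.Perm (Fin n))]
    exact two_mul_card_alternatingGroup (α := Fin n)
  rw [Nat.card_eq_fintype_card (α := Equiv.Perm (Fin n)), Fintype.card_perm, Fintype.card_fin] at h4
  obtain ⟨k, rfl⟩ : ∃ k, n = k + 1 := ⟨n - 1, by omega⟩
  rw [Nat.factorial_succ] at h4
  have h5 : Nat.factorial 4 ≤ Nat.factorial k := Nat.factorial_le (by omega)
  have h6 : Nat.factorial 4 = 24 := rfl
  rw [h6] at h5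
  nlinarith

end emb

section par

variable {E A G : Type} [CommGroup E] [Group A] [Group G] [Fintype E] [Fintype A] [Fintype G]
  {φ : A →* MulAut E} {ι : G →* A} {θ : E →* ℂ} {O : ValuationSubring ℂ} {p : ℕ}
  [hp : Fact p.Prime] {C : (D : Type) → Group D → Prop}

theorem sig_hat (σ : ℂ ≃+* ℂ) (hσ : ∀ e, σ (θ e) = θ e) (u : G → ℂ) (x : E ⋊[φ] A) :
    σ (hat φ ι θ u x) = hat φ ι θ (fun g => σ (u g)) x := by
  unfold hat
  rw [map_mul, map_inv₀, map_natCast, map_sum]
  congr 1
  refine Finset.sum_congr rfl fun s _ => ?_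
  unfold term
  rw [map_sum]
  refine Finset.sum_congr rfl fun g _ => ?_
  rw [apply_ite σ, map_zero, map_mul, hσ]

theorem gal_Hat (σ : ℂ ≃+* ℂ) (hσ : ∀ e, σ (θ e) = θ e) (B : Set (G → ℂ)) :
    gal σ (Hat φ ι θ B) = Hat φ ι θ (gal σ B) := by
  ext ξ
  constructor
  · rintro ⟨_, ⟨χ, hχ, rfl⟩, rfl⟩
    exact ⟨fun g => σ (χ g), ⟨χ, hχ, rfl⟩, funext fun x => sig_hat σ hσ χ x⟩
  · rintro ⟨_, ⟨χ, hχ, rfl⟩, rfl⟩
    exact ⟨_, ⟨χ, hχ, rfl⟩, (funext fun x => sig_hat σ hσ χ x).symm⟩

/-- The numbers of the characters of height zero in a Galois stable block and in its Brauer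
correspondent have the same parity. -/
def PAR (p : ℕ) (O : ValuationSubring ℂ) (C : (D : Type) → Group D → Prop) (G : Type)
    [Group G] : Prop :=
  ∀ (D : Subgroup G) (B : Set (G → ℂ)) (b : Set (Subgroup.normalizer (D : Set G) → ℂ)),
    IsBlock O B → IsDefectGroup p O B D → IsBrauerCorrespondent p O D B b → C D inferInstance →
    (∀ σ : ℂ ≃+* ℂ, gal σ B = B) →
    Nat.card (Irr0 p D B) ≡
      Nat.card (Irr0 p (D.subgroupOf (Subgroup.normalizer (D : Set G))) b) [MOD 2]

theorem PAR_of (hpO : (p : ℂ) ∈ O.nonunits) (hpE : ¬ p ∣ Nat.card E) (hC : IsoClosed C)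
    (h : St φ ι θ) (hr : ∀ (σ : ℂ ≃+* ℂ) (e : E), σ (θ e) = θ e) (hA : PAR p O C (E ⋊[φ] A)) :
    PAR p O C G := by
  intro D B b hB hD hb hCD hG
  have hDp : IsPGroup p D := (isDefectGroup_iff.mp hD).choose_spec.2.1
  have h1 := hA (DH φ ι D) (Hat φ ι θ B) (hatN φ ι θ D b) (Hat_block hpO hpE h hB)
    (Hat_defect hpO hpE h hB hD) (Hat_brauer hpO hpE h hB hD hb)
    (hC D _ (DH_iso h D) hCD) (fun σ => by rw [gal_Hat σ (hr σ), hG σ])
  have h2 := datH_ht0 (p := p) hpE h hB.irr D b
  have h3 := datH_ht0' (p := p) hpE h B hDp hb.1.irr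
  have h4 : Nat.card (Irr0 p (DH φ ι D) (Hat φ ι θ B)) = Nat.card (Irr0 p D B) := h2
  have h5 : Nat.card (Irr0 p ((DH φ ι D).subgroupOf (Subgroup.normalizer
      ((DH φ ι D : Subgroup (E ⋊[φ] A)) : Set (E ⋊[φ] A)))) (hatN φ ι θ D b)) =
      Nat.card (Irr0 p (D.subgroupOf (GN D)) b) := h3
  rw [h4, h5] at h1
  exact h1

end par

section iso

variable {G H : Type} [Group G] [Group H] [Fintype G] [Fintype H] {O : ValuationSubring ℂ} {p : ℕ}
  [hp : Fact p.Prime]

theorem gal_pull (e : G ≃* H) (σ : ℂ ≃+* ℂ) (B : Set (H → ℂ)) :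
    gal σ (pull e B) = pull e (gal σ B) := by
  ext χ
  constructor
  · rintro ⟨ψ, hψ, rfl⟩
    exact ⟨fun k => ψ (e.symm k), hψ, rfl⟩
  · rintro ⟨ψ, hψ, h⟩
    refine ⟨fun g => ψ (e g), ?_, ?_⟩
    · change (fun k => ψ (e (e.symm k))) ∈ B
      simpa using hψ
    · funext g
      have := congrFun h (e g)
      simpa using this

theorem PAR_iso {C : (D : Type) → Group D → Prop} (hC : IsoClosed C) (e : G ≃* H)
    (h : PAR p O C G) : PAR p O C H := by
  intro D B b hB hD hb hCD hG
  have h1 := h (D.comap e.toMonoidHom) (pull e B) (pull (eN e D) b) (pull_block e hB)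
    (pull_defect e hB.irr hD) (brauer_iso e hb) (hC D _ ⟨by
      have e1 : D ≃* D.map e.symm.toMonoidHom := D.equivMapOfInjective _ e.symm.injective
      have e2 : D.map e.symm.toMonoidHom = D.comap e.toMonoidHom := by
        ext g
        rw [Subgroup.mem_map, Subgroup.mem_comap]
        constructor
        · rintro ⟨d, hd, rfl⟩
          change e (e.symm d) ∈ D
          rwa [MulEquiv.apply_symm_apply]
        · intro hg
          exact ⟨e g, hg, e.symm_apply_apply g⟩
      exact e1.trans (MulEquiv.subgroupCongr e2)⟩ hCD) (fun σ => by rw [gal_pull, hG σ])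
  rw [irr0_pull, card_pull, ← comap_eN, irr0_pull, card_pull] at h1
  exact h1

variable (M A : Type) [CommGroup M] [Group A] [Finite A]

/-- the two forms of the group -/
def pIso : AW M A ≃* prodOne M A where
  toFun x := ⟨⟨x.left, x.right⟩, x.left.2⟩
  invFun x := ⟨⟨x.1.left, x.2⟩, x.1.right⟩
  left_inv _ := rfl
  right_inv _ := rfl
  map_mul' _ _ := rfl

theorem AMC_p {C : (D : Type) → Group D → Prop} (hC : IsoClosed C) [Finite M] :
    AMC p O C (AW M A) ↔ AMC p O C (prodOne M A) := by
  have := Fintype.ofFinite (prodOne M A)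
  have := Fintype.ofEquiv (prodOne M A) (pIso M A).symm.toEquiv
  exact ⟨AMC_iso hC (pIso M A), AMC_iso hC (pIso M A).symm⟩

theorem PAR_p {C : (D : Type) → Group D → Prop} (hC : IsoClosed C) [Finite M] :
    PAR p O C (AW M A) ↔ PAR p O C (prodOne M A) := by
  have := Fintype.ofFinite (prodOne M A)
  have := Fintype.ofEquiv (prodOne M A) (pIso M A).symm.toEquiv
  exact ⟨PAR_iso hC (pIso M A), PAR_iso hC (pIso M A).symm⟩

variable {M A}

theorem perfect_p (hA : commutator A = ⊤) : commutator (prodOne M A) = ⊤ := by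
  have h1 := perfect (M := M) hA
  rw [commutator_def] at h1 ⊢
  have h2 := congrArg (Subgroup.map (pIso M A).toMonoidHom) h1
  rw [Subgroup.map_commutator, Subgroup.map_top_of_surjective _ (pIso M A).surjective] at h2
  exact h2

end iso

section final

variable {O : ValuationSubring ℂ} {p : ℕ} [hp : Fact p.Prime] {C : (D : Type) → Group D → Prop}

/-- the sign character of the group of order two -/
def sgn2 : Multiplicative (ZMod 2) →* ℂ where
  toFun x := if x = 1 then 1 else -1
  map_one' := by simp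
  map_mul' := by
    intro x y
    have h : ∀ z : Multiplicative (ZMod 2), z = 1 ∨ z = Multiplicative.ofAdd 1 := by decide
    have h1 : (Multiplicative.ofAdd (1 : ZMod 2)) ≠ 1 := by decide
    have h2 : (Multiplicative.ofAdd (1 : ZMod 2)) * Multiplicative.ofAdd 1 = 1 := by decide
    rcases h x with rfl | rfl <;> rcases h y with rfl | rfl
    · simp
    · simp [h1]
    · simp [h1]
    · rw [h2, if_pos rfl, if_neg h1]
      norm_num

theorem sgn2_rat (σ : ℂ ≃+* ℂ) (x : Multiplicative (ZMod 2)) : σ (sgn2 x) = sgn2 x := by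
  change σ (if x = 1 then 1 else -1) = if x = 1 then 1 else -1
  split_ifs
  · exact map_one σ
  · rw [map_neg, map_one]

theorem sgn2_ne : sgn2 (Multiplicative.ofAdd 1) ≠ 1 := by
  change (if Multiplicative.ofAdd (1 : ZMod 2) = 1 then (1 : ℂ) else -1) ≠ 1
  rw [if_neg (by decide)]
  norm_num

theorem not_dvd_aug {M A : Type} [CommGroup M] [Group A] [Finite M] [Finite A]
    (hM : ¬ p ∣ Nat.card M) : ¬ p ∣ Nat.card (aug M A) :=
  fun h => not_dvd_fun hM (h.trans (Subgroup.card_subgroup_dvd_card _))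

/-- from `AW M A` to small subgroups of `A` -/
theorem aug_of (hpO : (p : ℂ) ∈ O.nonunits) (hC : IsoClosed C) {M A : Type} [CommGroup M]
    [Group A] [Finite M] [Finite A] [Nontrivial M]
    (hM : ¬ p ∣ Nat.card M) {G : Type} [Group G] [Finite G] {ι : G →* A}
    (hι : Function.Injective ι) (h2 : 2 * Nat.card G < Nat.card A) (h : AMC p O C (AW M A)) :
    AMC p O C G := by
  have := Fintype.ofFinite M
  have := Fintype.ofFinite A
  have := Fintype.ofFinite G
  have := Fintype.ofFinite (aug M A)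
  obtain ⟨lam, c, hc⟩ := exists_lam M
  exact AMC_of hpO (not_dvd_aug hM) hC (thA_St hc hι h2) h

theorem index_perfect {A : Type} [Group A] [Finite A] (hA : commutator A = ⊤) {K : Subgroup A}
    (hK : K ≠ ⊤) : 2 * Nat.card K < Nat.card A := by
  have h1 := K.card_mul_index
  have h2 : K.index ≠ 1 := fun h => hK (Subgroup.index_eq_one.mp h)
  have h3 : K.index ≠ 2 := by
    intro h
    have hn : K.Normal := Subgroup.normal_of_index_eq_two h
    apply hK
    rw [eq_top_iff, ← hA]
    have hc : Nat.card (A ⧸ K) = 2 := h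
    have : IsCyclic (A ⧸ K) := by
      have : Fact (Nat.Prime 2) := ⟨Nat.prime_two⟩
      exact isCyclic_of_prime_card hc
    have hcomm : ∀ x y : A ⧸ K, x * y = y * x := fun x y => (IsCyclic.commGroup (α := A ⧸ K)).mul_comm x y
    rw [commutator_def, Subgroup.commutator_le]
    intro x _ y _
    rw [← QuotientGroup.eq_one_iff, commutatorElement_def, QuotientGroup.mk_mul,
      QuotientGroup.mk_mul, QuotientGroup.mk_mul, QuotientGroup.mk_inv, QuotientGroup.mk_inv,
      hcomm (x : A ⧸ K) (y : A ⧸ K)]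
    group
  have h4 : 0 < K.index := Nat.pos_of_ne_zero Subgroup.index_ne_zero_of_finite
  have h5 : 0 < Nat.card K := Nat.card_pos
  rw [← h1]
  have h6 : 3 ≤ K.index := by omega
  nlinarith

/-- For a perfect group `A` the Alperin–McKay equality for the perfect group `AW M A` is the one for
all subgroups of `A`. -/
theorem perfect_iff (hpO : (p : ℂ) ∈ O.nonunits) (hC : IsoClosed C) (M : Type) [CommGroup M]
    [Finite M] [Nontrivial M] (hM : ¬ p ∣ Nat.card M) (A : Type) [Group A] [Finite A]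
    (hA : commutator A = ⊤) :
    AMC p O C (AW M A) ↔ ∀ K : Subgroup A, AMC p O C K := by
  have := Fintype.ofFinite (aug M A)
  have := Fintype.ofFinite A
  constructor
  · intro h K
    by_cases hK : K = ⊤
    · have hS : St (aph M A) K.subtype (1 : aug M A →* ℂ) := by
        refine ⟨K.subtype_injective, fun a => ⟨fun _ => ?_, fun _ _ => rfl⟩⟩
        exact ⟨⟨a, by rw [hK]; trivial⟩, rfl⟩
      exact AMC_of hpO (not_dvd_aug hM) hC hS h
    · exact aug_of hpO hC hM K.subtype_injective (index_perfect hA hK) h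
  · intro h
    exact AMC_to hpO (not_dvd_aug hM) hC fun θ => h (stA (aph M A) θ)

/-- The universal perfect groups. -/
theorem universal_perfect (hpO : (p : ℂ) ∈ O.nonunits) (hC : IsoClosed C) (M : Type) [CommGroup M]
    [Finite M] [Nontrivial M] (hM : ¬ p ∣ Nat.card M) :
    (∀ (G : Type) [Group G] [Finite G], AMC p O C G) ↔
      ∀ m : ℕ, ∃ n : ℕ, m ≤ n ∧ AMC p O C (AW M (alternatingGroup (Fin n))) := by
  constructor
  · intro h m
    have := Fintype.ofFinite (aug M (alternatingGroup (Fin m)))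
    have : Finite (AW M (alternatingGroup (Fin m))) :=
      Finite.of_equiv _ SemidirectProduct.equivProd.symm
    exact ⟨m, le_rfl, h _⟩
  · intro h G _ _
    obtain ⟨n, hn, h1⟩ := h (2 * Nat.card G + 5)
    obtain ⟨ι, hι⟩ := exists_embA G (n := n) (by omega)
    exact aug_of hpO hC hM hι (card_alt (by omega) (by omega)) h1

theorem perfect_alt (M : Type) [CommGroup M] {n : ℕ} (hn : 5 ≤ n) :
    commutator (AW M (alternatingGroup (Fin n))) = ⊤ :=
  perfect (commutator_alternatingGroup_eq_top (by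
    rw [Nat.card_eq_fintype_card, Fintype.card_fin]
    exact hn))

/-- parity for the universal perfect groups -/
theorem parity_of (hp2 : p ≠ 2) (hpO : (p : ℂ) ∈ O.nonunits) (hC : PowClosed C)
    (h : ∀ m : ℕ, ∃ n : ℕ, m ≤ n ∧
      PAR p O C (AW (Multiplicative (ZMod 2)) (alternatingGroup (Fin n))))
    (G : Type) [Group G] [Finite G] : AMC p O C G := by
  have hC1 : IsoClosed C := fun D E _ _ => hC.1 D E
  have h2 : ¬ p ∣ Nat.card (Multiplicative (ZMod 2)) := by
    have e : Nat.card (Multiplicative (ZMod 2)) = 2 := by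
      rw [Nat.card_eq_fintype_card]
      rfl
    rw [e]
    intro hd
    exact hp2 ((Nat.prime_dvd_prime_iff_eq hp.out Nat.prime_two).mp hd)
  have hP : ∀ (K : Type) [Group K] [Finite K], PAR p O C K := by
    intro K _ _
    have := Fintype.ofFinite K
    obtain ⟨n, hn, h1⟩ := h (2 * Nat.card K + 5)
    obtain ⟨ι, hι⟩ := exists_embA K (n := n) (by omega)
    have := Fintype.ofFinite (aug (Multiplicative (ZMod 2)) (alternatingGroup (Fin n)))
    refine PAR_of hpO (not_dvd_aug h2) hC1 (thA_St sgn2_ne hι (card_alt (by omega) (by omega)))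
      (fun σ e => ?_) h1
    change σ (thR sgn2 ι (e : _)) = thR sgn2 ι (e : _)
    rw [thR_apply, map_prod]
    exact Finset.prod_congr rfl fun g _ => sgn2_rat σ _
  intro D B b hB hD hb hCD
  have := Fintype.ofFinite G
  let X : Dat := ⟨G, D, B, b⟩
  have hX : X.IsBrauer p O := ⟨inferInstanceAs (Finite G), hB, hD, hb⟩
  refine odd_criterion hp2 hpO hC (fun Y hY hYC hG => ?_) X hX hCD
  have := hY.fin
  have h5 := odd_parity (finite_of_irr (ht0_irr hY)) (stable_irr0 (p := p) (D := Y.D) hG)
  have h6 := odd_parity (finite_of_irr (ht0'_irr hY))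
    (stable_irr0 (p := p) (D := Y.DN) (stable_b hpO hY hG))
  have h7 : Nat.card (Y.ht0 p) ≡ Nat.card (Y.ht0' p) [MOD 2] :=
    hP Y.G Y.D Y.B Y.b hY.block hY.defect hY.brauer hYC hG
  exact (h5.symm.trans h7).trans h6

end final

end Pool.Agent.Hp21.UN
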