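import Pool.Agent.N19.RB.Uni

/-!
# Brauer's first main theorem: existence of Brauer correspondents
-/

set_option autoImplicit false
set_option linter.unusedSectionVars false
set_option linter.style.haveILetI false

open scoped BigOperators Classical

noncomputable section

namespace Pool.Agent.Hp21.UN

open Pool.Agent.Q90.WR Pool.Agent.H254R3.IN Pool.Agent.Q259.BW Pool.Agent.Q288.MB
open Pool.Agent.N19.RB
open Pool.Agent.Helper884

section gen

variable {G : Type} [Group G] [Fintype G] {O : ValuationSubring ℂ}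

theorem red_Om_congr {f h χ ψ : G → ℂ} (hχ : IsIrr χ) (hψ : IsIrr ψ) (hf : IsCl f) (hh : IsCl h)
    (hfO : ∀ g, f g ∈ O) (hhO : ∀ g, h g ∈ O)
    (he : ∀ g, red O (f g) * red O (omega χ g) = red O (h g) * red O (omega ψ g)) :
    red O (Om f χ) = red O (Om h ψ) := by
  rw [(red_Om hχ hf hfO).2, (red_Om hψ hh hhO).2]
  exact Finset.sum_congr rfl fun K _ => he _

/-- an element whose square is congruent to itself and on which all central characters vanish
modulo the maximal ideal is congruent to zero -/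
theorem nil {f : G → ℂ} (hf : IsCl f) (hfO : ∀ g, f g ∈ O)
    (h2 : ∀ g, red O (conv f f g) = red O (f g)) (h0 : ∀ ψ, IsIrr ψ → red O (Om f ψ) = 0) (g : G) :
    red O (f g) = 0 := by
  have key : ∀ T : Finset (G → ℂ), (∀ χ ∈ T, IsIrr χ) → ∃ P : G → ℂ, IsCl P ∧ (∀ g, P g ∈ O) ∧
      (∀ ψ, IsIrr ψ → Om P ψ = ∏ χ ∈ T, (Om f ψ - Om f χ)) ∧
      ∀ g, red O (conv f P g) = red O (f g) := by
    intro T
    induction T using Finset.induction_on with
    | empty =>
      intro _
      refine ⟨dl, dl_cl, dl_mem O, fun ψ hψ => ?_, fun g => ?_⟩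
      · rw [Om_dl hψ, Finset.prod_empty]
      · have : conv f dl g = f g := by
          unfold conv
          rw [Finset.sum_eq_single g]
          · unfold dl
            rw [inv_mul_cancel, if_pos rfl, mul_one]
          · intro x _ hx
            unfold dl
            rw [if_neg, mul_zero]
            intro h
            exact hx (inv_mul_eq_one.mp h)
          · intro h
            exact absurd (Finset.mem_univ _) h
        rw [this]
    | insert χ T hx ih =>
      intro hT
      obtain ⟨P, p1, p2, p3, p4⟩ := ih fun χ hχ => hT χ (Finset.mem_insert_of_mem hχ)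
      have hχ := hT χ (Finset.mem_insert_self _ _)
      have hc := (red_Om hχ hf hfO).1
      have hcl : IsCl fun g => f g - Om f χ * dl g := fun g y => by
        simp only [hf g y, dl_cl g y]
      have hO : ∀ g, f g - Om f χ * dl g ∈ O := fun g =>
        sub_mem' (hfO g) (O.mul_mem _ _ hc (dl_mem O g))
      have hPr : ∀ g, red O (conv (fun g => f g - Om f χ * dl g) P g) = red O (f g) := by
        intro g
        rw [← p4 g]
        unfold conv
        have m1 : ∀ x : G, (f x - Om f χ * dl x) * P (x⁻¹ * g) ∈ O := fun x =>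
          O.mul_mem _ _ (hO x) (p2 _)
        have m2 : ∀ x : G, f x * P (x⁻¹ * g) ∈ O := fun x => O.mul_mem _ _ (hfO x) (p2 _)
        rw [red_sum _ _ fun x _ => m1 x, red_sum _ _ fun x _ => m2 x]
        refine Finset.sum_congr rfl fun x _ => ?_
        rw [red_mul (hO x) (p2 _), red_mul (hfO x) (p2 _), red_sub (hfO x)
          (O.mul_mem _ _ hc (dl_mem O x)), red_mul hc (dl_mem O x), h0 χ hχ, zero_mul, sub_zero]
      refine ⟨conv (fun g => f g - Om f χ * dl g) P, hcl.conv p1, conv_mem hO p2,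
        fun ψ hψ => ?_, fun g => ?_⟩
      · rw [Om_conv hψ hcl p1, Om_sub, Om_smul, Om_dl hψ, mul_one, p3 ψ hψ,
          Finset.prod_insert hx]
      · rw [← h2 g]
        unfold conv
        have m1 : ∀ x : G, f x * conv (fun g => f g - Om f χ * dl g) P (x⁻¹ * g) ∈ O := fun x =>
          O.mul_mem _ _ (hfO x) (conv_mem hO p2 _)
        have m2 : ∀ x : G, f x * f (x⁻¹ * g) ∈ O := fun x => O.mul_mem _ _ (hfO x) (hfO _)
        have e1 := red_sum (O := O) Finset.univ
          (fun x => f x * conv (fun g => f g - Om f χ * dl g) P (x⁻¹ * g)) (fun x _ => m1 x)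
        have e2 := red_sum (O := O) Finset.univ (fun x => f x * f (x⁻¹ * g)) (fun x _ => m2 x)
        refine e1.trans (Eq.trans ?_ e2.symm)
        refine Finset.sum_congr rfl fun x _ => ?_
        rw [red_mul (hfO x) (conv_mem hO p2 _), red_mul (hfO x) (hfO _), hPr]
  obtain ⟨P, p1, p2, p3, p4⟩ := key (IC.Irr G) fun χ hχ => IC.mem_Irr.mp hχ
  have hP : P = fun _ => 0 := by
    apply eq_of_Om p1 (fun _ _ => rfl)
    intro ψ hψ
    have e0 : ∏ χ ∈ IC.Irr G, (Om f ψ - Om f χ) = 0 :=
      Finset.prod_eq_zero (i := ψ) (IC.mem_Irr.mpr hψ) (sub_self _)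
    rw [p3 ψ hψ, e0]
    unfold Om
    simp
  rw [← p4 g, hP]
  have : conv f (fun _ => 0) g = 0 := by
    unfold conv
    simp
  rw [this, red_zero]

end gen

section fmt

variable {G : Type} [Group G] [Fintype G] {O : ValuationSubring ℂ} {p : ℕ} [hp : Fact p.Prime]

/-- every block has a defect group -/
theorem exists_defect {B : Set (G → ℂ)} (hB : IsBlock O B) :
    ∃ D : Subgroup G, IsDefectGroup p O B D := by
  have hi := hB.irr
  have hcl := blockCoeff_cl hi
  have hO := blockCoeff_mem hB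
  obtain ⟨χ₀, hχ₀⟩ := hB.nonempty
  have e1 := (red_Om (hi _ hχ₀) hcl hO).2
  rw [Om_blockCoeff hi (hi _ hχ₀), if_pos hχ₀, red_one] at e1
  obtain ⟨K, hK⟩ : ∃ K : ConjClasses G, red O (blockCoeff B (rep K)) *
      red O (omega χ₀ (rep K)) ≠ 0 := by
    by_contra hcon
    push Not at hcon
    rw [Finset.sum_eq_zero fun K _ => hcon K] at e1
    exact one_ne_zero e1
  obtain ⟨Q⟩ : Nonempty (Sylow p (Subgroup.centralizer ({rep K} : Set G))) := inferInstance
  refine ⟨_, rep K, ⟨Q, rfl⟩, ?_, fun hcon => left_ne_zero_of_mul hK (red_eq_zero hcon)⟩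
  intro χ hχ hcon
  apply right_ne_zero_of_mul hK
  rw [← hB.red_eq hχ hχ₀]
  exact red_eq_zero hcon

variable {D : Subgroup G}

/-- the restriction of a function to the centraliser of `D`, as a function on the normalizer -/
def rC (D : Subgroup G) (h : G → ℂ) (n : NN D) : ℂ :=
  if (n : G) ∈ Subgroup.centralizer (D : Set G) then h n else 0

theorem cent_conj {y : G} (hy : y ∈ NN D) (n : G) :
    y * n * y⁻¹ ∈ Subgroup.centralizer (D : Set G) ↔ n ∈ Subgroup.centralizer (D : Set G) := by
  have key : ∀ y ∈ NN D, ∀ n ∈ Subgroup.centralizer (D : Set G),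
      y * n * y⁻¹ ∈ Subgroup.centralizer (D : Set G) := by
    intro y hy n hn
    rw [Subgroup.mem_centralizer_iff]
    intro d hd
    have h1 : y⁻¹ * d * y ∈ D := by
      have := (Subgroup.mem_normalizer_iff.mp (inv_mem hy) d).mp hd
      rwa [inv_inv] at this
    have h2 := Subgroup.mem_centralizer_iff.mp hn _ h1
    calc d * (y * n * y⁻¹) = y * ((y⁻¹ * d * y) * n) * y⁻¹ := by group
      _ = y * (n * (y⁻¹ * d * y)) * y⁻¹ := by rw [h2]
      _ = _ := by group
  refine ⟨fun h => ?_, key y hy n⟩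
  have h1 := key y⁻¹ (inv_mem hy) _ h
  have h2 : y⁻¹ * (y * n * y⁻¹) * y⁻¹⁻¹ = n := by group
  rwa [h2] at h1

theorem rC_cl {h : G → ℂ} (hh : IsCl h) : IsCl (rC D h) := by
  intro n y
  unfold rC
  have e : ((y * n * y⁻¹ : NN D) : G) = (y : G) * n * (y : G)⁻¹ := rfl
  rw [e, hh]
  simp only [cent_conj y.2]

theorem rC_mem {h : G → ℂ} (hh : ∀ g, h g ∈ O) (n : NN D) : rC D h n ∈ O := by
  unfold rC
  split_ifs
  · exact hh _
  · exact O.zero_mem

theorem rC_dl : rC D (dl : G → ℂ) = dl := by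
  funext n
  unfold rC dl
  by_cases h : n = 1
  · subst h
    simp only [Subgroup.coe_one, one_mem, if_true]
  · have h' : (n : G) ≠ 1 := fun h'' => h (Subtype.ext h'')
    rw [if_neg h, if_neg h', ite_self]

/-- the Brauer homomorphism is multiplicative -/
theorem red_conv_rC (hpO : (p : ℂ) ∈ O.nonunits) (hD : IsPGroup p D) {h₁ h₂ : G → ℂ}
    (c1 : IsCl h₁) (c2 : IsCl h₂) (m1 : ∀ g, h₁ g ∈ O) (m2 : ∀ g, h₂ g ∈ O) (n : NN D) :
    red O (rC D (conv h₁ h₂) n) = red O (conv (rC D h₁) (rC D h₂) n) := by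
  have mm : ∀ x : NN D, rC D h₁ x * rC D h₂ (x⁻¹ * n) ∈ O := fun x =>
    O.mul_mem _ _ (rC_mem m1 x) (rC_mem m2 _)
  have e0 : red O (conv (rC D h₁) (rC D h₂) n) =
      ∑ x : NN D, red O (rC D h₁ x * rC D h₂ (x⁻¹ * n)) := by
    unfold conv
    exact red_sum _ _ fun x _ => mm x
  rw [e0]
  by_cases hn : (n : G) ∈ Subgroup.centralizer (D : Set G)
  · have mg : ∀ x : G, h₁ x * h₂ (x⁻¹ * n) ∈ O := fun x => O.mul_mem _ _ (m1 x) (m2 _)
    have e1 : red O (rC D (conv h₁ h₂) n) = ∑ x : G, red O (h₁ x * h₂ (x⁻¹ * n)) := by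
      unfold rC conv
      rw [if_pos hn]
      exact red_sum _ _ fun x _ => mg x
    have e2 := sum_fixed_conj' hpO hD (fun x => red O (h₁ x * h₂ (x⁻¹ * n))) (by
      intro d hd x
      have h1 : d * (n : G) = n * d := Subgroup.mem_centralizer_iff.mp hn d hd
      have h2 : (d * x * d⁻¹)⁻¹ * (n : G) = d * (x⁻¹ * n) * d⁻¹ := by
        have e3 : d⁻¹ * (n : G) = n * d⁻¹ := by
          rw [inv_mul_eq_iff_eq_mul, ← mul_assoc, h1, mul_assoc, mul_inv_cancel, mul_one]
        calc (d * x * d⁻¹)⁻¹ * (n : G) = d * x⁻¹ * (d⁻¹ * n) := by group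
          _ = d * x⁻¹ * (n * d⁻¹) := by rw [e3]
          _ = _ := by group
      simp only [h2, c1 x d, c2 (x⁻¹ * n) d])
    rw [e1, e2]
    have hle : Subgroup.centralizer (D : Set G) ≤ NN D := by
      intro x hx
      rw [Subgroup.mem_normalizer_iff]
      intro d
      have hx' := Subgroup.mem_centralizer_iff.mp hx
      constructor
      · intro hd
        have : x * d * x⁻¹ = d := by
          rw [← hx' d hd]
          group
        rwa [this]
      · intro hd
        have h3 := hx' _ hd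
        have : x * d * x⁻¹ = d := by
          have h4 : x * d * x⁻¹ * x = x * (x * d * x⁻¹) := h3
          have h5 : x * d = x * (x * d * x⁻¹) := by
            rw [← h4]
            group
          exact (mul_left_cancel h5).symm
        rwa [this] at hd
    have e3 : ∑ x ∈ Finset.univ.filter (fun x => x ∈ Subgroup.centralizer (D : Set G)),
        red O (h₁ x * h₂ (x⁻¹ * n)) = ∑ x ∈ Finset.univ.filter (fun x => x ∈ NN D),
        (if x ∈ Subgroup.centralizer (D : Set G) then red O (h₁ x * h₂ (x⁻¹ * n)) else 0) := by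
      rw [Finset.sum_filter, Finset.sum_filter]
      refine Finset.sum_congr rfl fun x _ => ?_
      by_cases hx : x ∈ Subgroup.centralizer (D : Set G)
      · rw [if_pos hx, if_pos (hle hx)]
      · rw [if_neg hx, ite_self]
    rw [e3, Finset.sum_subtype (p := fun x => x ∈ NN D) _ (fun x => by
      simp only [Finset.mem_filter, Finset.mem_univ, true_and])]
    refine Finset.sum_congr rfl fun x _ => ?_
    by_cases hx : (x : G) ∈ Subgroup.centralizer (D : Set G)
    · have hx' : ((x⁻¹ * n : NN D) : G) ∈ Subgroup.centralizer (D : Set G) :=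
        mul_mem (inv_mem hx) hn
      unfold rC
      rw [if_pos hx, if_pos hx, if_pos hx']
      rfl
    · unfold rC
      rw [if_neg hx, if_neg hx, zero_mul, red_zero]
  · have e1 : rC D (conv h₁ h₂) n = 0 := if_neg hn
    rw [e1, red_zero]
    symm
    apply Finset.sum_eq_zero
    intro x _
    by_cases hx : (x : G) ∈ Subgroup.centralizer (D : Set G)
    · have hx' : ¬ ((x⁻¹ * n : NN D) : G) ∈ Subgroup.centralizer (D : Set G) := by
        intro h
        apply hn
        have := mul_mem hx h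
        have e : (x : G) * ((x⁻¹ * n : NN D) : G) = n := by
          change (x : G) * ((x : G)⁻¹ * n) = n
          group
        rwa [e] at this
      have e2 : rC D h₂ (x⁻¹ * n) = 0 := if_neg hx'
      rw [e2, mul_zero, red_zero]
    · have e2 : rC D h₁ x = 0 := if_neg hx
      rw [e2, zero_mul, red_zero]

theorem Lam_conv (hpO : (p : ℂ) ∈ O.nonunits) (hD : IsPGroup p D) {h₁ h₂ : G → ℂ}
    (c1 : IsCl h₁) (c2 : IsCl h₂) (m1 : ∀ g, h₁ g ∈ O) (m2 : ∀ g, h₂ g ∈ O) {ψ : NN D → ℂ}
    (hψ : IsIrr ψ) : red O (Om (rC D (conv h₁ h₂)) ψ) =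
      red O (Om (rC D h₁) ψ) * red O (Om (rC D h₂) ψ) := by
  have e1 : red O (Om (rC D (conv h₁ h₂)) ψ) = red O (Om (conv (rC D h₁) (rC D h₂)) ψ) :=
    red_Om_congr hψ hψ (rC_cl (c1.conv c2)) ((rC_cl c1).conv (rC_cl c2))
      (rC_mem (conv_mem m1 m2)) (conv_mem (rC_mem m1) (rC_mem m2)) fun g => by
        rw [red_conv_rC hpO hD c1 c2 m1 m2]
  rw [e1, Om_conv hψ (rC_cl c1) (rC_cl c2), red_mul (red_Om hψ (rC_cl c1) (rC_mem m1)).1
    (red_Om hψ (rC_cl c2) (rC_mem m2)).1]

/-- the values outside the centraliser do not matter -/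
theorem red_rC (hpO : (p : ℂ) ∈ O.nonunits) (hD : IsPGroup p D) {h : G → ℂ} (c : IsCl h)
    (m : ∀ g, h g ∈ O) {ψ : NN D → ℂ} (hψ : IsIrr ψ) :
    Om (fun n : NN D => h n) ψ ∈ O ∧ red O (Om (fun n : NN D => h n) ψ) = red O (Om (rC D h) ψ) := by
  haveI : (DD D).Normal := Subgroup.normal_in_normalizer
  have hcl : IsCl fun n : NN D => h n := fun n y => c n y
  refine ⟨(red_Om hψ hcl fun n => m n).1, red_Om_congr hψ hψ hcl (rC_cl c) (fun n => m n)
    (rC_mem m) fun g => ?_⟩
  by_cases hg : (g : G) ∈ Subgroup.centralizer (D : Set G)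
  · have e : rC D h g = h g := if_pos hg
    rw [e]
  · have h1 : g ∉ Subgroup.centralizer ((DD D : Subgroup (NN D)) : Set (NN D)) := fun h' =>
      hg ((mem_cent_DD g).mp h')
    rw [lam_zero hpO (pgroup_DD hD) hψ h1, mul_zero, mul_zero]

theorem L_eq_Om (ψ : NN D → ℂ) (g : G) : L (NN D).subtype ψ g = Om (fun n : NN D => ind g n) ψ := by
  unfold L Om ind
  congr 1
  refine Finset.sum_congr rfl fun n _ => ?_
  change (if IsConj g (n : G) then ψ n else 0) = (if IsConj g (n : G) then 1 else 0) * ψ n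
  split_ifs
  · rw [one_mul]
  · rw [zero_mul]

/-- a character of `N_G(D)` which lies in a Brauer correspondent -/
theorem exists_psi (hpO : (p : ℂ) ∈ O.nonunits) {B : Set (G → ℂ)} (hB : IsBlock O B)
    (hD : IsDefectGroup p O B D) :
    ∃ ψ : NN D → ℂ, IsIrr ψ ∧ red O (Om (rC D (blockCoeff B)) ψ) ≠ 0 := by
  obtain ⟨x₀, a1, a2, a3, a4, a5⟩ := isDefectGroup_iff.mp hD
  by_contra hcon
  push Not at hcon
  have hi := hB.irr
  have hcl := blockCoeff_cl hi
  have hO := blockCoeff_mem hB
  have hx : x₀ ∈ Subgroup.centralizer (D : Set G) := by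
    rw [Subgroup.mem_centralizer_iff]
    intro d hd
    exact Subgroup.mem_centralizer_singleton_iff.mp (a1 hd)
  have hxN : x₀ ∈ NN D := by
    rw [Subgroup.mem_normalizer_iff]
    intro d
    have hx' := Subgroup.mem_centralizer_iff.mp hx
    constructor
    · intro hd
      have : x₀ * d * x₀⁻¹ = d := by
        rw [← hx' d hd]
        group
      rwa [this]
    · intro hd
      have h3 := hx' _ hd
      have : x₀ * d * x₀⁻¹ = d := by
        have h4 : x₀ * d * x₀⁻¹ * x₀ = x₀ * (x₀ * d * x₀⁻¹) := h3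
        have h5 : x₀ * d = x₀ * (x₀ * d * x₀⁻¹) := by
          rw [← h4]
          group
        exact (mul_left_cancel h5).symm
      rwa [this] at hd
  have hidem : conv (blockCoeff B) (blockCoeff B) = blockCoeff B := by
    apply eq_of_Om (hcl.conv hcl) hcl
    intro χ hχ
    rw [Om_conv hχ hcl hcl, Om_blockCoeff hi hχ]
    split_ifs
    · rw [one_mul]
    · rw [zero_mul]
  have h1 := nil (rC_cl (D := D) hcl) (rC_mem hO) (fun g => by
    rw [← red_conv_rC hpO a2 hcl hcl hO hO, hidem]) (fun ψ hψ => hcon ψ hψ) ⟨x₀, hxN⟩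
  have h2 : rC D (blockCoeff B) ⟨x₀, hxN⟩ = blockCoeff B x₀ := if_pos hx
  rw [h2] at h1
  exact a5 ((red_eq_zero_iff (hO _)).mp h1)

/-- the central character of the correspondent -/
theorem lam_psi (hpO : (p : ℂ) ∈ O.nonunits) (hDp : IsPGroup p D) {B : Set (G → ℂ)}
    (hB : IsBlock O B)
    {ψ : NN D → ℂ} (hψ : IsIrr ψ) (hne : red O (Om (rC D (blockCoeff B)) ψ) ≠ 0)
    {χ : G → ℂ} (hχ : χ ∈ B) (g : G) :
    red O (Om (rC D (ind g)) ψ) = red O (omega χ g) := by
  have hi := hB.irr
  have hcl := blockCoeff_cl hi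
  have hO := blockCoeff_mem hB
  have key : ∀ T : Finset (G → ℂ), (∀ ξ ∈ T, ξ ∈ B) → ∃ P : G → ℂ, IsCl P ∧ (∀ g, P g ∈ O) ∧
      (∀ ξ, IsIrr ξ → Om P ξ = (if ξ ∈ B then 1 else 0) * ∏ η ∈ T, (omega ξ g - omega η g)) ∧
      red O (Om (rC D P) ψ) = (red O (Om (rC D (ind g)) ψ) - red O (omega χ g)) ^ T.card *
        red O (Om (rC D (blockCoeff B)) ψ) := by
    intro T
    induction T using Finset.induction_on with
    | empty =>
      intro _
      refine ⟨blockCoeff B, hcl, hO, fun ξ hξ => ?_, ?_⟩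
      · rw [Om_blockCoeff hi hξ, Finset.prod_empty, mul_one]
      · rw [Finset.card_empty, pow_zero, one_mul]
    | insert η T hx ih =>
      intro hT
      obtain ⟨P, p1, p2, p3, p4⟩ := ih fun ξ hξ => hT ξ (Finset.mem_insert_of_mem hξ)
      have hηB := hT η (Finset.mem_insert_self _ _)
      have hη := hi η hηB
      have hc := hη.omega_mem O g
      have hcl' : IsCl fun x => ind g x - omega η g * dl x := fun x y => by
        simp only [ind_cl g x y, dl_cl x y]
      have hO' : ∀ x, ind g x - omega η g * dl x ∈ O := fun x =>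
        sub_mem' (ind_mem O g x) (O.mul_mem _ _ hc (dl_mem O x))
      refine ⟨conv (fun x => ind g x - omega η g * dl x) P, hcl'.conv p1, conv_mem hO' p2,
        fun ξ hξ => ?_, ?_⟩
      · rw [Om_conv hξ hcl' p1, Om_sub, Om_smul, Om_dl hξ, mul_one, p3 ξ hξ, Om_ind hξ,
          Finset.prod_insert hx]
        ring
      · rw [Lam_conv hpO hDp hcl' p1 hO' p2 hψ, p4, Finset.card_insert_of_notMem hx, pow_succ]
        have e1 : Om (rC D fun x => ind g x - omega η g * dl x) ψ =
            Om (rC D (ind g)) ψ - omega η g := by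
          have e2 : (rC D fun x => ind g x - omega η g * dl x) =
              fun n => rC D (ind g) n - omega η g * rC D dl n := by
            funext n
            unfold rC
            split_ifs
            · rfl
            · ring
          rw [e2, Om_sub, Om_smul, rC_dl, Om_dl hψ, mul_one]
        rw [e1, red_sub (red_Om hψ (rC_cl (ind_cl g)) (rC_mem (ind_mem O g))).1 hc,
          hB.red_eq hηB hχ]
        ring
  obtain ⟨P, p1, p2, p3, p4⟩ := key ((IC.Irr G).filter (· ∈ B))
    fun ξ hξ => (Finset.mem_filter.mp hξ).2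
  have hP : P = fun _ => 0 := by
    apply eq_of_Om p1 (fun _ _ => rfl)
    intro ξ hξ
    rw [p3 ξ hξ]
    have e0 : Om (fun _ : G => (0 : ℂ)) ξ = 0 := by
      unfold Om
      simp
    rw [e0]
    by_cases hξB : ξ ∈ B
    · have e5 : ∏ η ∈ (IC.Irr G).filter (· ∈ B), (omega ξ g - omega η g) = 0 :=
        Finset.prod_eq_zero (i := ξ) (Finset.mem_filter.mpr ⟨IC.mem_Irr.mpr hξ, hξB⟩) (sub_self _)
      rw [e5, mul_zero]
    · rw [if_neg hξB, zero_mul]
  have e3 : red O (Om (rC D P) ψ) = 0 := by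
    have e4 : rC D P = fun _ => 0 := by
      funext n
      unfold rC
      rw [hP, ite_self]
    rw [e4]
    have e0 : Om (fun _ : NN D => (0 : ℂ)) ψ = 0 := by
      unfold Om
      simp
    rw [e0, red_zero]
  rw [e3] at p4
  have h5 := (mul_eq_zero.mp p4.symm).resolve_right hne
  have h6 : ((IC.Irr G).filter (· ∈ B)).card ≠ 0 := (Finset.card_pos.mpr
    ⟨χ, Finset.mem_filter.mpr ⟨IC.mem_Irr.mpr (hi χ hχ), hχ⟩⟩).ne'
  exact sub_eq_zero.mp ((pow_eq_zero_iff h6).mp h5)

/-- **Brauer's first main theorem**, existence -/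
theorem exists_brauer (hpO : (p : ℂ) ∈ O.nonunits) {B : Set (G → ℂ)} (hB : IsBlock O B)
    (hD : IsDefectGroup p O B D) : ∃ b, IsBrauerCorrespondent p O D B b := by
  haveI : (DD D).Normal := Subgroup.normal_in_normalizer
  obtain ⟨x₀, a1, a2, a3, a4, a5⟩ := isDefectGroup_iff.mp hD
  obtain ⟨ψ, hψ, hne⟩ := exists_psi hpO hB hD
  set b : Set (NN D → ℂ) := {θ | IsIrr θ ∧ ∀ x, omega θ x - omega ψ x ∈ O.nonunits} with hb
  have hbB : IsBlock O b := ⟨ψ, hψ, rfl⟩
  have hψb : ψ ∈ b := ⟨hψ, fun x => by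
    rw [sub_self]
    exact (red_eq_zero_iff O.zero_mem).mp red_zero⟩
  have hL : ∀ θ ∈ b, ∀ χ ∈ B, ∀ g : G, L (NN D).subtype θ g ∈ O ∧
      red O (L (NN D).subtype θ g) = red O (omega χ g) := by
    intro θ hθ χ hχ g
    have h1 := red_rC hpO a2 (ind_cl g) (ind_mem O g) hθ.1
    rw [L_eq_Om]
    refine ⟨h1.1, ?_⟩
    rw [h1.2, ← lam_psi hpO a2 hB hψ hne hχ]
    refine red_Om_congr hθ.1 hψ (rC_cl (ind_cl g)) (rC_cl (ind_cl g)) (rC_mem (ind_mem O g))
      (rC_mem (ind_mem O g)) fun n => ?_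
    rw [hbB.red_eq hθ hψb]
  refine ⟨b, hbB, ?_, ?_⟩
  · -- the defect group
    have hi := hbB.irr
    have hcl := blockCoeff_cl hi
    have hO := blockCoeff_mem hbB
    have e1 := (red_Om hψ hcl hO).2
    rw [Om_blockCoeff hi hψ, if_pos hψb, red_one] at e1
    obtain ⟨K, hK⟩ : ∃ K : ConjClasses (NN D), red O (blockCoeff b (rep K)) *
        red O (omega ψ (rep K)) ≠ 0 := by
      by_contra hcon
      push Not at hcon
      rw [Finset.sum_eq_zero fun K _ => hcon K] at e1
      exact one_ne_zero e1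
    have hK1 := left_ne_zero_of_mul hK
    have hK2 := right_ne_zero_of_mul hK
    generalize rep K = x at hK1 hK2
    have hxc : x ∈ Subgroup.centralizer ((DD D : Subgroup (NN D)) : Set (NN D)) := by
      by_contra h
      exact hK2 (lam_zero hpO (pgroup_DD a2) hψ h)
    have hle : DD D ≤ Subgroup.centralizer ({x} : Set (NN D)) := le_centralizer hxc
    have hbx : blockCoeff b x ∉ O.nonunits := fun h => hK1 (red_eq_zero h)
    -- a class of `N` with large central character
    obtain ⟨χ, hχ⟩ := hB.nonempty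
    have h6 : red O (Om (fun n : NN D => ind x₀ n) ψ) ≠ 0 := by
      have h7 := (hL ψ hψb χ hχ x₀).2
      rw [L_eq_Om] at h7
      rw [h7]
      intro h8
      exact a4 χ hχ ((red_eq_zero_iff ((hB.irr χ hχ).omega_mem O _)).mp h8)
    rw [(red_Om hψ (fun n y => ind_cl x₀ n y) fun n => ind_mem O x₀ n).2] at h6
    obtain ⟨K', -, hK'⟩ := Finset.exists_ne_zero_of_sum_ne_zero h6
    have hk1 := left_ne_zero_of_mul hK'
    have hk2 := right_ne_zero_of_mul hK'
    generalize rep K' = y at hk1 hk2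
    have hxy : IsConj x₀ (y : G) := by
      by_contra h
      apply hk1
      unfold ind
      rw [if_neg h, red_zero]
    rw [isDefectGroup_iff]
    refine ⟨x, hle, pgroup_DD a2, ?_, ?_, hbx⟩
    · obtain ⟨Q⟩ : Nonempty (Sylow p (Subgroup.centralizer ({x} : Set (NN D)))) := inferInstance
      obtain ⟨q1, q2, q3⟩ := (sylow_iff (p := p) (Subgroup.centralizer ({x} : Set (NN D))) _).mp
        ⟨Q, rfl⟩
      set S := (Q : Subgroup (Subgroup.centralizer ({x} : Set (NN D)))).map
        (Subgroup.centralizer ({x} : Set (NN D))).subtype with hS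
      obtain ⟨k, hk, hSk⟩ := minmax hpO hbB (y := y) (a := x) (by
        intro θ hθ hcon
        apply hk2
        rw [← hbB.red_eq hθ hψb]
        exact red_eq_zero hcon) hbx q2 q1
      -- the image of `S` in `G` centralises a conjugate of `x₀`
      have hconj : IsConj x₀ (k : G) := hxy.trans ((NN D).subtype.map_isConj hk)
      set S' : Subgroup G := S.map (NN D).subtype with hS'
      have hcS : Nat.card S' = Nat.card S := Subgroup.card_map_of_injective (NN D).subtype_injective
      have hS'k : S' ≤ Subgroup.centralizer ({(k : G)} : Set G) := by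
        intro z hz
        obtain ⟨z', hz', rfl⟩ := Subgroup.mem_map.mp hz
        have := Subgroup.mem_centralizer_singleton_iff.mp (hSk hz')
        rw [Subgroup.mem_centralizer_singleton_iff]
        exact congrArg Subtype.val this
      have c1 := card_mul_relIndex a1
      have c2 := card_mul_relIndex hle
      have c3 := card_mul_relIndex q1
      have c4 := card_mul_relIndex hS'k
      rw [← card_centralizer_congr hconj, ← c1] at c4
      obtain ⟨d, hd⟩ := IsPGroup.iff_card.mp a2
      obtain ⟨s, hs⟩ := IsPGroup.iff_card.mp q2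
      rw [hcS, hs, hd] at c4
      have cD : Nat.card (DD D) = p ^ d := by rw [← hd]; exact card_DD D
      rw [cD] at c2
      rw [hs, ← c2] at c3
      have h1 : p ^ s ∣ p ^ d * D.relIndex (Subgroup.centralizer ({x₀} : Set G)) := ⟨_, c4.symm⟩
      have h2 : (p ^ s).Coprime (D.relIndex (Subgroup.centralizer ({x₀} : Set G))) :=
        Nat.Coprime.pow_left _ ((Nat.Prime.coprime_iff_not_dvd hp.out).mpr a3)
      have h3 : p ^ s ∣ p ^ d := h2.dvd_of_dvd_mul_right h1
      have h4 : s ≤ d := (Nat.pow_dvd_pow_iff_le_right hp.out.one_lt).mp h3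
      intro hdvd
      obtain ⟨r, hr⟩ := hdvd
      rw [hr] at c3
      have h5 : p ^ (d + 1) ∣ p ^ s * S.relIndex (Subgroup.centralizer ({x} : Set (NN D))) := by
        rw [c3]
        exact ⟨r, by ring⟩
      have h6 : (p ^ (d + 1)).Coprime
          (S.relIndex (Subgroup.centralizer ({x} : Set (NN D)))) :=
        Nat.Coprime.pow_left _ ((Nat.Prime.coprime_iff_not_dvd hp.out).mpr q3)
      have h7 : p ^ (d + 1) ∣ p ^ s := h6.dvd_of_dvd_mul_right h5
      have h8 : d + 1 ≤ s := (Nat.pow_dvd_pow_iff_le_right hp.out.one_lt).mp h7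
      omega
    · intro θ hθ hcon
      apply hK2
      rw [← hbB.red_eq hθ hψb]
      exact red_eq_zero hcon
  · intro χ hχ θ hθ x
    rw [sum_eq_L]
    obtain ⟨h1, h2⟩ := hL θ hθ χ hχ x
    exact (red_eq_iff ((hB.irr χ hχ).omega_mem O x) h1).mp h2.symm

end fmt

end Pool.Agent.Hp21.UN
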