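import Pool.Agent.Hp21.UN.Br
import Pool.Agent.Hp21.UN.Fmt

/-!
# Every irreducible character of `E ⋊ A` is above a linear character of `E`
-/

set_option autoImplicit false
set_option linter.unusedSectionVars false
set_option linter.style.haveILetI false

open scoped BigOperators Classical

noncomputable section

namespace Pool.Agent.Hp21.UN

open Pool.Agent.Q90.WR Pool.Agent.H254R3.IN Pool.Agent.Q259.BW Pool.Agent.Q288.MB
open Pool.Agent.N19.RB
open Pool.Agent.Helper884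

/-- irreducible characters of abelian groups are linear -/
theorem abelian_irr {E : Type} [CommGroup E] [Fintype E] {μ : E → ℂ} (h : IsIrr μ) :
    ∃ θ : E →* ℂ, μ = θ := by
  have h0 := h
  obtain ⟨V, _, _, _, ρ, hρ, hμ⟩ := h
  have hnt : Nontrivial V := Pool.Agent.H254R3.IN.irr_nontrivial ρ hρ
  have hs : ∀ e : E, ∃ c : ℂ, ρ e = c • LinearMap.id := fun e =>
    schur ρ hρ (ρ e) fun g v => by
      rw [← Module.End.mul_apply, ← Module.End.mul_apply, ← map_mul, ← map_mul, mul_comm]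
  choose c hc using hs
  have hc1 : c 1 = 1 := by
    have h1 := hc 1
    rw [map_one] at h1
    exact (scalar_inj (V := V) (a := c 1) (b := 1) (by rw [← h1, one_smul]; rfl))
  have hcm : ∀ a b, c (a * b) = c a * c b := by
    intro a b
    have h1 := hc (a * b)
    rw [map_mul, hc a, hc b] at h1
    refine (scalar_inj (V := V) ?_)
    rw [← h1]
    ext v
    simp only [Module.End.mul_apply, LinearMap.smul_apply, LinearMap.id_apply, smul_smul]
  have hval : ∀ e, μ e = c e * Module.finrank ℂ V := by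
    intro e
    rw [hμ]
    change LinearMap.trace ℂ V (ρ e) = _
    rw [hc, map_smul, LinearMap.trace_id, smul_eq_mul]
  have hB := IC.B_irr h0 h0
  rw [if_pos rfl] at hB
  unfold IC.B at hB
  have h2 : ∀ e : E, μ e * μ e⁻¹ = (Module.finrank ℂ V : ℂ) ^ 2 := by
    intro e
    rw [hval, hval]
    have h3 : c e * c e⁻¹ = 1 := by rw [← hcm, mul_inv_cancel, hc1]
    linear_combination (Module.finrank ℂ V : ℂ) ^ 2 * h3
  rw [Finset.sum_congr rfl fun e _ => h2 e, Finset.sum_const, nsmul_eq_mul, Finset.card_univ,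
    ← Nat.card_eq_fintype_card] at hB
  have c1 := cG (G := E)
  have h4 : (Module.finrank ℂ V : ℂ) ^ 2 = 1 := by
    field_simp at hB
    exact hB
  have h5 : (Module.finrank ℂ V) ^ 2 = 1 := by exact_mod_cast h4
  have h6 : Module.finrank ℂ V = 1 := by
    rcases Nat.eq_zero_or_pos (Module.finrank ℂ V) with h | h
    · rw [h] at h5
      exact absurd h5 (by norm_num)
    · nlinarith
  refine ⟨⟨⟨c, hc1⟩, hcm⟩, funext fun e => ?_⟩
  rw [hval, h6, Nat.cast_one, mul_one]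
  rfl

section all

variable {E A : Type} [CommGroup E] [Group A] {φ : A →* MulAut E}

/-- the stabiliser of a linear character -/
def stA (φ : A →* MulAut E) (θ : E →* ℂ) : Subgroup A where
  carrier := {a | ∀ e, θ (φ a e) = θ e}
  one_mem' := fun e => by rw [phi_one]
  mul_mem' := fun {a b} ha hb e => by
    rw [← phi_mul, ha, hb]
  inv_mem' := fun {a} ha e => by
    rw [← ha (φ a⁻¹ e), phi_inv]

theorem stA_St (φ : A →* MulAut E) (θ : E →* ℂ) : St φ (stA φ θ).subtype θ := by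
  refine ⟨Subtype.val_injective, fun a => ?_⟩
  constructor
  · intro h
    exact ⟨⟨a, h⟩, rfl⟩
  · rintro ⟨g, rfl⟩
    exact g.2

variable [Fintype E] [Fintype A]

theorem exists_irr {G : Type} [Group G] [Fintype G] {f : G → ℂ} (hf : IsCl f) (hne : f 1 ≠ 0) :
    ∃ χ : G → ℂ, IsIrr χ ∧ IC.B f χ ≠ 0 := by
  by_contra hcon
  push Not at hcon
  apply hne
  rw [IC.expand f hf, Finset.sum_eq_zero]
  · rfl
  · intro χ hχ
    rw [hcon χ (IC.mem_Irr.mp hχ), zero_smul]

theorem exists_hat {ξ : E ⋊[φ] A → ℂ} (hξ : IsIrr ξ) : ∃ (θ : E →* ℂ) (χ : stA φ θ → ℂ),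
    IsIrr χ ∧ ξ = hat φ (stA φ θ).subtype θ χ := by
  have hcl : IsCl ξ := fun g y => hξ.conj g y
  obtain ⟨μ, hμ, hμ'⟩ := exists_irr (f := fun e : E => ξ (SemidirectProduct.inl e)) (fun g y => by
    simp only [mul_inv_cancel_comm]) (by rw [map_one]; exact hξ.one_ne)
  obtain ⟨θ, rfl⟩ := abelian_irr hμ
  have h := stA_St φ θ
  set η : stA φ θ → ℂ := fun g => ∑ e, θ e * ξ (⟨e, g⟩ : E ⋊[φ] A)⁻¹ with hη
  have hη1 : η 1 ≠ 0 := by
    intro h0
    apply hμ'
    unfold IC.B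
    have h1 : ∑ e : E, ξ (SemidirectProduct.inl e) * θ e⁻¹ = η 1 := by
      rw [hη]
      refine Fintype.sum_equiv (Equiv.inv E) _ _ fun e => ?_
      rw [Equiv.inv_apply, mul_comm]
      congr 2
      ext
      · simp
      · simp
    rw [h1, h0, mul_zero]
  have hηcl : IsCl η := by
    intro g y
    rw [hη]
    refine (Fintype.sum_equiv (φ (y : A)).toEquiv _ _ fun e => ?_).symm
    change _ = θ (φ (y : A) e) * ξ (⟨φ (y : A) e, (y : A) * g * (y : A)⁻¹⟩ : E ⋊[φ] A)⁻¹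
    have h1 : θ (φ (y : A) e) = θ e := y.2 e
    rw [h1]
    congr 1
    have h2 := cl_inr (cl_inv hcl) (y : A) e (g : A)
    exact h2.symm
  obtain ⟨χ, hχ, hχ'⟩ := exists_irr (cl_inv hηcl) (by rw [inv_one]; exact hη1)
  refine ⟨θ, χ, hχ, ?_⟩
  by_contra hne
  apply hχ'
  have h3 := IC.B_irr (hat_irr h hχ) hξ
  rw [if_neg fun h' => hne h'.symm] at h3
  unfold IC.B at h3 ⊢
  rw [sum_hat χ (cl_inv hcl)] at h3
  have h4 : ∑ e : E, ∑ g : stA φ θ, θ e * χ g * ξ (⟨e, (stA φ θ).subtype g⟩ : E ⋊[φ] A)⁻¹ =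
      ∑ g : stA φ θ, η g⁻¹ * χ g⁻¹ := by
    rw [Finset.sum_comm]
    refine Fintype.sum_equiv (Equiv.inv (stA φ θ)) _ _ fun g => ?_
    rw [Equiv.inv_apply, inv_inv, hη, Finset.sum_mul]
    refine Finset.sum_congr rfl fun e _ => ?_
    change θ e * χ g * ξ (⟨e, (g : A)⟩ : E ⋊[φ] A)⁻¹ = _
    ring
  rw [h4] at h3
  have c1 := cG (G := stA φ θ)
  have c2 := cG (G := A)
  have c3 := cG (G := E ⋊[φ] A)
  rw [mul_eq_zero, mul_eq_zero, mul_eq_zero] at h3
  rcases h3 with h3 | (h3 | h3) | h3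
  · exact absurd h3 (inv_ne_zero c3)
  · exact absurd h3 (inv_ne_zero c1)
  · exact absurd h3 c2
  · rw [h3, mul_zero]

end all

section cnj

variable {G : Type} [Group G] [Fintype G] {O : ValuationSubring ℂ} {p : ℕ} [hp : Fact p.Prime]

/-- `p`-subgroups are contained in conjugates of a Sylow subgroup -/
theorem syl_le {C D P : Subgroup G} (h1 : D ≤ C) (h2 : IsPGroup p D) (h3 : ¬ p ∣ D.relIndex C)
    (h4 : P ≤ C) (h5 : IsPGroup p P) : ∃ c : G, ∀ x ∈ P, c⁻¹ * x * c ∈ D := by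
  have h6 : IsPGroup p (D.subgroupOf C) := h2.comap_subtype
  have h7 : IsPGroup p (P.subgroupOf C) := h5.comap_subtype
  obtain ⟨Q, hQ⟩ := h7.exists_le_sylow
  obtain ⟨c, hc⟩ := MulAction.exists_smul_eq C (h6.toSylow h3) Q
  refine ⟨c, fun x hx => ?_⟩
  have h8 : (⟨x, h4 hx⟩ : C) ∈ (Q : Subgroup C) := hQ (Subgroup.mem_subgroupOf.mpr hx)
  rw [← hc] at h8
  have h9 : (⟨x, h4 hx⟩ : C) ∈ ((c • (h6.toSylow h3) : Sylow p C) : Subgroup C) := h8
  rw [Sylow.coe_subgroup_smul, Subgroup.mem_pointwise_smul_iff_inv_smul_mem] at h9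
  have h10 : (MulAut.conj c)⁻¹ • (⟨x, h4 hx⟩ : C) = c⁻¹ * ⟨x, h4 hx⟩ * c := by
    rw [← map_inv, MulAut.smul_def, MulAut.conj_apply, inv_inv]
  rw [h10] at h9
  exact Subgroup.mem_subgroupOf.mp h9

/-- one defect group is contained in a conjugate of another one -/
theorem defect_le (hpO : (p : ℂ) ∈ O.nonunits) {B : Set (G → ℂ)} (hB : IsBlock O B)
    {D₁ D₂ : Subgroup G} (h1 : IsDefectGroup p O B D₁) (h2 : IsDefectGroup p O B D₂) :
    ∃ c : G, ∀ x ∈ D₁, c⁻¹ * x * c ∈ D₂ := by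
  obtain ⟨x₁, a1, a2, a3, a4, a5⟩ := isDefectGroup_iff.mp h1
  obtain ⟨x₂, b1, b2, b3, b4, b5⟩ := isDefectGroup_iff.mp h2
  obtain ⟨k, hk, hDk⟩ := minmax hpO hB b4 a5 a2 a1
  obtain ⟨z, hz⟩ := isConj_iff.mp hk
  have h3 : D₁.map (MulAut.conj z⁻¹).toMonoidHom ≤ Subgroup.centralizer ({x₂} : Set G) := by
    rintro _ ⟨d, hd, rfl⟩
    have h4 := Subgroup.mem_centralizer_singleton_iff.mp (hDk hd)
    rw [Subgroup.mem_centralizer_singleton_iff]
    change z⁻¹ * d * z⁻¹⁻¹ * x₂ = x₂ * (z⁻¹ * d * z⁻¹⁻¹)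
    rw [← hz] at h4
    have e1 : z⁻¹ * d * z⁻¹⁻¹ * x₂ = z⁻¹ * (d * (z * x₂ * z⁻¹)) * z := by group
    have e2 : x₂ * (z⁻¹ * d * z⁻¹⁻¹) = z⁻¹ * (z * x₂ * z⁻¹ * d) * z := by group
    rw [e1, e2, h4]
  obtain ⟨c, hc⟩ := syl_le b1 b2 b3 h3 (a2.map _)
  refine ⟨z * c, fun x hx => ?_⟩
  have h5 := hc _ (Subgroup.mem_map_of_mem (MulAut.conj z⁻¹).toMonoidHom hx)
  have e : (z * c)⁻¹ * x * (z * c) = c⁻¹ * (MulAut.conj z⁻¹).toMonoidHom x * c := by
    change _ = c⁻¹ * (z⁻¹ * x * z⁻¹⁻¹) * c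
    group
  rw [e]
  exact h5

theorem defect_conj (hpO : (p : ℂ) ∈ O.nonunits) {B : Set (G → ℂ)} (hB : IsBlock O B)
    {D₁ D₂ : Subgroup G} (h1 : IsDefectGroup p O B D₁) (h2 : IsDefectGroup p O B D₂) :
    ∃ c : G, D₂ = D₁.map (MulAut.conj c⁻¹).toMonoidHom := by
  obtain ⟨c, hc⟩ := defect_le hpO hB h1 h2
  obtain ⟨c', hc'⟩ := defect_le hpO hB h2 h1
  refine ⟨c, ?_⟩
  have i1 : D₁.map (MulAut.conj c⁻¹).toMonoidHom ≤ D₂ := by
    rintro _ ⟨d, hd, rfl⟩
    change c⁻¹ * d * c⁻¹⁻¹ ∈ D₂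
    rw [inv_inv]
    exact hc d hd
  have i2 : D₂.map (MulAut.conj c'⁻¹).toMonoidHom ≤ D₁ := by
    rintro _ ⟨d, hd, rfl⟩
    change c'⁻¹ * d * c'⁻¹⁻¹ ∈ D₁
    rw [inv_inv]
    exact hc' d hd
  have j1 : Nat.card (D₁.map (MulAut.conj c⁻¹).toMonoidHom) = Nat.card D₁ :=
    Subgroup.card_map_of_injective (MulAut.conj c⁻¹).injective
  have j2 : Nat.card (D₂.map (MulAut.conj c'⁻¹).toMonoidHom) = Nat.card D₂ :=
    Subgroup.card_map_of_injective (MulAut.conj c'⁻¹).injective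
  have k1 := Subgroup.card_dvd_of_le i1
  have k2 := Subgroup.card_dvd_of_le i2
  rw [j1] at k1
  rw [j2] at k2
  have k3 : Nat.card D₁ = Nat.card D₂ := Nat.dvd_antisymm k1 k2
  exact (Subgroup.eq_of_le_of_card_ge i1 (by rw [j1, k3])).symm

/-- the isomorphism between normalizers of conjugate subgroups -/
def cIso (D : Subgroup G) (c : G) :
    Subgroup.normalizer ((D.map (MulAut.conj c⁻¹).toMonoidHom : Subgroup G) : Set G) ≃*
      Subgroup.normalizer (D : Set G) where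
  toFun y := ⟨c * y * c⁻¹, by
    rw [Subgroup.mem_normalizer_iff]
    intro d
    have hy := Subgroup.mem_normalizer_iff.mp y.2
    have e1 : ∀ d : G, c⁻¹ * d * c ∈ D.map (MulAut.conj c⁻¹).toMonoidHom ↔ d ∈ D := by
      intro d
      rw [Subgroup.mem_map]
      constructor
      · rintro ⟨d', hd', h⟩
        change c⁻¹ * d' * c⁻¹⁻¹ = _ at h
        have : d' = d := by
          rw [inv_inv] at h
          exact mul_left_cancel (mul_right_cancel h)
        rwa [← this]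
      · intro hd
        exact ⟨d, hd, by change c⁻¹ * d * c⁻¹⁻¹ = _; rw [inv_inv]⟩
    rw [← e1, hy, ← e1]
    have e2 : (y : G) * (c⁻¹ * d * c) * (y : G)⁻¹ =
        c⁻¹ * (c * y * c⁻¹ * d * (c * y * c⁻¹)⁻¹) * c := by group
    rw [e2]⟩
  invFun y := ⟨c⁻¹ * y * c, by
    rw [Subgroup.mem_normalizer_iff]
    intro d
    have hy := Subgroup.mem_normalizer_iff.mp y.2
    have e1 : ∀ d : G, d ∈ D.map (MulAut.conj c⁻¹).toMonoidHom ↔ c * d * c⁻¹ ∈ D := by
      intro d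
      rw [Subgroup.mem_map]
      constructor
      · rintro ⟨d', hd', rfl⟩
        change c * (c⁻¹ * d' * c⁻¹⁻¹) * c⁻¹ ∈ D
        have : c * (c⁻¹ * d' * c⁻¹⁻¹) * c⁻¹ = d' := by group
        rwa [this]
      · intro hd
        refine ⟨_, hd, ?_⟩
        change c⁻¹ * (c * d * c⁻¹) * c⁻¹⁻¹ = _
        group
    rw [e1, hy, e1]
    have e2 : (y : G) * (c * d * c⁻¹) * (y : G)⁻¹ =
        c * (c⁻¹ * y * c * d * (c⁻¹ * y * c)⁻¹) * c⁻¹ := by group
    rw [e2]⟩
  left_inv y := Subtype.ext (by simp only []; group)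
  right_inv y := Subtype.ext (by simp only []; group)
  map_mul' x y := Subtype.ext (by simp only [Subgroup.coe_mul]; group)

theorem cIso_coe (D : Subgroup G) (c : G)
    (y : Subgroup.normalizer ((D.map (MulAut.conj c⁻¹).toMonoidHom : Subgroup G) : Set G)) :
    ((cIso D c y : Subgroup.normalizer (D : Set G)) : G) = c * y * c⁻¹ := rfl

theorem comap_cIso (D : Subgroup G) (c : G) :
    (D.subgroupOf (Subgroup.normalizer (D : Set G))).comap (cIso D c).toMonoidHom =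
      (D.map (MulAut.conj c⁻¹).toMonoidHom).subgroupOf
        (Subgroup.normalizer ((D.map (MulAut.conj c⁻¹).toMonoidHom : Subgroup G) : Set G)) := by
  ext y
  rw [Subgroup.mem_comap, Subgroup.mem_subgroupOf, Subgroup.mem_subgroupOf, Subgroup.mem_map]
  change c * y * c⁻¹ ∈ D ↔ _
  constructor
  · intro h
    refine ⟨_, h, ?_⟩
    change c⁻¹ * (c * y * c⁻¹) * c⁻¹⁻¹ = _
    group
  · rintro ⟨d', hd', h⟩
    change c⁻¹ * d' * c⁻¹⁻¹ = _ at h
    rw [← h]
    have : c * (c⁻¹ * d' * c⁻¹⁻¹) * c⁻¹ = d' := by group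
    rwa [this]

theorem brauer_conj {B : Set (G → ℂ)} {D : Subgroup G} {b : Set (Subgroup.normalizer (D : Set G) → ℂ)}
    (hb : IsBrauerCorrespondent p O D B b) (c : G) :
    IsBrauerCorrespondent p O (D.map (MulAut.conj c⁻¹).toMonoidHom) B (pull (cIso D c) b) := by
  obtain ⟨h1, h2, h3⟩ := hb
  refine ⟨pull_block _ h1, ?_, ?_⟩
  · have h4 := pull_defect (cIso D c) h1.irr h2
    rwa [comap_cIso] at h4
  · intro χ hχ θ hθ x
    have h5 : omega χ x - L (Subgroup.normalizer (D : Set G)).subtype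
        (fun k => θ ((cIso D c).symm k)) x ∈ O.nonunits := by
      rw [← sum_eq_L]
      exact h3 χ hχ _ hθ x
    rw [sum_eq_L]
    have h6 : L (Subgroup.normalizer (D : Set G)).subtype (fun k => θ ((cIso D c).symm k)) x =
        L (Subgroup.normalizer ((D.map (MulAut.conj c⁻¹).toMonoidHom : Subgroup G) :
          Set G)).subtype θ x := by
      unfold L
      simp only [map_one]
      congr 1
      refine (Fintype.sum_equiv (cIso D c).toEquiv _ _ fun y => ?_).symm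
      have h7 : IsConj x ((cIso D c y : Subgroup.normalizer (D : Set G)) : G) ↔
          IsConj x (y : G) := by
        rw [cIso_coe]
        have h8 : IsConj (y : G) (c * y * c⁻¹) := isConj_iff.mpr ⟨c, rfl⟩
        exact ⟨fun h => h.trans h8.symm, fun h => h.trans h8⟩
      change (if IsConj x (y : G) then θ y else 0) =
        if IsConj x ((cIso D c y : Subgroup.normalizer (D : Set G)) : G) then
          θ ((cIso D c).symm (cIso D c y)) else 0
      rw [MulEquiv.symm_apply_apply]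
      simp only [h7]
    rwa [h6] at h5

/-- The numbers of the characters of height zero in a block and in its Brauer correspondent do not
depend on the choice of the defect group. -/
theorem indep (hpO : (p : ℂ) ∈ O.nonunits) {B : Set (G → ℂ)} (hB : IsBlock O B)
    {D₁ D₂ : Subgroup G} (h1 : IsDefectGroup p O B D₁) (h2 : IsDefectGroup p O B D₂)
    {b₁ : Set (Subgroup.normalizer (D₁ : Set G) → ℂ)}
    {b₂ : Set (Subgroup.normalizer (D₂ : Set G) → ℂ)}
    (hb₁ : IsBrauerCorrespondent p O D₁ B b₁) (hb₂ : IsBrauerCorrespondent p O D₂ B b₂) :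
    Nonempty (D₁ ≃* D₂) ∧ Irr0 p D₁ B = Irr0 p D₂ B ∧
      Nat.card (Irr0 p (D₁.subgroupOf (Subgroup.normalizer (D₁ : Set G))) b₁) =
        Nat.card (Irr0 p (D₂.subgroupOf (Subgroup.normalizer (D₂ : Set G))) b₂) := by
  obtain ⟨c, rfl⟩ := defect_conj hpO hB h1 h2
  refine ⟨⟨D₁.equivMapOfInjective _ (MulAut.conj c⁻¹).injective⟩, ?_, ?_⟩
  · have hi : (D₁.map (MulAut.conj c⁻¹).toMonoidHom).index = D₁.index := by
      have e1 := (D₁.map (MulAut.conj c⁻¹).toMonoidHom).card_mul_index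
      have e2 := D₁.card_mul_index
      have e3 : Nat.card (D₁.map (MulAut.conj c⁻¹).toMonoidHom) = Nat.card D₁ :=
        Subgroup.card_map_of_injective (MulAut.conj c⁻¹).injective
      rw [e3, ← e2] at e1
      exact Nat.eq_of_mul_eq_mul_left Nat.card_pos e1
    unfold Irr0
    rw [hi]
  · have h3 := brauer_unique hpO hB hb₂ (brauer_conj hb₁ c)
    rw [h3]
    have h4 := irr0_pull (cIso D₁ c) (p := p)
      (D₁.subgroupOf (Subgroup.normalizer (D₁ : Set G))) b₁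
    rw [comap_cIso] at h4
    rw [h4, card_pull]

end cnj

end Pool.Agent.Hp21.UN
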