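import Pool.Agent.Hp21.UN.All

/-!
# The Alperin–McKay equality for `E ⋊ A` and for the stabilisers of linear characters of `E`
-/

set_option autoImplicit false
set_option linter.unusedSectionVars false
set_option linter.style.haveILetI false

open scoped BigOperators Classical

noncomputable section

namespace Pool.Agent.Hp21.UN

open Pool.Agent.Q90.WR Pool.Agent.H254R3.IN Pool.Agent.Q259.BW Pool.Agent.Q288.MB
open Pool.Agent.N19.RB
open Pool.Agent.Helper884

/-- The Alperin–McKay equality `|Irr₀(B)| = |Irr₀(b)|` for all `p`-blocks `B` of `G` with a defect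
group `D` in the class `C`, `b` the Brauer correspondent of `B` in `N_G(D)`. -/
def AMC (p : ℕ) (O : ValuationSubring ℂ) (C : (D : Type) → Group D → Prop) (G : Type)
    [Group G] : Prop :=
  ∀ (D : Subgroup G) (B : Set (G → ℂ)) (b : Set (Subgroup.normalizer (D : Set G) → ℂ)),
    IsBlock O B → IsDefectGroup p O B D → IsBrauerCorrespondent p O D B b → C D inferInstance →
    Nat.card (Irr0 p D B) =
      Nat.card (Irr0 p (D.subgroupOf (Subgroup.normalizer (D : Set G))) b)

/-- a class of groups closed under isomorphisms -/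
def IsoClosed (C : (D : Type) → Group D → Prop) : Prop :=
  ∀ (D E : Type) [i : Group D] [j : Group E], Nonempty (D ≃* E) → C D i → C E j

section iso

variable {G H : Type} [Group G] [Group H] [Fintype G] [Fintype H] {O : ValuationSubring ℂ} {p : ℕ}
  [hp : Fact p.Prime]

/-- the isomorphism between the normalizers -/
def eN (e : G ≃* H) (D : Subgroup H) :
    Subgroup.normalizer ((D.comap e.toMonoidHom : Subgroup G) : Set G) ≃*
      Subgroup.normalizer (D : Set H) where
  toFun y := ⟨e y, by
    rw [Subgroup.mem_normalizer_iff]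
    intro h
    have hy := Subgroup.mem_normalizer_iff.mp y.2 (e.symm h)
    have e1 : e.symm h ∈ D.comap e.toMonoidHom ↔ h ∈ D := by
      rw [Subgroup.mem_comap]
      change e (e.symm h) ∈ D ↔ _
      rw [MulEquiv.apply_symm_apply]
    have e2 : (y : G) * e.symm h * (y : G)⁻¹ ∈ D.comap e.toMonoidHom ↔
        e y * h * (e y)⁻¹ ∈ D := by
      rw [Subgroup.mem_comap]
      change e ((y : G) * e.symm h * (y : G)⁻¹) ∈ D ↔ _
      rw [map_mul, map_mul, map_inv, MulEquiv.apply_symm_apply]
    rw [← e1, ← e2]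
    exact hy⟩
  invFun z := ⟨e.symm z, by
    rw [Subgroup.mem_normalizer_iff]
    intro g
    have hz := Subgroup.mem_normalizer_iff.mp z.2 (e g)
    rw [Subgroup.mem_comap, Subgroup.mem_comap]
    change e g ∈ D ↔ e (e.symm z * g * (e.symm z)⁻¹) ∈ D
    rw [map_mul, map_mul, map_inv, MulEquiv.apply_symm_apply]
    exact hz⟩
  left_inv y := Subtype.ext (e.symm_apply_apply _)
  right_inv z := Subtype.ext (e.apply_symm_apply _)
  map_mul' x y := Subtype.ext (map_mul e _ _)

theorem eN_coe (e : G ≃* H) (D : Subgroup H)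
    (y : Subgroup.normalizer ((D.comap e.toMonoidHom : Subgroup G) : Set G)) :
    ((eN e D y : Subgroup.normalizer (D : Set H)) : H) = e y := rfl

theorem comap_eN (e : G ≃* H) (D : Subgroup H) :
    (D.subgroupOf (Subgroup.normalizer (D : Set H))).comap (eN e D).toMonoidHom =
      (D.comap e.toMonoidHom).subgroupOf
        (Subgroup.normalizer ((D.comap e.toMonoidHom : Subgroup G) : Set G)) := by
  ext y
  rfl

theorem brauer_iso (e : G ≃* H) {B : Set (H → ℂ)} {D : Subgroup H}
    {b : Set (Subgroup.normalizer (D : Set H) → ℂ)} (hb : IsBrauerCorrespondent p O D B b) :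
    IsBrauerCorrespondent p O (D.comap e.toMonoidHom) (pull e B) (pull (eN e D) b) := by
  obtain ⟨h1, h2, h3⟩ := hb
  refine ⟨pull_block _ h1, ?_, ?_⟩
  · have h4 := pull_defect (eN e D) h1.irr h2
    rwa [comap_eN] at h4
  · intro χ hχ θ hθ x
    have h5 : omega (fun k => χ (e.symm k)) (e x) - L (Subgroup.normalizer (D : Set H)).subtype
        (fun k => θ ((eN e D).symm k)) (e x) ∈ O.nonunits := by
      rw [← sum_eq_L]
      exact h3 _ hχ _ hθ (e x)
    rw [omega_symm] at h5
    rw [sum_eq_L]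
    have h6 : L (Subgroup.normalizer (D : Set H)).subtype (fun k => θ ((eN e D).symm k)) (e x) =
        L (Subgroup.normalizer ((D.comap e.toMonoidHom : Subgroup G) : Set G)).subtype θ x := by
      unfold L
      simp only [map_one]
      congr 1
      refine (Fintype.sum_equiv (eN e D).toEquiv _ _ fun y => ?_).symm
      change (if IsConj x (y : G) then θ y else 0) =
        if IsConj (e x) (e y) then θ ((eN e D).symm (eN e D y)) else 0
      rw [MulEquiv.symm_apply_apply]
      simp only [isConj_e]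
    rwa [h6] at h5

theorem AMC_iso {C : (D : Type) → Group D → Prop} (hC : IsoClosed C) (e : G ≃* H)
    (h : AMC p O C G) : AMC p O C H := by
  intro D B b hB hD hb hCD
  have h1 := h (D.comap e.toMonoidHom) (pull e B) (pull (eN e D) b) (pull_block e hB)
    (pull_defect e hB.irr hD) (brauer_iso e hb) (hC D _ ⟨by
      have e1 : D ≃* D.map e.symm.toMonoidHom := D.equivMapOfInjective _ e.symm.injective
      have e2 : D.map e.symm.toMonoidHom = D.comap e.toMonoidHom := by
        ext g
        rw [Subgroup.mem_map, Subgroup.mem_comap]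
        constructor
        · rintro ⟨d, hd, rfl⟩
          change e (e.symm d) ∈ D
          rwa [MulEquiv.apply_symm_apply]
        · intro hg
          exact ⟨e g, hg, e.symm_apply_apply g⟩
      exact e1.trans (MulEquiv.subgroupCongr e2)⟩ hCD)
  rw [irr0_pull, card_pull, ← comap_eN, irr0_pull, card_pull] at h1
  exact h1

end iso

section am

variable {E A G : Type} [CommGroup E] [Group A] [Group G] [Fintype E] [Fintype A] [Fintype G]
  {φ : A →* MulAut E} {ι : G →* A} {θ : E →* ℂ} {O : ValuationSubring ℂ} {p : ℕ}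
  [hp : Fact p.Prime] {C : (D : Type) → Group D → Prop}

theorem DH_iso (h : St φ ι θ) (D : Subgroup G) : Nonempty (D ≃* DH φ ι D) :=
  ⟨D.equivMapOfInjective _ (SemidirectProduct.inr_injective.comp h.inj)⟩

/-- from `E ⋊ A` to a stabiliser -/
theorem AMC_of (hpO : (p : ℂ) ∈ O.nonunits) (hpE : ¬ p ∣ Nat.card E) (hC : IsoClosed C)
    (h : St φ ι θ) (hA : AMC p O C (E ⋊[φ] A)) : AMC p O C G := by
  intro D B b hB hD hb hCD
  have hDp : IsPGroup p D := (isDefectGroup_iff.mp hD).choose_spec.2.1
  have h1 := hA (DH φ ι D) (Hat φ ι θ B) (hatN φ ι θ D b) (Hat_block hpO hpE h hB)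
    (Hat_defect hpO hpE h hB hD) (Hat_brauer hpO hpE h hB hD hb)
    (hC D _ (DH_iso h D) hCD)
  have h2 := datH_ht0 (p := p) hpE h hB.irr D b
  have h3 := datH_ht0' (p := p) hpE h B hDp hb.1.irr
  exact h2.symm.trans (h1.trans h3)

/-- from the stabilisers to `E ⋊ A` -/
theorem AMC_to (hpO : (p : ℂ) ∈ O.nonunits) (hpE : ¬ p ∣ Nat.card E) (hC : IsoClosed C)
    (hA : ∀ θ : E →* ℂ, AMC p O C (stA φ θ)) : AMC p O C (E ⋊[φ] A) := by
  intro D' B' b' hB' hD' hb' hCD'
  obtain ⟨ξ, hξ⟩ := hB'.nonempty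
  obtain ⟨θ, χ, hχ, rfl⟩ := exists_hat (hB'.irr ξ hξ)
  have h := stA_St φ θ
  set B : Set (stA φ θ → ℂ) := {χ' | IsIrr χ' ∧ ∀ x, omega χ' x - omega χ x ∈ O.nonunits} with hBdef
  have hB : IsBlock O B := ⟨χ, hχ, rfl⟩
  have hχB : χ ∈ B := ⟨hχ, fun x => by
    rw [sub_self]
    exact (red_eq_zero_iff O.zero_mem).mp red_zero⟩
  have hBB : B' = Hat φ (stA φ θ).subtype θ B := by
    by_contra hne
    have hd := block_disjoint hB' (Hat_block hpO hpE h hB) hne
    exact Set.disjoint_left.mp hd hξ ⟨χ, hχB, rfl⟩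
  subst hBB
  obtain ⟨D, hD⟩ := exists_defect (p := p) hB
  obtain ⟨b, hb⟩ := exists_brauer hpO hB hD
  have hDp : IsPGroup p D := (isDefectGroup_iff.mp hD).choose_spec.2.1
  obtain ⟨⟨e1⟩, e2, e3⟩ := indep hpO hB' hD' (Hat_defect hpO hpE h hB hD) hb'
    (Hat_brauer hpO hpE h hB hD hb)
  obtain ⟨e4⟩ := DH_iso h D
  have hCD : C D inferInstance := hC D' _ ⟨e1.trans e4.symm⟩ hCD'
  have h1 := hA θ D B b hB hD hb hCD
  have h2 := datH_ht0 (p := p) hpE h hB.irr D b
  have h3 := datH_ht0' (p := p) hpE h B hDp hb.1.irr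
  rw [e2, e3]
  exact h2.trans (h1.trans h3.symm)

end am

end Pool.Agent.Hp21.UN
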