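import Pool.Agent.Hp21.UN.Hat

/-!
# Blocks of `E ⋊ A` above a linear character of the abelian group `E`
-/

set_option autoImplicit false
set_option linter.unusedSectionVars false

open scoped BigOperators Classical

noncomputable section

namespace Pool.Agent.Hp21.UN

open Pool.Agent.Q90.WR Pool.Agent.H254R3.IN Pool.Agent.Q259.BW Pool.Agent.Q288.MB
open Pool.Agent.N19.RB
open Pool.Agent.Helper884

section irr

variable {E A G : Type} [CommGroup E] [Group A] [Group G] [Fintype E] [Fintype A] [Fintype G]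
  {φ : A →* MulAut E} {ι : G →* A} {θ : E →* ℂ}

/-- the representation `θ ⊗ ρ` of `E ⋊ G` -/
def thRep (h : St φ ι θ) {V : Type} [AddCommGroup V] [Module ℂ V] (ρ : Representation ℂ G V) :
    Representation ℂ (E ⋊[φ.comp ι] G) V where
  toFun x := θ x.left • ρ x.right
  map_one' := by
    rw [SemidirectProduct.one_left, SemidirectProduct.one_right, map_one, map_one, one_smul]
  map_mul' x y := by
    rw [SemidirectProduct.mul_left, SemidirectProduct.mul_right, map_mul, map_mul]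
    have : θ ((φ.comp ι) x.right y.left) = θ y.left := h.fix _ _
    rw [this]
    ext v
    simp only [LinearMap.smul_apply, Module.End.mul_apply, map_smul, smul_smul]
    rw [mul_comm (θ x.left)]

/-- the embedding of `E ⋊ G` -/
def jj (φ : A →* MulAut E) (ι : G →* A) : E ⋊[φ.comp ι] G →* E ⋊[φ] A where
  toFun x := ⟨x.left, ι x.right⟩
  map_one' := by
    ext
    · rfl
    · exact map_one ι
  map_mul' x y := by
    ext
    · rfl
    · exact map_mul ι _ _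

theorem hat_virt (h : St φ ι θ) {χ : G → ℂ} (hχ : IsIrr χ) {ξ : E ⋊[φ] A → ℂ} (hξ : IsIrr ξ) :
    ∃ n : ℤ, IC.B (hat φ ι θ χ) ξ = n := by
  have hcl : IsCl ξ := fun g y => hξ.conj g y
  obtain ⟨V, _, _, _, ρ, hρ, rfl⟩ := hχ
  obtain ⟨W, _, _, _, σ, hσ, rfl⟩ := hξ
  obtain ⟨n, hn⟩ := B_nat (thRep h ρ) (σ.comp (jj φ ι))
  refine ⟨n, ?_⟩
  have e1 : IC.B (hat φ ι θ ρ.character) σ.character =
      IC.B (thRep h ρ).character (Representation.character (σ.comp (jj φ ι))) := by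
    unfold IC.B
    rw [sum_hat _ (cl_inv hcl), sum_sd, card_sd, card_sd]
    have e2 : ∀ (e : E) (g : G), (thRep h ρ).character ⟨e, g⟩ *
        Representation.character (σ.comp (jj φ ι)) ⟨e, g⟩⁻¹ =
        θ e * ρ.character g * σ.character (⟨e, ι g⟩ : E ⋊[φ] A)⁻¹ := by
      intro e g
      have e3 : (thRep h ρ).character ⟨e, g⟩ = θ e * ρ.character g := by
        change LinearMap.trace ℂ V (θ e • ρ g) = θ e * LinearMap.trace ℂ V (ρ g)
        rw [map_smul, smul_eq_mul]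
      have e4 : Representation.character (σ.comp (jj φ ι)) ⟨e, g⟩⁻¹ =
          σ.character (⟨e, ι g⟩ : E ⋊[φ] A)⁻¹ := by
        change LinearMap.trace ℂ W (σ (jj φ ι ⟨e, g⟩⁻¹)) = _
        rw [map_inv]
        rfl
      rw [e3, e4]
    rw [Finset.sum_congr rfl fun e _ => Finset.sum_congr rfl fun g _ => e2 e g]
    have c1 := cG (G := G)
    have c2 := cG (G := E)
    have c3 := cG (G := A)
    push_cast
    field_simp
  rw [e1, hn]
  push_cast
  rfl

theorem hat_irr (h : St φ ι θ) {χ : G → ℂ} (hχ : IsIrr χ) : IsIrr (hat φ ι θ χ) := by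
  apply irr_of_norm (hat_cl h χ)
  · intro ξ hξ
    exact hat_virt h hχ hξ
  · rw [B_hat h χ fun g y => hχ.conj g y, IC.B_irr hχ hχ, if_pos rfl]
  · obtain ⟨d, _, hd⟩ := hχ.deg
    refine ⟨(Nat.card A / Nat.card G) * d, ?_⟩
    rw [hat_one h, ← hd]
    have h1 : Nat.card G ∣ Nat.card A := Subgroup.card_dvd_of_injective ι h.inj
    obtain ⟨c, hc⟩ := h1
    rw [hc, Nat.mul_div_cancel_left _ Nat.card_pos]
    have c1 := cG (G := G)
    push_cast
    field_simp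

/-- the characters above `θ` and the characters in `B` -/
def Hat (φ : A →* MulAut E) (ι : G →* A) (θ : E →* ℂ) (B : Set (G → ℂ)) :
    Set (E ⋊[φ] A → ℂ) := {ξ | ∃ χ ∈ B, ξ = hat φ ι θ χ}

theorem Hat_irr (h : St φ ι θ) {B : Set (G → ℂ)} (hB : ∀ χ ∈ B, IsIrr χ) :
    ∀ ξ ∈ Hat φ ι θ B, IsIrr ξ := by
  rintro ξ ⟨χ, hχ, rfl⟩
  exact hat_irr h (hB χ hχ)

theorem hat_inj (h : St φ ι θ) {χ ψ : G → ℂ} (hχ : IsIrr χ) (hψ : IsIrr ψ)
    (he : hat φ ι θ χ = hat φ ι θ ψ) : χ = ψ := by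
  have h1 := B_hat h χ fun g y => hψ.conj g y
  rw [← he, B_hat h χ fun g y => hχ.conj g y, IC.B_irr hχ hχ, IC.B_irr hχ hψ, if_pos rfl] at h1
  by_contra hne
  rw [if_neg hne] at h1
  exact one_ne_zero h1

theorem card_Hat (h : St φ ι θ) {B : Set (G → ℂ)} (hB : ∀ χ ∈ B, IsIrr χ) :
    Nat.card (Hat φ ι θ B) = Nat.card B := by
  refine (Nat.card_congr (Equiv.ofBijective
    (fun t : B => (⟨hat φ ι θ t.1, t.1, t.2, rfl⟩ : Hat φ ι θ B)) ⟨?_, ?_⟩)).symm
  · rintro ⟨χ, h1⟩ ⟨ψ, h2⟩ he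
    exact Subtype.ext (hat_inj h (hB _ h1) (hB _ h2) (congrArg Subtype.val he))
  · rintro ⟨ξ, χ, h1, rfl⟩
    exact ⟨⟨χ, h1⟩, rfl⟩

/-- `∑_m θ m` over the `m` with `(m, g)` conjugate to `x` -/
def cf (φ : A →* MulAut E) (ι : G →* A) (θ : E →* ℂ) (x : E ⋊[φ] A) (g : G) : ℂ :=
  ∑ m : E, if IsConj x ⟨m, ι g⟩ then θ m else 0

theorem isConj_inr {x : E ⋊[φ] A} (m : E) (a s : A) :
    IsConj x ⟨φ s m, s * a * s⁻¹⟩ ↔ IsConj x ⟨m, a⟩ := by
  have h1 : IsConj (⟨m, a⟩ : E ⋊[φ] A) ⟨φ s m, s * a * s⁻¹⟩ := by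
    rw [isConj_iff]
    refine ⟨SemidirectProduct.inr s, ?_⟩
    ext
    · simp
    · simp
  exact ⟨fun h => h.trans h1.symm, fun h => h.trans h1⟩

theorem cf_cl (h : St φ ι θ) (x : E ⋊[φ] A) : IsCl (cf φ ι θ x) := by
  intro g y
  unfold cf
  refine (Fintype.sum_equiv (φ (ι y)).toEquiv _ _ fun m => ?_).symm
  change _ = if IsConj x ⟨φ (ι y) m, ι (y * g * y⁻¹)⟩ then θ (φ (ι y) m) else 0
  rw [h.fix, map_mul, map_mul, map_inv]
  simp only [isConj_inr]

theorem sum_cf (u : G → ℂ) (x : E ⋊[φ] A) :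
    ∑ e, ∑ g, θ e * u g * ind x (⟨e, ι g⟩ : E ⋊[φ] A) = ∑ g, cf φ ι θ x g * u g := by
  rw [Finset.sum_comm]
  refine Finset.sum_congr rfl fun g _ => ?_
  unfold cf
  rw [Finset.sum_mul]
  refine Finset.sum_congr rfl fun e _ => ?_
  unfold ind
  split_ifs
  · ring
  · ring

/-- the central character of an induced character -/
theorem omega_hat (h : St φ ι θ) {χ : G → ℂ} (hχ : IsIrr χ) (x : E ⋊[φ] A) :
    omega (hat φ ι θ χ) x = Om (cf φ ι θ x) χ := by
  rw [← Om_ind (hat_irr h hχ)]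
  unfold Om
  have e1 : ∑ g, ind x g * hat φ ι θ χ g = ∑ g, hat φ ι θ χ g * ind x g :=
    Finset.sum_congr rfl fun g _ => mul_comm _ _
  rw [e1, sum_hat _ (ind_cl x), hat_one h, sum_cf]
  have c1 := cG (G := G)
  have c3 := cG (G := A)
  have c4 := hχ.one_ne
  field_simp

end irr

section mem

variable {E A G : Type} [CommGroup E] [Group A] [Group G] [Fintype E] [Fintype A] [Fintype G]
  {φ : A →* MulAut E} {ι : G →* A} {θ : E →* ℂ} {O : ValuationSubring ℂ} {p : ℕ}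

theorem th_mem (O : ValuationSubring ℂ) (θ : E →* ℂ) (e : E) : θ e ∈ O := by
  apply mem_of_isIntegral
  refine ⟨Polynomial.X ^ Nat.card E - Polynomial.C 1, Polynomial.monic_X_pow_sub_C _
    Nat.card_pos.ne', ?_⟩
  have h1 : θ e ^ Nat.card E = 1 := by
    rw [← map_pow, pow_card_eq_one', map_one]
  rw [Polynomial.eval₂_sub, Polynomial.eval₂_X_pow, Polynomial.eval₂_C, map_one, h1, sub_self]

theorem cf_mem (O : ValuationSubring ℂ) (x : E ⋊[φ] A) (g : G) : cf φ ι θ x g ∈ O := by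
  unfold cf
  refine sum_mem' _ _ fun m _ => ?_
  split_ifs
  · exact th_mem O θ m
  · exact O.zero_mem

theorem term_mem {u : G → ℂ} (hu : ∀ g, u g ∈ O) (x : E ⋊[φ] A) (s : A) :
    term φ ι θ u x s ∈ O := by
  unfold term
  refine sum_mem' _ _ fun m _ => ?_
  split_ifs
  · exact O.mul_mem _ _ (th_mem O θ _) (hu _)
  · exact O.zero_mem

/-- a sum over a group of a function which is invariant under a subgroup -/
theorem sum_coset {K : Subgroup A} (f : A → ℂ) (hf : ∀ s, ∀ k ∈ K, f (s * k) = f s) :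
    ∑ s, f s = Nat.card K * ∑ q : A ⧸ K, f q.out := by
  have h1 : ∑ t, f t = ∑ y : (A ⧸ K) × K, f y.1.out := by
    refine Fintype.sum_equiv (Subgroup.groupEquivQuotientProdSubgroup (s := K)) _ _ fun t => ?_
    set y := Subgroup.groupEquivQuotientProdSubgroup (s := K) t with hy
    have h2 : (Subgroup.groupEquivQuotientProdSubgroup (s := K) t).1 =
      (QuotientGroup.mk t : A ⧸ K) := rfl
    have h3 : (y.1.out)⁻¹ * t ∈ K := by
      rw [← QuotientGroup.eq, QuotientGroup.out_eq']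
      exact h2
    have h4 := hf y.1.out _ h3
    rw [mul_inv_cancel_left] at h4
    exact h4
  rw [h1, Fintype.sum_prod_type]
  simp only [Finset.sum_const, nsmul_eq_mul, Finset.card_univ]
  rw [← Finset.mul_sum, Nat.card_eq_fintype_card]

theorem hat_quot (h : St φ ι θ) {u : G → ℂ} (hu : IsCl u) (x : E ⋊[φ] A) :
    hat φ ι θ u x = ∑ q : A ⧸ ι.range, term φ ι θ u x q.out := by
  unfold hat
  rw [sum_coset (K := ι.range) _ (by
    rintro s k ⟨g, rfl⟩
    exact term_mul h hu x s g)]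
  have h1 : Nat.card ι.range = Nat.card G :=
    (Nat.card_congr (MonoidHom.ofInjective h.inj).toEquiv).symm
  rw [h1, ← mul_assoc, inv_mul_cancel₀ (cG (G := G)), one_mul]
  refine Finset.sum_congr ?_ fun _ _ => rfl
  ext
  simp only [Finset.mem_univ]

theorem hat_mem (h : St φ ι θ) {u : G → ℂ} (hu : IsCl u) (hO : ∀ g, u g ∈ O) (x : E ⋊[φ] A) :
    hat φ ι θ u x ∈ O := by
  rw [hat_quot h hu]
  exact sum_mem' _ _ fun q _ => term_mem hO x _

theorem hat_smul (c : ℂ) (u : G → ℂ) (x : E ⋊[φ] A) :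
    hat φ ι θ (fun g => c * u g) x = c * hat φ ι θ u x := by
  have h1 : ∀ s, term φ ι θ (fun g => c * u g) x s = c * term φ ι θ u x s := by
    intro s
    unfold term
    rw [Finset.mul_sum]
    refine Finset.sum_congr rfl fun g _ => ?_
    split_ifs
    · ring
    · ring
  unfold hat
  rw [Finset.sum_congr rfl fun s _ => h1 s, ← Finset.mul_sum]
  ring

theorem hat_sum {κ : Type} (S : Finset κ) (u : κ → G → ℂ) (x : E ⋊[φ] A) :
    hat φ ι θ (fun g => ∑ i ∈ S, u i g) x = ∑ i ∈ S, hat φ ι θ (u i) x := by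
  unfold hat
  rw [← Finset.mul_sum]
  congr 1
  rw [Finset.sum_comm]
  refine Finset.sum_congr rfl fun s _ => ?_
  unfold term
  rw [Finset.sum_comm]
  refine Finset.sum_congr rfl fun g _ => ?_
  split_ifs
  · rw [Finset.mul_sum]
  · rw [Finset.sum_const_zero]

/-- the block idempotent -/
theorem coeff_Hat (h : St φ ι θ) {B : Set (G → ℂ)} (hB : ∀ χ ∈ B, IsIrr χ) (x : E ⋊[φ] A) :
    blockCoeff (Hat φ ι θ B) x = (Nat.card E : ℂ)⁻¹ * hat φ ι (thi θ) (blockCoeff B) x := by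
  rw [blockCoeff_eq (Hat_irr h hB)]
  have h1 : (IC.Irr (E ⋊[φ] A)).filter (· ∈ Hat φ ι θ B) =
      ((IC.Irr G).filter (· ∈ B)).image (hat φ ι θ) := by
    ext ξ
    rw [Finset.mem_filter, Finset.mem_image]
    constructor
    · rintro ⟨-, χ, hχ, rfl⟩
      exact ⟨χ, Finset.mem_filter.mpr ⟨IC.mem_Irr.mpr (hB _ hχ), hχ⟩, rfl⟩
    · rintro ⟨χ, hχ, rfl⟩
      have := (Finset.mem_filter.mp hχ).2
      exact ⟨IC.mem_Irr.mpr (hat_irr h (hB _ this)), χ, this, rfl⟩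
  rw [h1, Finset.sum_image (fun χ hχ ψ hψ he => hat_inj h (hB _ (Finset.mem_filter.mp hχ).2)
    (hB _ (Finset.mem_filter.mp hψ).2) he), card_sd]
  have h2 : blockCoeff B = fun g => (Nat.card G : ℂ)⁻¹ *
      ∑ χ ∈ (IC.Irr G).filter (· ∈ B), χ 1 * χ g⁻¹ := funext fun g => blockCoeff_eq hB g
  rw [h2, hat_smul, hat_sum]
  have h3 : ∀ χ ∈ (IC.Irr G).filter (· ∈ B), hat φ ι θ χ 1 * hat φ ι θ χ x⁻¹ =
      (Nat.card G : ℂ)⁻¹ * Nat.card A * hat φ ι (thi θ) (fun g => χ 1 * χ g⁻¹) x := by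
    intro χ _
    rw [hat_one h, hat_inv h, hat_smul]
    ring
  rw [Finset.sum_congr rfl h3, ← Finset.mul_sum]
  have c1 := cG (G := G)
  have c2 := cG (G := E)
  have c3 := cG (G := A)
  push_cast
  field_simp

theorem coeff_Hat_mem [hp : Fact p.Prime] (hpO : (p : ℂ) ∈ O.nonunits) (hpE : ¬ p ∣ Nat.card E)
    (h : St φ ι θ) {B : Set (G → ℂ)} (hB : IsBlock O B) (x : E ⋊[φ] A) :
    blockCoeff (Hat φ ι θ B) x ∈ O := by
  rw [coeff_Hat h hB.irr]
  exact O.mul_mem _ _ (nat_inv_mem hpO hpE) (hat_mem h.inv (blockCoeff_cl hB.irr)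
    (blockCoeff_mem hB) x)

/-- the residue of the central character of `Hat B` -/
def lamH (φ : A →* MulAut E) (ι : G →* A) (θ : E →* ℂ) (lam : G → RF O) (x : E ⋊[φ] A) : RF O :=
  ∑ K : ConjClasses G, red O (cf φ ι θ x (rep K)) * lam (rep K)

theorem red_hat (h : St φ ι θ) {χ : G → ℂ} (hχ : IsIrr χ) {lam : G → RF O}
    (hl : ∀ g, red O (omega χ g) = lam g) (x : E ⋊[φ] A) :
    red O (omega (hat φ ι θ χ) x) = lamH φ ι θ lam x := by
  rw [omega_hat h hχ, (red_Om hχ (cf_cl h x) (cf_mem O x)).2]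
  unfold lamH
  refine Finset.sum_congr rfl fun K _ => ?_
  rw [hl]

theorem Hat_block [hp : Fact p.Prime] (hpO : (p : ℂ) ∈ O.nonunits) (hpE : ¬ p ∣ Nat.card E)
    (h : St φ ι θ) {B : Set (G → ℂ)} (hB : IsBlock O B) : IsBlock O (Hat φ ι θ B) := by
  obtain ⟨χ₀, t0⟩ := hB.nonempty
  obtain ⟨lam, l1⟩ := lam_spec hB
  have hirr := Hat_irr h hB.irr
  have h0 : hat φ ι θ χ₀ ∈ Hat φ ι θ B := ⟨χ₀, t0, rfl⟩
  have hP : ∀ ξ ∈ Hat φ ι θ B, ∀ x, red O (omega ξ x) = lamH φ ι θ lam x := by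
    rintro ξ ⟨χ, hχ, rfl⟩ x
    exact red_hat h (hB.irr χ hχ) (fun g => (l1 χ hχ g).2.1) x
  refine ⟨hat φ ι θ χ₀, hirr _ h0, Set.Subset.antisymm ?_ ?_⟩
  · intro ξ hξ
    refine ⟨hirr ξ hξ, fun x => ?_⟩
    rw [← red_eq_iff ((hirr ξ hξ).omega_mem O x) ((hirr _ h0).omega_mem O x), hP ξ hξ, hP _ h0]
  · rintro ξ ⟨hξ, hx⟩
    by_contra hnot
    have hcl := blockCoeff_cl hirr
    have hO := coeff_Hat_mem (φ := φ) (ι := ι) (θ := θ) hpO hpE h hB
    have e1 := (red_Om hξ hcl hO).2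
    have e2 := (red_Om (hirr _ h0) hcl hO).2
    rw [Om_blockCoeff hirr hξ, if_neg hnot, red_zero] at e1
    rw [Om_blockCoeff hirr (hirr _ h0), if_pos h0, red_one] at e2
    have e3 : ∀ C : ConjClasses (E ⋊[φ] A), red O (omega ξ (rep C)) =
        red O (omega (hat φ ι θ χ₀) (rep C)) := fun C =>
      (red_eq_iff (hξ.omega_mem O _) ((hirr _ h0).omega_mem O _)).mpr (hx _)
    rw [Finset.sum_congr rfl fun C _ => by rw [e3 C], ← e2] at e1
    exact zero_ne_one e1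

end mem

end Pool.Agent.Hp21.UN
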