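import Pool.Agent.Hp21.UN.Loc

/-!
# Brauer correspondents of the blocks of `E ⋊ A` above a linear character of `E`
-/

set_option autoImplicit false
set_option linter.unusedSectionVars false
set_option linter.style.haveILetI false

open scoped BigOperators Classical

noncomputable section

namespace Pool.Agent.Hp21.UN

open Pool.Agent.Q90.WR Pool.Agent.H254R3.IN Pool.Agent.Q259.BW Pool.Agent.Q288.MB
open Pool.Agent.N19.RB
open Pool.Agent.Helper884

section br

variable {E A G : Type} [CommGroup E] [Group A] [Group G] [Fintype E] [Fintype A] [Fintype G]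
  {φ : A →* MulAut E} {ι : G →* A} {θ : E →* ℂ} {O : ValuationSubring ℂ} {p : ℕ}
  [hp : Fact p.Prime]

/-- a sum over a subgroup by classes of the group -/
theorem sum_L_classes {N : Subgroup G} {F : G → ℂ} (hF : IsCl F) (ψ : N → ℂ) :
    (∑ y : N, F y * ψ y) / ψ 1 = ∑ K : ConjClasses G, F (rep K) * L N.subtype ψ (rep K) := by
  have h1 : ∀ K : ConjClasses G, F (rep K) * L N.subtype ψ (rep K) =
      (∑ y : N, if IsConj (rep K) (y : G) then F y * ψ y else 0) / ψ 1 := by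
    intro K
    unfold L
    rw [mul_div_assoc', Finset.mul_sum]
    congr 1
    refine Finset.sum_congr rfl fun y _ => ?_
    change F (rep K) * (if IsConj (rep K) (y : G) then ψ y else 0) = _
    split_ifs with h
    · rw [hF.isConj h]
    · rw [mul_zero]
  rw [Finset.sum_congr rfl fun K _ => h1 K, ← Finset.sum_div, Finset.sum_comm]
  congr 1
  refine Finset.sum_congr rfl fun y _ => ?_
  rw [Finset.sum_eq_single (ConjClasses.mk (y : G))]
  · rw [if_pos (rep_mk _)]
  · intro K _ hK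
    rw [if_neg]
    intro h
    exact hK ((mk_eq_iff _ _).mpr h).symm
  · intro h
    exact absurd (Finset.mem_univ _) h

/-- the embedding of the normalizer -/
def nj (φ : A →* MulAut E) (ι : G →* A) (D : Subgroup G) :
    EC φ ι D ⋊[phN φ ι D] AN ι D →* E ⋊[φ] A :=
  (Subgroup.normalizer (DH φ ι D : Set (E ⋊[φ] A))).subtype.comp (nIso φ ι D).symm.toMonoidHom

theorem nj_apply {D : Subgroup G} (z : EC φ ι D ⋊[phN φ ι D] AN ι D) :
    nj φ ι D z = ⟨z.left, z.right⟩ := rfl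

/-- the local version of `cf` -/
def cfN (φ : A →* MulAut E) (ι : G →* A) (θ : E →* ℂ) (D : Subgroup G) (x : E ⋊[φ] A)
    (g : GN D) : ℂ :=
  ∑ m : EC φ ι D, if IsConj x ⟨m, ι g⟩ then θ m else 0

theorem ind_nj_cl (D : Subgroup G) (x : E ⋊[φ] A) :
    IsCl fun z : EC φ ι D ⋊[phN φ ι D] AN ι D => ind x (nj φ ι D z) := by
  intro z y
  simp only [map_mul, map_inv]
  exact ind_cl x _ _

theorem L_nj (hpE : ¬ p ∣ Nat.card E) (h : St φ ι θ) {D : Subgroup G} (hD : IsPGroup p D)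
    {χ : GN D → ℂ} (hχ : χ 1 ≠ 0) (x : E ⋊[φ] A) :
    L (nj φ ι D) (hat (phN φ ι D) (iN ι D) (thN φ ι θ D) χ) x = Om (cfN φ ι θ D x) χ := by
  unfold L Om
  have e1 : ∑ z, (if IsConj x (nj φ ι D z) then
      hat (phN φ ι D) (iN ι D) (thN φ ι θ D) χ z else 0) =
      ∑ z, hat (phN φ ι D) (iN ι D) (thN φ ι θ D) χ z * ind x (nj φ ι D z) := by
    refine Finset.sum_congr rfl fun z _ => ?_
    unfold ind
    split_ifs
    · rw [mul_one]
    · rw [mul_zero]
  rw [e1, sum_hat χ (ind_nj_cl D x), hat_one (h.loc hpE hD)]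
  have e2 : ∑ e : EC φ ι D, ∑ g : GN D, thN φ ι θ D e * χ g *
      ind x (nj φ ι D ⟨e, iN ι D g⟩) = ∑ g, cfN φ ι θ D x g * χ g := by
    rw [Finset.sum_comm]
    refine Finset.sum_congr rfl fun g _ => ?_
    unfold cfN
    rw [Finset.sum_mul]
    refine Finset.sum_congr rfl fun e _ => ?_
    have e3 : nj φ ι D ⟨e, iN ι D g⟩ = ⟨e, ι g⟩ := rfl
    rw [e3, thN_apply]
    unfold ind
    split_ifs
    · ring
    · ring
  rw [e2]
  have c1 := cG (G := GN D)
  have c3 := cG (G := AN ι D)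
  field_simp

theorem cfN_cl (h : St φ ι θ) (D : Subgroup G) (x : E ⋊[φ] A) : IsCl (cfN φ ι θ D x) := by
  intro g y
  unfold cfN
  refine (Fintype.sum_equiv (phN φ ι D (iN ι D y)).toEquiv _ _ fun m => ?_).symm
  have e1 : ι ((y * g * y⁻¹ : GN D) : G) = ι y * ι g * (ι y)⁻¹ := by
    rw [Subgroup.coe_mul, Subgroup.coe_mul, Subgroup.coe_inv, map_mul, map_mul, map_inv]
  change _ = if IsConj x ⟨φ (ι y) m, ι ((y * g * y⁻¹ : GN D) : G)⟩ then θ (φ (ι y) m) else 0
  rw [h.fix, e1]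
  simp only [isConj_inr]

theorem cfN_mem (O : ValuationSubring ℂ) (D : Subgroup G) (x : E ⋊[φ] A) (g : GN D) :
    cfN φ ι θ D x g ∈ O := by
  unfold cfN
  refine sum_mem' _ _ fun m _ => ?_
  split_ifs
  · exact th_mem O θ m
  · exact O.zero_mem

theorem red_cfN (hpO : (p : ℂ) ∈ O.nonunits) (h : St φ ι θ) {D : Subgroup G} (hD : IsPGroup p D)
    {g : GN D} (hg : ∀ d ∈ D, d * g = g * d) (x : E ⋊[φ] A) :
    red O (cf φ ι θ x g) = red O (cfN φ ι θ D x g) := by
  have hm : ∀ m : E, (if IsConj x ⟨m, ι g⟩ then θ m else 0) ∈ O := by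
    intro m
    split_ifs
    · exact th_mem O θ m
    · exact O.zero_mem
  rw [red_cf hpO h hD hg]
  unfold cfN
  have e := red_sum (O := O) Finset.univ
    (fun m : EC φ ι D => if IsConj x ⟨m, ι g⟩ then θ m else 0) (fun m _ => hm m)
  rw [e]
  exact Finset.sum_subtype (p := fun m => m ∈ EC φ ι D) _ (fun m => by
    simp only [Finset.mem_filter, Finset.mem_univ, true_and]
    exact Iff.rfl) fun m => red O (if IsConj x ⟨m, ι g⟩ then θ m else 0)

/-- the Brauer correspondent -/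
def hatN (φ : A →* MulAut E) (ι : G →* A) (θ : E →* ℂ) (D : Subgroup G) (b : Set (GN D → ℂ)) :
    Set (Subgroup.normalizer (DH φ ι D : Set (E ⋊[φ] A)) → ℂ) :=
  pull (nIso φ ι D) (Hat (phN φ ι D) (iN ι D) (thN φ ι θ D) b)

theorem card_EC (hpE : ¬ p ∣ Nat.card E) (D : Subgroup G) : ¬ p ∣ Nat.card (EC φ ι D) :=
  fun h => hpE (h.trans (Subgroup.card_subgroup_dvd_card _))

theorem Hat_brauer (hpO : (p : ℂ) ∈ O.nonunits) (hpE : ¬ p ∣ Nat.card E) (h : St φ ι θ)
    {B : Set (G → ℂ)} (hB : IsBlock O B) {D : Subgroup G} (hD : IsDefectGroup p O B D)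
    {b : Set (GN D → ℂ)} (hb : IsBrauerCorrespondent p O D B b) :
    IsBrauerCorrespondent p O (DH φ ι D) (Hat φ ι θ B) (hatN φ ι θ D b) := by
  have hDp : IsPGroup p D := (isDefectGroup_iff.mp hD).choose_spec.2.1
  obtain ⟨hbB, hbD, hbc⟩ := hb
  have hloc := h.loc hpE hDp
  have hpE' := card_EC (φ := φ) (ι := ι) hpE D
  refine ⟨pull_block _ (Hat_block hpO hpE' hloc hbB), ?_, ?_⟩
  · have h1 := pull_defect (nIso φ ι D) (Hat_irr hloc hbB.irr) (Hat_defect hpO hpE' hloc hbB hbD)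
    rw [comap_nIso] at h1
    exact h1
  · intro ξ hξ η hη x
    obtain ⟨χ, hχ, rfl⟩ := hξ
    obtain ⟨ψ, hψ, hη'⟩ : ∃ ψ ∈ b, (fun k => η ((nIso φ ι D).symm k)) =
        hat (phN φ ι D) (iN ι D) (thN φ ι θ D) ψ := hη
    have hχi := hB.irr χ hχ
    have hψi := hbB.irr ψ hψ
    have e1 : L (Subgroup.normalizer (DH φ ι D : Set (E ⋊[φ] A))).subtype η x =
        Om (cfN φ ι θ D x) ψ := by
      rw [← L_nj hpE h hDp hψi.one_ne, ← hη']
      unfold L
      simp only [map_one]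
      congr 1
      exact Fintype.sum_equiv (nIso φ ι D).toEquiv _ _ fun w => by
        simp only [MulEquiv.toEquiv_eq_coe, MulEquiv.coe_toEquiv, MulEquiv.symm_apply_apply]
        rfl
    rw [sum_eq_L, e1]
    -- the global side
    have hL : ∀ g : G, L (GN D).subtype ψ g ∈ O ∧ red O (omega χ g) = red O (L (GN D).subtype ψ g) := by
      intro g
      have h1 := hbc χ hχ ψ hψ g
      rw [sum_eq_L] at h1
      exact red_congr (hχi.omega_mem O g) h1
    have hcf := cf_cl h x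
    have hcO := cf_mem (φ := φ) (ι := ι) (θ := θ) O x
    have h2 := (red_hat h hχi (lam := fun g => red O (L (GN D).subtype ψ g))
      (fun g => (hL g).2) x)
    have h3 : Om (fun y : GN D => cf φ ι θ x y) ψ ∈ O ∧
        red O (Om (fun y : GN D => cf φ ι θ x y) ψ) =
        lamH φ ι θ (fun g => red O (L (GN D).subtype ψ g)) x := by
      unfold Om lamH
      rw [sum_L_classes hcf ψ]
      have hm : ∀ K ∈ (Finset.univ : Finset (ConjClasses G)),
          cf φ ι θ x (rep K) * L (GN D).subtype ψ (rep K) ∈ O :=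
        fun K _ => O.mul_mem _ _ (hcO _) (hL _).1
      refine ⟨sum_mem' _ _ hm, ?_⟩
      rw [red_sum _ _ hm]
      exact Finset.sum_congr rfl fun K _ => red_mul (hcO _) (hL _).1
    -- the comparison
    have hcl1 : IsCl fun y : GN D => cf φ ι θ x y := fun g y => hcf g y
    have h4 := red_Om hψi hcl1 (fun g => hcO g)
    have h5 := red_Om hψi (cfN_cl h D x) (cfN_mem O D x)
    have hDn : IsPGroup p (D.subgroupOf (GN D)) := hDp.comap_subtype
    have h6 : red O (Om (fun y : GN D => cf φ ι θ x y) ψ) = red O (Om (cfN φ ι θ D x) ψ) := by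
      rw [h4.2, h5.2]
      refine Finset.sum_congr rfl fun K _ => ?_
      by_cases hK : rep K ∈ Subgroup.centralizer ((D.subgroupOf (GN D) : Subgroup (GN D)) :
          Set (GN D))
      · rw [red_cfN hpO h hDp]
        intro d hd
        have h7 := Subgroup.mem_centralizer_iff.mp hK ⟨d, Subgroup.le_normalizer hd⟩
          (Subgroup.mem_subgroupOf.mpr hd)
        exact congrArg Subtype.val h7
      · rw [lam_zero hpO hDn hψi hK, mul_zero, mul_zero]
    rw [← red_eq_iff ((hat_irr h hχi).omega_mem O x) h5.1, h2, ← h3.2, h6]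

/-- the data for `E ⋊ A` -/
def datH (φ : A →* MulAut E) (ι : G →* A) (θ : E →* ℂ) (D : Subgroup G) (B : Set (G → ℂ))
    (b : Set (GN D → ℂ)) : Dat where
  G := E ⋊[φ] A
  D := DH φ ι D
  B := Hat φ ι θ B
  b := hatN φ ι θ D b

theorem datH_brauer (hpO : (p : ℂ) ∈ O.nonunits) (hpE : ¬ p ∣ Nat.card E) (h : St φ ι θ)
    {B : Set (G → ℂ)} (hB : IsBlock O B) {D : Subgroup G} (hD : IsDefectGroup p O B D)
    {b : Set (GN D → ℂ)} (hb : IsBrauerCorrespondent p O D B b) :
    (datH φ ι θ D B b).IsBrauer p O :=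
  ⟨inferInstanceAs (Finite (E ⋊[φ] A)), Hat_block hpO hpE h hB, Hat_defect hpO hpE h hB hD,
    Hat_brauer hpO hpE h hB hD hb⟩

theorem datH_ht0 (hpE : ¬ p ∣ Nat.card E) (h : St φ ι θ)
    {B : Set (G → ℂ)} (hB : ∀ χ ∈ B, IsIrr χ) (D : Subgroup G) (b : Set (GN D → ℂ)) :
    Nat.card ((datH φ ι θ D B b).ht0 p) = Nat.card (Irr0 p D B) := by
  have h1 : (datH φ ι θ D B b).ht0 p = Hat φ ι θ (Irr0 p D B) := irr0_Hat hpE h hB D
  rw [h1]
  exact card_Hat h fun χ hχ => hB χ hχ.1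

theorem datH_ht0' (hpE : ¬ p ∣ Nat.card E) (h : St φ ι θ) (B : Set (G → ℂ)) {D : Subgroup G}
    (hD : IsPGroup p D) {b : Set (GN D → ℂ)} (hb : ∀ χ ∈ b, IsIrr χ) :
    Nat.card ((datH φ ι θ D B b).ht0' p) = Nat.card (Irr0 p (D.subgroupOf (GN D)) b) := by
  have hloc := h.loc hpE hD
  have hpE' := card_EC (φ := φ) (ι := ι) hpE D
  have h1 := irr0_pull (nIso φ ι D) (p := p) (DH (phN φ ι D) (iN ι D) (D.subgroupOf (GN D)))
    (Hat (phN φ ι D) (iN ι D) (thN φ ι θ D) b)
  rw [comap_nIso, irr0_Hat hpE' hloc hb] at h1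
  have h2 : Nat.card (Irr0 p ((DH φ ι D).subgroupOf
      (Subgroup.normalizer (DH φ ι D : Set (E ⋊[φ] A)))) (hatN φ ι θ D b)) =
      Nat.card (Irr0 p (D.subgroupOf (GN D)) b) := by
    unfold hatN
    rw [h1, card_pull]
    exact card_Hat hloc fun χ hχ => hb χ hχ.1
  exact h2

end br

end Pool.Agent.Hp21.UN
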