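import Pool.Agent.Hp21.UN.Blk

/-!
# Defect groups of the blocks of `E ⋊ A` above a linear character of the abelian group `E`
-/

set_option autoImplicit false
set_option linter.unusedSectionVars false
set_option linter.style.haveILetI false

open scoped BigOperators Classical

noncomputable section

namespace Pool.Agent.Hp21.UN

open Pool.Agent.Q90.WR Pool.Agent.H254R3.IN Pool.Agent.Q259.BW Pool.Agent.Q288.MB
open Pool.Agent.N19.RB
open Pool.Agent.Helper884

section dh

variable {E A G : Type} [CommGroup E] [Group A] [Group G] {φ : A →* MulAut E} {ι : G →* A}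

/-- the subgroup of `E ⋊ A` given by a subgroup of `G` -/
def DH (φ : A →* MulAut E) (ι : G →* A) (D : Subgroup G) : Subgroup (E ⋊[φ] A) :=
  D.map ((SemidirectProduct.inr : A →* E ⋊[φ] A).comp ι)

theorem mem_DH {D : Subgroup G} {x : E ⋊[φ] A} :
    x ∈ DH φ ι D ↔ x.left = 1 ∧ ∃ d ∈ D, ι d = x.right := by
  unfold DH
  rw [Subgroup.mem_map]
  constructor
  · rintro ⟨d, hd, rfl⟩
    exact ⟨rfl, d, hd, rfl⟩
  · rintro ⟨h1, d, hd, h2⟩
    refine ⟨d, hd, ?_⟩
    ext
    · exact h1.symm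
    · exact h2

end dh

section dft

variable {E A G : Type} [CommGroup E] [Group A] [Group G] [Fintype E] [Fintype A] [Fintype G]
  {φ : A →* MulAut E} {ι : G →* A} {θ : E →* ℂ} {O : ValuationSubring ℂ} {p : ℕ}
  [hp : Fact p.Prime]

theorem card_DH (h : St φ ι θ) (D : Subgroup G) : Nat.card (DH φ ι D) = Nat.card D :=
  Subgroup.card_map_of_injective (SemidirectProduct.inr_injective.comp h.inj)

theorem red_cf (hpO : (p : ℂ) ∈ O.nonunits) (h : St φ ι θ) {D : Subgroup G} (hD : IsPGroup p D)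
    {k : G} (hk : ∀ d ∈ D, d * k = k * d) (x : E ⋊[φ] A) :
    red O (cf φ ι θ x k) = ∑ m ∈ Finset.univ.filter (fun m => ∀ d ∈ D, φ (ι d) m = m),
      red O (if IsConj x ⟨m, ι k⟩ then θ m else 0) := by
  haveI := charP_RF hpO
  letI : MulAction D E := MulAction.compHom E ((φ.comp ι).comp D.subtype)
  have hm : ∀ m : E, (if IsConj x ⟨m, ι k⟩ then θ m else 0) ∈ O := by
    intro m
    split_ifs
    · exact th_mem O θ m
    · exact O.zero_mem
  have h1 := sum_fixed hD (X := E) (F := RF O)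
    (fun a => by rw [← Nat.cast_smul_eq_nsmul (RF O), CharP.cast_eq_zero, zero_smul])
    (fun m => red O (if IsConj x ⟨m, ι k⟩ then θ m else 0)) (by
      intro d m
      change red O (if IsConj x ⟨φ (ι d) m, ι k⟩ then θ (φ (ι d) m) else 0) = _
      have e1 : ι k = ι d * ι k * (ι d)⁻¹ := by
        rw [← map_mul, hk d d.2, map_mul, mul_inv_cancel_right]
      have e2 : IsConj x ⟨φ (ι d) m, ι k⟩ ↔ IsConj x ⟨m, ι k⟩ := by
        conv_lhs => rw [e1]
        exact isConj_inr _ _ _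
      rw [h.fix]
      simp only [e2])
  unfold cf
  rw [red_sum _ _ fun m _ => hm m, h1]
  apply Finset.sum_congr _ (fun _ _ => rfl)
  ext m
  simp only [Finset.mem_filter, Finset.mem_univ, true_and]
  constructor
  · intro h2 d hd
    exact h2 ⟨d, hd⟩
  · intro h2 d
    exact h2 d d.2

theorem term_cent (h : St φ ι θ) (u : G → ℂ) {x y : E ⋊[φ] A} (hy : y * x = x * y) (s : A) :
    term φ ι θ u x (y.right * s) = term φ ι θ u x s := by
  have h1 := term_conj h u x y s
  rwa [hy, mul_inv_cancel_right] at h1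

theorem term_out (h : St φ ι θ) {u : G → ℂ} (hu : IsCl u) (x : E ⋊[φ] A) {q : A ⧸ ι.range} {t : A}
    (ht : (QuotientGroup.mk t : A ⧸ ι.range) = q) :
    term φ ι θ u x q.out = term φ ι θ u x t := by
  have h1 : (q.out)⁻¹ * t ∈ ι.range := by
    rw [← QuotientGroup.eq, QuotientGroup.out_eq']
    exact ht.symm
  obtain ⟨k, hk⟩ := h1
  have h2 : t = q.out * ι k := by
    rw [hk]
    group
  rw [h2, term_mul h hu]

theorem right_inj (hpE : ¬ p ∣ Nat.card E) {S : Subgroup (E ⋊[φ] A)} (hS : IsPGroup p S)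
    {x : E ⋊[φ] A} (hx : x ∈ S) (h : x.right = 1) : x = 1 := by
  obtain ⟨k, hk⟩ := hS ⟨x, hx⟩
  have h1 : x ^ p ^ k = 1 := congrArg Subtype.val hk
  have h2 : x = SemidirectProduct.inl x.left := by
    ext
    · rfl
    · exact h
  rw [h2, ← map_pow] at h1
  have h3 : x.left ^ p ^ k = 1 := by
    apply SemidirectProduct.inl_injective (φ := φ)
    rw [h1, map_one]
  have h4 : x.left ^ Nat.card E = 1 := pow_card_eq_one'
  have h5 : orderOf x.left ∣ p ^ k := orderOf_dvd_of_pow_eq_one h3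
  have h6 : orderOf x.left ∣ Nat.card E := orderOf_dvd_of_pow_eq_one h4
  have h7 : Nat.Coprime (p ^ k) (Nat.card E) :=
    Nat.Coprime.pow_left _ ((Nat.Prime.coprime_iff_not_dvd hp.out).mpr hpE)
  have h8 : orderOf x.left = 1 := Nat.eq_one_of_dvd_coprimes h7 h5 h6
  have h9 := orderOf_eq_one_iff.mp h8
  rw [h2, h9, map_one]

/-- The upper bound for `p`-subgroups of centralisers. -/
theorem bound (hpO : (p : ℂ) ∈ O.nonunits) (hpE : ¬ p ∣ Nat.card E) (h : St φ ι θ)
    {B : Set (G → ℂ)} (hB : IsBlock O B) {x : E ⋊[φ] A}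
    (hx : blockCoeff (Hat φ ι θ B) x ∉ O.nonunits) {S : Subgroup (E ⋊[φ] A)}
    (hS : IsPGroup p S) (hSx : S ≤ Subgroup.centralizer ({x} : Set (E ⋊[φ] A))) :
    ∃ g : G, blockCoeff B g ∉ O.nonunits ∧ ∃ S' : Subgroup G, IsPGroup p S' ∧
      Nat.card S' = Nat.card S ∧ S' ≤ Subgroup.centralizer ({g} : Set G) := by
  haveI := charP_RF hpO
  have hu := blockCoeff_cl hB.irr
  have huO := blockCoeff_mem hB
  have m1 : ∀ q : A ⧸ ι.range, term φ ι (thi θ) (blockCoeff B) x q.out ∈ O :=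
    fun q => term_mem huO x _
  have h1 : red O (hat φ ι (thi θ) (blockCoeff B) x) ≠ 0 := by
    intro h2
    apply hx
    have m2 := hat_mem h.inv hu huO x
    have m3 := nat_inv_mem hpO hpE
    rw [coeff_Hat h hB.irr, ← red_eq_zero_iff (O.mul_mem _ _ m3 m2), red_mul m3 m2, h2, mul_zero]
  rw [hat_quot h.inv hu, red_sum _ _ fun q _ => m1 q] at h1
  letI : MulAction S (A ⧸ ι.range) :=
    MulAction.compHom (A ⧸ ι.range) ((SemidirectProduct.rightHom : E ⋊[φ] A →* A).comp S.subtype)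
  have hsm : ∀ (s : S) (t : A), s • (QuotientGroup.mk t : A ⧸ ι.range) =
      QuotientGroup.mk (s.1.right * t) := fun s t => rfl
  have h2 := sum_fixed hS (X := A ⧸ ι.range) (F := RF O)
    (fun a => by rw [← Nat.cast_smul_eq_nsmul (RF O), CharP.cast_eq_zero, zero_smul])
    (fun q => red O (term φ ι (thi θ) (blockCoeff B) x q.out)) (by
      intro s q
      have e1 : q = QuotientGroup.mk q.out := (QuotientGroup.out_eq' q).symm
      have e2 : (s • q) = QuotientGroup.mk (s.1.right * q.out) := by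
        conv_lhs => rw [e1]
        exact hsm s _
      have e3 : s.1 * x = x * s.1 := Subgroup.mem_centralizer_singleton_iff.mp (hSx s.2)
      change red O (term φ ι (thi θ) (blockCoeff B) x (s • q).out) = _
      rw [term_out h.inv hu x e2.symm, term_cent h.inv _ e3])
  have h3 : ∑ q : A ⧸ ι.range, red O (term φ ι (thi θ) (blockCoeff B) x q.out) ≠ 0 := by
    convert h1
  rw [h2] at h3
  obtain ⟨q, hq, hq'⟩ := Finset.exists_ne_zero_of_sum_ne_zero h3
  have hqf : ∀ d : S, d • q = q := by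
    simpa only [Finset.mem_filter, Finset.mem_univ, true_and] using hq
  set t := q.out with ht
  have hfix : ∀ s ∈ S, ∃ k : G, ι k = t⁻¹ * s.right * t := by
    intro s hs
    have e1 : q = QuotientGroup.mk t := (QuotientGroup.out_eq' q).symm
    have e2 := hqf ⟨s, hs⟩
    rw [e1, hsm] at e2
    have e3 := QuotientGroup.eq.mp e2.symm
    obtain ⟨k, hk⟩ := e3
    exact ⟨k, by rw [hk]; group⟩
  -- the element `g`
  have m4 : ∀ g : G, (if ι g = t⁻¹ * x.right * t then
      thi θ (φ t⁻¹ x.left) * blockCoeff B g else 0) ∈ O := by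
    intro g
    split_ifs
    · exact O.mul_mem _ _ (th_mem O _ _) (huO _)
    · exact O.zero_mem
  unfold term at hq'
  rw [red_sum _ _ fun g _ => m4 g] at hq'
  obtain ⟨g, -, hg⟩ := Finset.exists_ne_zero_of_sum_ne_zero hq'
  have hg1 : ι g = t⁻¹ * x.right * t := by
    by_contra hne
    apply hg
    rw [if_neg hne, red_zero]
  rw [if_pos hg1, red_mul (th_mem O _ _) (huO _)] at hg
  refine ⟨g, fun hcon => right_ne_zero_of_mul hg (red_eq_zero hcon), ?_⟩
  -- the subgroup
  let f : E ⋊[φ] A →* A := (MulAut.conj t⁻¹).toMonoidHom.comp SemidirectProduct.rightHom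
  have hf : ∀ y : E ⋊[φ] A, f y = t⁻¹ * y.right * t := by
    intro y
    change t⁻¹ * y.right * t⁻¹⁻¹ = _
    rw [inv_inv]
  have hinj : Function.Injective (f.comp S.subtype) := by
    rw [injective_iff_map_eq_one]
    rintro ⟨s, hs⟩ h4
    have h5 : t⁻¹ * s.right * t = 1 := by
      rw [← hf]
      exact h4
    have h6 : s.right = 1 := by
      have : s.right = t * (t⁻¹ * s.right * t) * t⁻¹ := by group
      rw [this, h5]
      group
    exact Subtype.ext (right_inj hpE hS hs h6)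
  set S'' : Subgroup A := (f.comp S.subtype).range with hS''
  have hc1 : Nat.card S'' = Nat.card S :=
    (Nat.card_congr (MonoidHom.ofInjective hinj).toEquiv).symm
  have hp1 : IsPGroup p S'' := hS.of_equiv (MonoidHom.ofInjective hinj)
  have hle : S'' ≤ ι.range := by
    rintro _ ⟨⟨s, hs⟩, rfl⟩
    obtain ⟨k, hk⟩ := hfix s hs
    exact ⟨k, by rw [hk]; exact (hf s).symm⟩
  refine ⟨S''.comap ι, hp1.comap_of_injective ι h.inj, ?_, ?_⟩
  · rw [← hc1]
    have h7 : (S''.comap ι).map ι = S'' := Subgroup.map_comap_eq_self hle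
    rw [← Subgroup.card_map_of_injective (K := S''.comap ι) h.inj, h7]
  · intro k hk
    obtain ⟨⟨s, hs⟩, h8⟩ := hk
    rw [Subgroup.mem_centralizer_singleton_iff]
    apply h.inj
    have h9 : ι k = t⁻¹ * s.right * t := by
      rw [← h8]
      exact hf s
    have e3 : s * x = x * s := Subgroup.mem_centralizer_singleton_iff.mp (hSx hs)
    have e4 : s.right * x.right = x.right * s.right := congrArg SemidirectProduct.right e3
    rw [map_mul, map_mul, h9, hg1]
    calc t⁻¹ * s.right * t * (t⁻¹ * x.right * t) = t⁻¹ * (s.right * x.right) * t := by group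
      _ = t⁻¹ * (x.right * s.right) * t := by rw [e4]
      _ = _ := by group

theorem Hat_defect (hpO : (p : ℂ) ∈ O.nonunits) (hpE : ¬ p ∣ Nat.card E) (h : St φ ι θ)
    {B : Set (G → ℂ)} (hB : IsBlock O B) {D : Subgroup G} (hD : IsDefectGroup p O B D) :
    IsDefectGroup p O (Hat φ ι θ B) (DH φ ι D) := by
  have hW := Hat_block hpO hpE h hB
  have hWi := hW.irr
  obtain ⟨lam, l1⟩ := lam_spec hB
  obtain ⟨x₀, a1, a2, a3, a4, a5⟩ := isDefectGroup_iff.mp hD
  have hcl := blockCoeff_cl hWi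
  have hO := coeff_Hat_mem (φ := φ) (ι := ι) (θ := θ) hpO hpE h hB
  have hP : ∀ ξ ∈ Hat φ ι θ B, ∀ x, red O (omega ξ x) = lamH φ ι θ lam x := by
    rintro ξ ⟨χ, hχ, rfl⟩ x
    exact red_hat h (hB.irr χ hχ) (fun g => (l1 χ hχ g).2.1) x
  -- a defect class
  obtain ⟨χ₀, hχ₀⟩ := hW.nonempty
  have e1 := (red_Om (hWi _ hχ₀) hcl hO).2
  rw [Om_blockCoeff hWi (hWi _ hχ₀), if_pos hχ₀, red_one] at e1
  obtain ⟨K, hK⟩ : ∃ K : ConjClasses (E ⋊[φ] A), red O (blockCoeff (Hat φ ι θ B) (rep K)) *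
      red O (omega χ₀ (rep K)) ≠ 0 := by
    by_contra hcon
    push Not at hcon
    rw [Finset.sum_eq_zero fun K _ => hcon K] at e1
    exact one_ne_zero e1
  have hK1 := left_ne_zero_of_mul hK
  have hK2 := right_ne_zero_of_mul hK
  generalize rep K = x at hK1 hK2
  rw [hP _ hχ₀] at hK2
  obtain ⟨K', -, hK'⟩ := Finset.exists_ne_zero_of_sum_ne_zero hK2
  have hc1 := left_ne_zero_of_mul hK'
  have hc2 := right_ne_zero_of_mul hK'
  generalize rep K' = g at hc1 hc2
  obtain ⟨ψ, hψ⟩ := hB.nonempty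
  obtain ⟨k, hk, hDk⟩ := minmax hpO hB (y := g) (a := x₀) (by
    intro χ hχ hcon
    apply hc2
    rw [← (l1 χ hχ g).2.1]
    exact red_eq_zero hcon) a5 a2 a1
  have hkc : ∀ d ∈ D, d * k = k * d := fun d hd =>
    Subgroup.mem_centralizer_singleton_iff.mp (hDk hd)
  rw [(cf_cl h x).isConj hk, red_cf hpO h a2 hkc] at hc1
  obtain ⟨m, hm, hm'⟩ := Finset.exists_ne_zero_of_sum_ne_zero hc1
  have hmf := (Finset.mem_filter.mp hm).2
  have hxm : IsConj x ⟨m, ι k⟩ := by
    by_contra hne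
    apply hm'
    rw [if_neg hne, red_zero]
  have hbx : blockCoeff (Hat φ ι θ B) ⟨m, ι k⟩ ∉ O.nonunits := by
    intro hcon
    apply hK1
    rw [hcl.isConj hxm]
    exact red_eq_zero hcon
  have hle : DH φ ι D ≤ Subgroup.centralizer ({(⟨m, ι k⟩ : E ⋊[φ] A)} : Set (E ⋊[φ] A)) := by
    intro y hy
    obtain ⟨h1, d, hd, h2⟩ := mem_DH.mp hy
    rw [Subgroup.mem_centralizer_singleton_iff]
    ext
    · rw [SemidirectProduct.mul_left, SemidirectProduct.mul_left, h1, ← h2]
      change 1 * φ (ι d) m = m * φ (ι k) 1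
      rw [hmf d hd, map_one, one_mul, mul_one]
    · rw [SemidirectProduct.mul_right, SemidirectProduct.mul_right, ← h2]
      change ι d * ι k = ι k * ι d
      rw [← map_mul, hkc d hd, map_mul]
  rw [isDefectGroup_iff]
  refine ⟨⟨m, ι k⟩, hle, a2.map _, ?_, ?_, hbx⟩
  · -- orders
    obtain ⟨Q⟩ : Nonempty (Sylow p (Subgroup.centralizer
      ({(⟨m, ι k⟩ : E ⋊[φ] A)} : Set (E ⋊[φ] A)))) := inferInstance
    obtain ⟨q1, q2, q3⟩ := (sylow_iff (p := p) (Subgroup.centralizer
      ({(⟨m, ι k⟩ : E ⋊[φ] A)} : Set (E ⋊[φ] A))) _).mp ⟨Q, rfl⟩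
    set S := (Q : Subgroup (Subgroup.centralizer
      ({(⟨m, ι k⟩ : E ⋊[φ] A)} : Set (E ⋊[φ] A)))).map
      (Subgroup.centralizer ({(⟨m, ι k⟩ : E ⋊[φ] A)} : Set (E ⋊[φ] A))).subtype with hS
    obtain ⟨g', hg', S', s1, s2, s3⟩ := bound hpO hpE h hB hbx q2 q1
    obtain ⟨k', hk', hSk'⟩ := minmax hpO hB a4 hg' s1 s3
    have c1 := card_mul_relIndex a1
    have c2 := card_mul_relIndex hle
    have c3 := card_mul_relIndex q1
    have c4 := card_mul_relIndex hSk'
    rw [← card_centralizer_congr hk', ← c1] at c4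
    obtain ⟨d, hd⟩ := IsPGroup.iff_card.mp a2
    obtain ⟨s, hs⟩ := IsPGroup.iff_card.mp q2
    rw [s2, hs, hd] at c4
    rw [card_DH h, hd] at c2
    rw [hs, ← c2] at c3
    have h1 : p ^ s ∣ p ^ d * D.relIndex (Subgroup.centralizer ({x₀} : Set G)) := ⟨_, c4.symm⟩
    have h2 : (p ^ s).Coprime (D.relIndex (Subgroup.centralizer ({x₀} : Set G))) :=
      Nat.Coprime.pow_left _ ((Nat.Prime.coprime_iff_not_dvd hp.out).mpr a3)
    have h3 : p ^ s ∣ p ^ d := h2.dvd_of_dvd_mul_right h1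
    have h4 : s ≤ d := (Nat.pow_dvd_pow_iff_le_right hp.out.one_lt).mp h3
    intro hdvd
    obtain ⟨r, hr⟩ := hdvd
    rw [hr] at c3
    have h5 : p ^ (d + 1) ∣ p ^ s * S.relIndex (Subgroup.centralizer
        ({(⟨m, ι k⟩ : E ⋊[φ] A)} : Set (E ⋊[φ] A))) := by
      rw [c3]
      exact ⟨r, by ring⟩
    have h6 : (p ^ (d + 1)).Coprime (S.relIndex (Subgroup.centralizer
        ({(⟨m, ι k⟩ : E ⋊[φ] A)} : Set (E ⋊[φ] A)))) :=
      Nat.Coprime.pow_left _ ((Nat.Prime.coprime_iff_not_dvd hp.out).mpr q3)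
    have h7 : p ^ (d + 1) ∣ p ^ s := h6.dvd_of_dvd_mul_right h5
    have h8 : d + 1 ≤ s := (Nat.pow_dvd_pow_iff_le_right hp.out.one_lt).mp h7
    omega
  · intro ξ hξ hcon
    apply hK2
    rw [← hP ξ hξ, (hWi ξ hξ).omega_congr hxm]
    exact red_eq_zero hcon

theorem index_DH (h : St φ ι θ) (D : Subgroup G) :
    (DH φ ι D).index * Nat.card G = Nat.card E * Nat.card A * D.index := by
  have h1 := (DH φ ι D).card_mul_index
  have h2 := D.card_mul_index
  rw [card_DH h, card_sd] at h1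
  have h3 : 0 < Nat.card D := Nat.card_pos
  rw [← h1, ← h2]
  ring

theorem irr0_Hat (hpE : ¬ p ∣ Nat.card E) (h : St φ ι θ) {B : Set (G → ℂ)}
    (hB : ∀ χ ∈ B, IsIrr χ) (D : Subgroup G) :
    Irr0 p (DH φ ι D) (Hat φ ι θ B) = Hat φ ι θ (Irr0 p D B) := by
  have hi0 : D.index ≠ 0 := Subgroup.index_ne_zero_of_finite
  have hi1 : (DH φ ι D).index ≠ 0 := Subgroup.index_ne_zero_of_finite
  have hA0 : Nat.card A ≠ 0 := Nat.card_pos.ne'
  have hG0 : Nat.card G ≠ 0 := Nat.card_pos.ne'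
  have hE0 : Nat.card E ≠ 0 := Nat.card_pos.ne'
  have hidx : (DH φ ι D).index.factorization p + (Nat.card G).factorization p =
      (Nat.card A).factorization p + D.index.factorization p := by
    have h1 := congrArg (fun n => n.factorization p) (index_DH h D)
    simp only [Nat.factorization_mul hi1 hG0, Nat.factorization_mul (mul_ne_zero hE0 hA0) hi0,
      Nat.factorization_mul hE0 hA0, Finsupp.add_apply,
      Nat.factorization_eq_zero_of_not_dvd hpE, zero_add] at h1
    exact h1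
  have key : ∀ χ ∈ B, ((∃ n : ℕ, (n : ℂ) = hat φ ι θ χ 1 ∧
      n.factorization p = (DH φ ι D).index.factorization p) ↔
      ∃ n : ℕ, (n : ℂ) = χ 1 ∧ n.factorization p = D.index.factorization p) := by
    intro χ hχ
    obtain ⟨n, n0, hn⟩ := (hB _ hχ).deg
    obtain ⟨N, N0, hN⟩ := (hat_irr h (hB _ hχ)).deg
    have e1 : N * Nat.card G = Nat.card A * n := by
      have := hat_one h χ
      rw [← hN, ← hn] at this
      have c1 := cG (G := G)
      field_simp at this
      have e2 : ((N * Nat.card G : ℕ) : ℂ) = ((Nat.card A * n : ℕ) : ℂ) := by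
        push_cast
        linear_combination this
      exact_mod_cast e2
    have e2 : N.factorization p + (Nat.card G).factorization p =
        (Nat.card A).factorization p + n.factorization p := by
      have h1 := congrArg (fun n => n.factorization p) e1
      simp only [Nat.factorization_mul N0.ne' hG0, Nat.factorization_mul hA0 n0.ne',
        Finsupp.add_apply] at h1
      exact h1
    rw [← hN, ← hn]
    constructor
    · rintro ⟨m, hm, hf⟩
      have : m = N := by exact_mod_cast hm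
      subst this
      exact ⟨n, rfl, by omega⟩
    · rintro ⟨m, hm, hf⟩
      have : m = n := by exact_mod_cast hm
      subst this
      exact ⟨N, rfl, by omega⟩
  ext ξ
  constructor
  · rintro ⟨⟨χ, hχ, rfl⟩, hdeg⟩
    exact ⟨χ, ⟨hχ, (key χ hχ).mp hdeg⟩, rfl⟩
  · rintro ⟨χ, hχ, rfl⟩
    exact ⟨⟨χ, hχ.1, rfl⟩, (key χ hχ.1).mpr hχ.2⟩

end dft

end Pool.Agent.Hp21.UN
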