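import Pool.Agent.N19.RB.FR

/-!
# Characters of `E ⋊ A` above a linear character of the abelian group `E`
-/

set_option autoImplicit false
set_option linter.unusedSectionVars false

open scoped BigOperators Classical

noncomputable section

namespace Pool.Agent.Hp21.UN

open Pool.Agent.Q90.WR Pool.Agent.H254R3.IN Pool.Agent.Q259.BW Pool.Agent.Q288.MB
open Pool.Agent.N19.RB
open Pool.Agent.Helper884

section defs

variable {E A G : Type} [CommGroup E] [Group A] [Group G]

/-- `θ` is a linear character of `E`, and the group `G`, embedded in `A` by `ι`, is its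
stabiliser. -/
structure St (φ : A →* MulAut E) (ι : G →* A) (θ : E →* ℂ) : Prop where
  inj : Function.Injective ι
  stab : ∀ a, (∀ e, θ (φ a e) = θ e) ↔ ∃ g, ι g = a

/-- the inverse character -/
def thi (θ : E →* ℂ) : E →* ℂ := θ.comp invMonoidHom

theorem thi_apply (θ : E →* ℂ) (e : E) : thi θ e = θ e⁻¹ := rfl

theorem thi_thi (θ : E →* ℂ) : thi (thi θ) = θ := by
  ext e
  rw [thi_apply, thi_apply, inv_inv]

theorem th_mul_inv (θ : E →* ℂ) (e : E) : θ e * θ e⁻¹ = 1 := by
  rw [← map_mul, mul_inv_cancel, map_one]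

theorem th_ne (θ : E →* ℂ) (e : E) : θ e ≠ 0 := left_ne_zero_of_mul_eq_one (th_mul_inv θ e)

variable {φ : A →* MulAut E} {ι : G →* A} {θ : E →* ℂ}

theorem St.fix (h : St φ ι θ) (g : G) (e : E) : θ (φ (ι g) e) = θ e :=
  (h.stab _).mpr ⟨g, rfl⟩ e

theorem St.inv (h : St φ ι θ) : St φ ι (thi θ) := by
  refine ⟨h.inj, fun a => ?_⟩
  rw [← h.stab a]
  constructor
  · intro h1 e
    have := h1 e⁻¹
    rw [thi_apply, thi_apply, ← map_inv (φ a), inv_inv] at this
    exact this
  · intro h1 e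
    rw [thi_apply, thi_apply, ← map_inv, h1]

theorem phi_mul (a b : A) (e : E) : φ a (φ b e) = φ (a * b) e := by
  rw [map_mul, MulAut.mul_apply]

theorem phi_one (e : E) : φ 1 e = e := by
  rw [map_one, MulAut.one_apply]

theorem phi_inv (s : A) (e : E) : φ s (φ s⁻¹ e) = e := by
  rw [phi_mul, mul_inv_cancel, phi_one]

theorem phi_inv' (s : A) (e : E) : φ s⁻¹ (φ s e) = e := by
  rw [phi_mul, inv_mul_cancel, phi_one]

variable [Fintype E] [Fintype A] [Fintype G]

/-- one term of the induced function -/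
def term (φ : A →* MulAut E) (ι : G →* A) (θ : E →* ℂ) (u : G → ℂ) (x : E ⋊[φ] A) (s : A) : ℂ :=
  ∑ g : G, if ι g = s⁻¹ * x.right * s then θ (φ s⁻¹ x.left) * u g else 0

/-- the function induced from `θ ⊗ u` on `E ⋊ G` -/
def hat (φ : A →* MulAut E) (ι : G →* A) (θ : E →* ℂ) (u : G → ℂ) (x : E ⋊[φ] A) : ℂ :=
  (Nat.card G : ℂ)⁻¹ * ∑ s, term φ ι θ u x s

end defs

section basic

variable {E A G : Type} [CommGroup E] [Group A] [Group G] [Fintype E] [Fintype A] [Fintype G]
  {φ : A →* MulAut E} {ι : G →* A} {θ : E →* ℂ}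

theorem cG : (Nat.card G : ℂ) ≠ 0 := by exact_mod_cast Nat.card_pos.ne'

theorem cl_inr {h : E ⋊[φ] A → ℂ} (hh : IsCl h) (s : A) (e : E) (a : A) :
    h ⟨φ s e, s * a * s⁻¹⟩ = h ⟨e, a⟩ := by
  rw [← hh ⟨e, a⟩ (SemidirectProduct.inr s)]
  congr 1
  ext
  · simp
  · simp

theorem sum_term (u : G → ℂ) {h : E ⋊[φ] A → ℂ} (hh : IsCl h) (s : A) :
    ∑ x, term φ ι θ u x s * h x = ∑ e, ∑ g, θ e * u g * h ⟨e, ι g⟩ := by
  rw [sum_sd]
  have h1 : ∀ e : E, ∑ a : A, term φ ι θ u (⟨e, a⟩ : E ⋊[φ] A) s * h ⟨e, a⟩ =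
      ∑ g, θ (φ s⁻¹ e) * u g * h ⟨φ s⁻¹ e, ι g⟩ := by
    intro e
    unfold term
    simp_rw [Finset.sum_mul]
    rw [Finset.sum_comm]
    refine Finset.sum_congr rfl fun g _ => ?_
    rw [Finset.sum_eq_single (s * ι g * s⁻¹)]
    · rw [if_pos (by group)]
      congr 1
      have := cl_inr hh s (φ s⁻¹ e) (ι g)
      rw [phi_inv] at this
      exact this
    · intro a _ ha
      rw [if_neg, zero_mul]
      intro h2
      apply ha
      change ι g = s⁻¹ * a * s at h2
      rw [h2]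
      group
    · intro h2
      exact absurd (Finset.mem_univ _) h2
  rw [Finset.sum_congr rfl fun e _ => h1 e]
  exact Fintype.sum_equiv (φ s⁻¹).toEquiv _ _ fun e => rfl

/-- Frobenius reciprocity -/
theorem sum_hat (u : G → ℂ) {h : E ⋊[φ] A → ℂ} (hh : IsCl h) :
    ∑ x, hat φ ι θ u x * h x = (Nat.card G : ℂ)⁻¹ * Nat.card A *
      ∑ e, ∑ g, θ e * u g * h ⟨e, ι g⟩ := by
  have h1 : ∀ x : E ⋊[φ] A, hat φ ι θ u x * h x =
      (Nat.card G : ℂ)⁻¹ * ∑ s, term φ ι θ u x s * h x := by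
    intro x
    unfold hat
    rw [mul_assoc, Finset.sum_mul]
  rw [Finset.sum_congr rfl fun x _ => h1 x, ← Finset.mul_sum, Finset.sum_comm,
    Finset.sum_congr rfl fun s _ => sum_term u hh s, Finset.sum_const,
    nsmul_eq_mul, Finset.card_univ, Nat.card_eq_fintype_card, Nat.card_eq_fintype_card, mul_assoc]

theorem term_conj (h : St φ ι θ) (u : G → ℂ) (x y : E ⋊[φ] A) (s : A) :
    term φ ι θ u (y * x * y⁻¹) (y.right * s) = term φ ι θ u x s := by
  unfold term
  refine Finset.sum_congr rfl fun g _ => ?_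
  have e1 : (y.right * s)⁻¹ * (y * x * y⁻¹).right * (y.right * s) = s⁻¹ * x.right * s := by
    simp only [SemidirectProduct.mul_right, SemidirectProduct.inv_right]
    group
  rw [e1]
  by_cases hg : ι g = s⁻¹ * x.right * s
  · rw [if_pos hg, if_pos hg]
    congr 1
    have e2 : φ (y.right * s)⁻¹ (y * x * y⁻¹).left = φ (y.right * s)⁻¹ y.left * φ s⁻¹ x.left *
        φ (ι g) (φ (y.right * s)⁻¹ y.left⁻¹) := by
      have l1 : (y * x * y⁻¹).left = y.left * φ y.right x.left *
          φ (y.right * x.right * y.right⁻¹) y.left⁻¹ := by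
        rw [SemidirectProduct.mul_left, SemidirectProduct.mul_left, SemidirectProduct.mul_right,
          SemidirectProduct.inv_left, phi_mul]
      have l2 : (y.right * s)⁻¹ * y.right = s⁻¹ := by group
      have l3 : (y.right * s)⁻¹ * (y.right * x.right * y.right⁻¹) = ι g * (y.right * s)⁻¹ := by
        rw [hg]
        group
      rw [l1, map_mul, map_mul, phi_mul, phi_mul, phi_mul, l2, l3]
    rw [e2, map_mul, map_mul, h.fix, map_inv (φ (y.right * s)⁻¹)]
    have := th_mul_inv θ (φ (y.right * s)⁻¹ y.left)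
    linear_combination θ (φ s⁻¹ x.left) * this
  · rw [if_neg hg, if_neg hg]

theorem hat_cl (h : St φ ι θ) (u : G → ℂ) : IsCl (hat φ ι θ u) := by
  intro x y
  unfold hat
  congr 1
  refine (Fintype.sum_equiv (Equiv.mulLeft y.right) _ _ fun s => ?_).symm
  rw [Equiv.coe_mulLeft, term_conj h]

theorem term_mul (h : St φ ι θ) {u : G → ℂ} (hu : IsCl u) (x : E ⋊[φ] A) (s : A) (k : G) :
    term φ ι θ u x (s * ι k) = term φ ι θ u x s := by
  unfold term
  refine Fintype.sum_equiv (MulAut.conj k).toEquiv _ _ fun g => ?_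
  have e1 : (ι g = (s * ι k)⁻¹ * x.right * (s * ι k)) ↔
      (ι ((MulAut.conj k).toEquiv g) = s⁻¹ * x.right * s) := by
    change _ ↔ ι (k * g * k⁻¹) = _
    rw [map_mul, map_mul, map_inv]
    constructor
    · intro h1
      rw [h1]
      group
    · intro h1
      have h2 : ι g = (ι k)⁻¹ * (ι k * ι g * (ι k)⁻¹) * ι k := by group
      rw [h2, h1]
      group
  have e2 : θ (φ (s * ι k)⁻¹ x.left) = θ (φ s⁻¹ x.left) := by
    rw [mul_inv_rev, ← map_inv ι, ← phi_mul, h.fix]
  have e3 : u ((MulAut.conj k).toEquiv g) = u g := hu g k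
  rw [e2, e3]
  simp only [e1]

theorem term_inv (h : St φ ι θ) (u : G → ℂ) (x : E ⋊[φ] A) (s : A) :
    term φ ι θ u x⁻¹ s = term φ ι (thi θ) (fun g => u g⁻¹) x s := by
  unfold term
  refine Fintype.sum_equiv (Equiv.inv G) _ _ fun g => ?_
  have e1 : (ι g = s⁻¹ * x⁻¹.right * s) ↔ (ι (Equiv.inv G g) = s⁻¹ * x.right * s) := by
    change _ ↔ ι g⁻¹ = _
    rw [map_inv, SemidirectProduct.inv_right]
    constructor
    · intro h1
      rw [h1]
      group
    · intro h1
      have h2 : ι g = ((ι g)⁻¹)⁻¹ := (inv_inv _).symm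
      rw [h2, h1]
      group
  by_cases hg : ι g = s⁻¹ * x⁻¹.right * s
  · rw [if_pos hg, if_pos (e1.mp hg)]
    have e2 : φ s⁻¹ x⁻¹.left = φ (ι g) (φ s⁻¹ x.left⁻¹) := by
      rw [SemidirectProduct.inv_left, phi_mul, phi_mul, hg, SemidirectProduct.inv_right]
      congr 2
      group
    rw [e2, h.fix, thi_apply, map_inv (φ s⁻¹)]
    simp only [Equiv.inv_apply, inv_inv]
  · rw [if_neg hg, if_neg (fun h' => hg (e1.mpr h'))]

theorem hat_inv (h : St φ ι θ) (u : G → ℂ) (x : E ⋊[φ] A) :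
    hat φ ι θ u x⁻¹ = hat φ ι (thi θ) (fun g => u g⁻¹) x := by
  unfold hat
  simp_rw [term_inv h]

theorem hat_one (h : St φ ι θ) (u : G → ℂ) :
    hat φ ι θ u 1 = (Nat.card G : ℂ)⁻¹ * Nat.card A * u 1 := by
  unfold hat
  have h1 : ∀ s : A, term φ ι θ u (1 : E ⋊[φ] A) s = u 1 := by
    intro s
    unfold term
    rw [Finset.sum_eq_single 1]
    · rw [if_pos]
      · rw [SemidirectProduct.one_left, map_one, map_one, one_mul]
      · rw [SemidirectProduct.one_right, map_one]
        group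
    · intro g _ hg
      rw [if_neg]
      intro h2
      apply hg
      apply h.inj
      rw [h2, SemidirectProduct.one_right, map_one]
      group
    · intro h2
      exact absurd (Finset.mem_univ _) h2
  rw [Finset.sum_congr rfl fun s _ => h1 s, Finset.sum_const, nsmul_eq_mul, Finset.card_univ,
    Nat.card_eq_fintype_card, Nat.card_eq_fintype_card, mul_assoc]

/-- orthogonality of linear characters -/
theorem sum_th (θ' : E →* ℂ) : ∑ e, θ' e = if (∀ e, θ' e = 1) then (Nat.card E : ℂ) else 0 := by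
  split_ifs with h
  · rw [Finset.sum_congr rfl fun e _ => h e, Finset.sum_const, nsmul_eq_mul, mul_one,
      Finset.card_univ, Nat.card_eq_fintype_card]
  · push Not at h
    obtain ⟨e0, he⟩ := h
    have h1 : θ' e0 * ∑ e, θ' e = ∑ e, θ' e := by
      rw [Finset.mul_sum]
      refine Fintype.sum_equiv (Equiv.mulLeft e0) _ _ fun e => ?_
      rw [Equiv.coe_mulLeft, map_mul]
    have h2 : (θ' e0 - 1) * ∑ e, θ' e = 0 := by
      rw [sub_mul, one_mul, h1, sub_self]
    rcases mul_eq_zero.mp h2 with h3 | h3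
    · exact absurd (sub_eq_zero.mp h3) he
    · exact h3

theorem sum_orth (h : St φ ι θ) (s : A) : ∑ e, θ e * thi θ (φ s⁻¹ e) =
    if (∃ g, ι g = s) then (Nat.card E : ℂ) else 0 := by
  have h1 := sum_th (θ * (thi θ).comp (φ s⁻¹).toMonoidHom)
  have h2 : (∀ e, (θ * (thi θ).comp (φ s⁻¹).toMonoidHom) e = 1) ↔ ∃ g, ι g = s := by
    rw [← h.stab s]
    constructor
    · intro h3 e
      have h4 := h3 (φ s e)
      change θ (φ s e) * thi θ (φ s⁻¹ (φ s e)) = 1 at h4
      rw [phi_inv', thi_apply] at h4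
      have h5 := th_mul_inv θ e
      have h6 := th_ne θ e⁻¹
      apply mul_right_cancel₀ h6
      rw [h4, h5]
    · intro h3 e
      change θ e * thi θ (φ s⁻¹ e) = 1
      rw [thi_apply, ← map_inv]
      have h4 := h3 (φ s⁻¹ e⁻¹)
      rw [phi_inv] at h4
      rw [← h4, th_mul_inv]
  simp only [h2] at h1
  rw [← h1]
  rfl

theorem B_hat (h : St φ ι θ) (χ : G → ℂ) {ψ : G → ℂ} (hψ : IsCl ψ) :
    IC.B (hat φ ι θ χ) (hat φ ι θ ψ) = IC.B χ ψ := by
  unfold IC.B
  rw [sum_hat χ (cl_inv (hat_cl h ψ))]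
  simp_rw [hat_inv h]
  have h1 : ∀ g : G, ∑ e, θ e * hat φ ι (thi θ) (fun g => ψ g⁻¹) ⟨e, ι g⟩ =
      Nat.card E * ψ g⁻¹ := by
    intro g
    unfold hat term
    simp_rw [Finset.mul_sum]
    rw [Finset.sum_comm]
    have h2 : ∀ s : A, ∑ e, ∑ k : G, θ e * ((Nat.card G : ℂ)⁻¹ *
        (if ι k = s⁻¹ * (⟨e, ι g⟩ : E ⋊[φ] A).right * s then
          thi θ (φ s⁻¹ (⟨e, ι g⟩ : E ⋊[φ] A).left) * ψ k⁻¹ else 0)) =
        (if (∃ k, ι k = s) then (Nat.card E : ℂ) else 0) * ((Nat.card G : ℂ)⁻¹ *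
          ∑ k : G, if ι k = s⁻¹ * ι g * s then ψ k⁻¹ else 0) := by
      intro s
      rw [← sum_orth h s, Finset.sum_mul]
      refine Finset.sum_congr rfl fun e _ => ?_
      rw [Finset.mul_sum, Finset.mul_sum]
      refine Finset.sum_congr rfl fun k _ => ?_
      change θ e * ((Nat.card G : ℂ)⁻¹ * (if ι k = s⁻¹ * ι g * s then
          thi θ (φ s⁻¹ e) * ψ k⁻¹ else 0)) = _
      split_ifs
      · ring
      · ring
    rw [Finset.sum_congr rfl fun s _ => h2 s]
    have h3 : ∀ s : A, (if (∃ k, ι k = s) then (Nat.card E : ℂ) else 0) * ((Nat.card G : ℂ)⁻¹ *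
          ∑ k : G, if ι k = s⁻¹ * ι g * s then ψ k⁻¹ else 0) =
        ∑ k : G, if ι k = s then (Nat.card E : ℂ) * ((Nat.card G : ℂ)⁻¹ * ψ g⁻¹) else 0 := by
      intro s
      by_cases hs : ∃ k, ι k = s
      · obtain ⟨k, rfl⟩ := hs
        rw [if_pos ⟨k, rfl⟩, Finset.sum_eq_single (k⁻¹ * g * k), if_pos (by simp),
          Finset.sum_eq_single k, if_pos rfl]
        · have := cl_inv hψ g k⁻¹
          simp only [inv_inv] at this
          rw [this]
        · intro b _ hb
          rw [if_neg fun h' => hb (h.inj h')]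
        · intro h'
          exact absurd (Finset.mem_univ _) h'
        · intro b _ hb
          rw [if_neg]
          intro h'
          apply hb
          apply h.inj
          rw [h']
          simp
        · intro h'
          exact absurd (Finset.mem_univ _) h'
      · rw [if_neg hs, zero_mul]
        push Not at hs
        rw [Finset.sum_eq_zero fun k _ => if_neg (hs k)]
    rw [Finset.sum_congr rfl fun s _ => h3 s, Finset.sum_comm]
    have h4 : ∀ k : G, ∑ s : A, (if ι k = s then (Nat.card E : ℂ) * ((Nat.card G : ℂ)⁻¹ * ψ g⁻¹)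
        else 0) = (Nat.card E : ℂ) * ((Nat.card G : ℂ)⁻¹ * ψ g⁻¹) := by
      intro k
      rw [Finset.sum_ite_eq, if_pos (Finset.mem_univ _)]
    rw [Finset.sum_congr rfl fun k _ => h4 k, Finset.sum_const, nsmul_eq_mul, Finset.card_univ,
      ← Nat.card_eq_fintype_card]
    have := cG (G := G)
    field_simp
  have h5 : ∑ e, ∑ g, θ e * χ g * hat φ ι (thi θ) (fun g => ψ g⁻¹) ⟨e, ι g⟩ =
      Nat.card E * ∑ g, χ g * ψ g⁻¹ := by
    rw [Finset.sum_comm, Finset.mul_sum]
    refine Finset.sum_congr rfl fun g _ => ?_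
    have h6 : ∀ e, θ e * χ g * hat φ ι (thi θ) (fun g => ψ g⁻¹) ⟨e, ι g⟩ =
        χ g * (θ e * hat φ ι (thi θ) (fun g => ψ g⁻¹) ⟨e, ι g⟩) := fun e => by ring
    rw [Finset.sum_congr rfl fun e _ => h6 e, ← Finset.mul_sum, h1]
    ring
  rw [h5, card_sd]
  have c1 := cG (G := G)
  have c2 := cG (G := E)
  have c3 := cG (G := A)
  push_cast
  field_simp

end basic

end Pool.Agent.Hp21.UN
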