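import Pool.Agent.Hp21.UN.Dft

/-!
# Normalizers of `p`-subgroups of `E ⋊ A`, and Brauer correspondents
-/

set_option autoImplicit false
set_option linter.unusedSectionVars false
set_option linter.style.haveILetI false

open scoped BigOperators Classical

noncomputable section

namespace Pool.Agent.Hp21.UN

open Pool.Agent.Q90.WR Pool.Agent.H254R3.IN Pool.Agent.Q259.BW Pool.Agent.Q288.MB
open Pool.Agent.N19.RB
open Pool.Agent.Helper884

section loc

variable {E A G : Type} [CommGroup E] [Group A] [Group G]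
  {φ : A →* MulAut E} {ι : G →* A} {θ : E →* ℂ}

/-- the fixed points of `D` in `E` -/
def EC (φ : A →* MulAut E) (ι : G →* A) (D : Subgroup G) : Subgroup E where
  carrier := {m | ∀ d ∈ D, φ (ι d) m = m}
  one_mem' := fun d _ => map_one _
  mul_mem' := fun {a b} ha hb d hd => by rw [map_mul, ha d hd, hb d hd]
  inv_mem' := fun {a} ha d hd => by rw [map_inv, ha d hd]

theorem mem_EC {D : Subgroup G} {m : E} : m ∈ EC φ ι D ↔ ∀ d ∈ D, φ (ι d) m = m := Iff.rfl

/-- the normalizer of `D` in `A` -/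
abbrev AN (ι : G →* A) (D : Subgroup G) : Subgroup A :=
  Subgroup.normalizer ((D.map ι : Subgroup A) : Set A)

/-- the normalizer of `D` in `G` -/
abbrev GN (D : Subgroup G) : Subgroup G := Subgroup.normalizer (D : Set G)

theorem AN_conj {D : Subgroup G} {a : A} (ha : a ∈ AN ι D) {d : G} (hd : d ∈ D) :
    ∃ d' ∈ D, ι d' = a * ι d * a⁻¹ := by
  have h1 := (Subgroup.mem_normalizer_iff.mp ha (ι d)).mp (Subgroup.mem_map_of_mem ι hd)
  exact Subgroup.mem_map.mp h1

theorem EC_stable {D : Subgroup G} {a : A} (ha : a ∈ AN ι D) {m : E} (hm : m ∈ EC φ ι D) :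
    φ a m ∈ EC φ ι D := by
  intro d hd
  obtain ⟨d', hd', h⟩ := AN_conj (inv_mem ha) hd
  rw [inv_inv] at h
  have h1 : ι d * a = a * ι d' := by
    rw [h]
    group
  rw [phi_mul, h1, ← phi_mul, hm d' hd']

/-- the action of the normalizer on the fixed points -/
def phN (φ : A →* MulAut E) (ι : G →* A) (D : Subgroup G) : AN ι D →* MulAut (EC φ ι D) where
  toFun a :=
    { toFun := fun m => ⟨φ a m, EC_stable a.2 m.2⟩
      invFun := fun m => ⟨φ (a⁻¹ : A) m, EC_stable (inv_mem a.2) m.2⟩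
      left_inv := fun m => Subtype.ext (phi_inv' _ _)
      right_inv := fun m => Subtype.ext (phi_inv _ _)
      map_mul' := fun m n => Subtype.ext (map_mul _ _ _) }
  map_one' := by
    ext m
    exact congrArg (fun f : MulAut E => f m) (map_one φ)
  map_mul' a b := by
    ext m
    exact congrArg (fun f : MulAut E => f m) (map_mul φ _ _)

theorem phN_coe {D : Subgroup G} (a : AN ι D) (m : EC φ ι D) :
    ((phN φ ι D a m : EC φ ι D) : E) = φ a m := rfl

/-- the embedding of the normalizer -/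
def iN (ι : G →* A) (D : Subgroup G) : GN D →* AN ι D where
  toFun g := ⟨ι g, by
    rw [Subgroup.mem_normalizer_iff]
    intro a
    have hg := Subgroup.mem_normalizer_iff.mp g.2
    constructor
    · intro ha
      obtain ⟨d, hd, rfl⟩ := Subgroup.mem_map.mp ha
      exact Subgroup.mem_map.mpr ⟨g * d * (g : G)⁻¹, (hg d).mp hd, by simp⟩
    · intro ha
      obtain ⟨d, hd, h1⟩ := Subgroup.mem_map.mp ha
      refine Subgroup.mem_map.mpr ⟨(g : G)⁻¹ * d * g, (hg _).mpr ?_, ?_⟩
      · have : (g : G) * ((g : G)⁻¹ * d * g) * (g : G)⁻¹ = d := by group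
        rw [this]
        exact hd
      · rw [map_mul, map_mul, map_inv, h1]
        group⟩
  map_one' := Subtype.ext (map_one ι)
  map_mul' a b := Subtype.ext (map_mul ι _ _)

theorem iN_coe {D : Subgroup G} (g : GN D) : ((iN ι D g : AN ι D) : A) = ι g := rfl

/-- the restriction of `θ` -/
def thN (φ : A →* MulAut E) (ι : G →* A) (θ : E →* ℂ) (D : Subgroup G) : EC φ ι D →* ℂ :=
  θ.comp (EC φ ι D).subtype

theorem thN_apply {D : Subgroup G} (m : EC φ ι D) : thN φ ι θ D m = θ m := rfl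

variable [Finite E] [Finite G] {p : ℕ} [hp : Fact p.Prime]

/-- two `D`-invariant characters which agree on the fixed points are equal -/
theorem th_unique (hpE : ¬ p ∣ Nat.card E) {D : Subgroup G} (hD : IsPGroup p D) {θ₁ θ₂ : E →* ℂ}
    (h1 : ∀ d ∈ D, ∀ e, θ₁ (φ (ι d) e) = θ₁ e) (h2 : ∀ d ∈ D, ∀ e, θ₂ (φ (ι d) e) = θ₂ e)
    (h : ∀ m ∈ EC φ ι D, θ₁ m = θ₂ m) (e : E) : θ₁ e = θ₂ e := by
  have := Fintype.ofFinite D
  obtain ⟨n, hn⟩ := IsPGroup.iff_card.mp hD
  have hc : (Nat.card E).Coprime (Nat.card D) := by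
    rw [hn]
    exact Nat.Coprime.pow_right _ ((Nat.Prime.coprime_iff_not_dvd hp.out).mpr hpE).symm
  obtain ⟨e0, rfl⟩ := (powCoprime hc).surjective e
  have key : ∀ θ' : E →* ℂ, (∀ d ∈ D, ∀ e, θ' (φ (ι d) e) = θ' e) →
      θ' (powCoprime hc e0) = θ' (∏ d : D, φ (ι d) e0) := by
    intro θ' h'
    rw [map_prod, Finset.prod_congr rfl fun (d : D) _ => h' d d.2 e0, Finset.prod_const,
      Finset.card_univ, ← Nat.card_eq_fintype_card]
    exact map_pow θ' e0 _
  rw [key θ₁ h1, key θ₂ h2]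
  apply h
  intro d hd
  rw [map_prod]
  refine Fintype.prod_equiv (Equiv.mulLeft ⟨d, hd⟩) _ _ fun d' => ?_
  rw [phi_mul, ← map_mul]
  rfl

theorem St.loc (hpE : ¬ p ∣ Nat.card E) (h : St φ ι θ) {D : Subgroup G} (hD : IsPGroup p D) :
    St (phN φ ι D) (iN ι D) (thN φ ι θ D) := by
  refine ⟨fun g g' hg => Subtype.ext (h.inj (congrArg Subtype.val hg)), fun a => ?_⟩
  constructor
  · intro h1
    have h2 : ∀ e, θ (φ a e) = θ e := by
      intro e
      refine th_unique (φ := φ) (ι := ι) hpE hD (θ₁ := θ.comp (φ a).toMonoidHom) (θ₂ := θ) ?_ ?_ ?_ e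
      · intro d hd e
        obtain ⟨d', hd', h3⟩ := AN_conj a.2 hd
        change θ (φ a (φ (ι d) e)) = θ (φ a e)
        have h4 : (a : A) * ι d = ι d' * a := by
          rw [h3]
          group
        rw [phi_mul, h4, ← phi_mul, h.fix]
      · exact fun d _ e => h.fix d e
      · intro m hm
        exact h1 ⟨m, hm⟩
    obtain ⟨g, hg⟩ := (h.stab _).mp h2
    have h3 : g ∈ GN D := by
      rw [Subgroup.mem_normalizer_iff]
      intro k
      have h4 := Subgroup.mem_normalizer_iff.mp a.2 (ι k)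
      rw [← hg, ← map_inv, ← map_mul, ← map_mul] at h4
      have h5 : ∀ k : G, ι k ∈ (D.map ι) ↔ k ∈ D := fun k =>
        Subgroup.mem_map_iff_mem h.inj
      rw [← h5 k, ← h5 (g * k * g⁻¹)]
      exact h4
    exact ⟨⟨g, h3⟩, Subtype.ext hg⟩
  · rintro ⟨g, rfl⟩ e
    exact h.fix g e

end loc

section iso

variable {E A G : Type} [CommGroup E] [Group A] [Group G]
  {φ : A →* MulAut E} {ι : G →* A} {θ : E →* ℂ}

theorem mem_norm {D : Subgroup G} {y : E ⋊[φ] A} :
    y ∈ Subgroup.normalizer (DH φ ι D : Set (E ⋊[φ] A)) ↔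
      y.left ∈ EC φ ι D ∧ y.right ∈ AN ι D := by
  have hin : ∀ a : A, (SemidirectProduct.inr a : E ⋊[φ] A) ∈ DH φ ι D ↔ a ∈ D.map ι := by
    intro a
    rw [mem_DH, Subgroup.mem_map]
    exact ⟨fun h => h.2, fun h => ⟨rfl, h⟩⟩
  constructor
  · intro hy
    have h1 : ∀ y : E ⋊[φ] A, y ∈ Subgroup.normalizer (DH φ ι D : Set (E ⋊[φ] A)) →
        ∀ a ∈ D.map ι, y.right * a * y.right⁻¹ ∈ D.map ι := by
      intro y hy a ha
      have h2 := (Subgroup.mem_normalizer_iff.mp hy _).mp ((hin a).mpr ha)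
      obtain ⟨-, d, hd, h3⟩ := mem_DH.mp h2
      refine Subgroup.mem_map.mpr ⟨d, hd, ?_⟩
      rw [h3]
      simp
    refine ⟨?_, ?_⟩
    · intro d hd
      have h2 := (Subgroup.mem_normalizer_iff.mp (inv_mem hy) _).mp
        ((hin (ι d)).mpr (Subgroup.mem_map_of_mem ι hd))
      rw [inv_inv] at h2
      obtain ⟨h3, d', hd', h4⟩ := mem_DH.mp h2
      have h5 : y * (y⁻¹ * SemidirectProduct.inr (ι d) * y) = SemidirectProduct.inr (ι d) * y := by
        group
      have h6 := congrArg SemidirectProduct.left h5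
      rw [SemidirectProduct.mul_left, h3, map_one, mul_one, SemidirectProduct.mul_left] at h6
      simp only [SemidirectProduct.left_inr, SemidirectProduct.right_inr, one_mul] at h6
      exact h6.symm
    · rw [Subgroup.mem_normalizer_iff]
      intro a
      refine ⟨h1 y hy a, fun ha => ?_⟩
      have h2 := h1 y⁻¹ (inv_mem hy) _ ha
      have h3 : (y⁻¹).right * (y.right * a * y.right⁻¹) * (y⁻¹).right⁻¹ = a := by
        rw [SemidirectProduct.inv_right]
        group
      rwa [h3] at h2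
  · rintro ⟨h1, h2⟩
    have key : ∀ y : E ⋊[φ] A, y.left ∈ EC φ ι D → y.right ∈ AN ι D → ∀ x ∈ DH φ ι D,
        y * x * y⁻¹ ∈ DH φ ι D := by
      intro y h1 h2 x hx
      obtain ⟨h3, d, hd, h4⟩ := mem_DH.mp hx
      obtain ⟨d', hd', h5⟩ := AN_conj h2 hd
      rw [mem_DH]
      refine ⟨?_, d', hd', ?_⟩
      · rw [SemidirectProduct.mul_left, SemidirectProduct.mul_left, h3, map_one, mul_one,
          SemidirectProduct.mul_right, SemidirectProduct.inv_left, phi_mul, ← h4, ← h5, map_inv,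
          h1 d' hd', mul_inv_cancel]
      · rw [h5, SemidirectProduct.mul_right, SemidirectProduct.mul_right,
          SemidirectProduct.inv_right, h4]
    rw [Subgroup.mem_normalizer_iff]
    intro x
    refine ⟨key y h1 h2 x, fun hx => ?_⟩
    have h3 := key y⁻¹ (by
      rw [SemidirectProduct.inv_left]
      exact EC_stable (inv_mem h2) (inv_mem h1)) (by
      rw [SemidirectProduct.inv_right]
      exact inv_mem h2) _ hx
    have h4 : y⁻¹ * (y * x * y⁻¹) * y⁻¹⁻¹ = x := by group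
    rwa [h4] at h3

/-- the normalizer of `D` in `E ⋊ A` -/
def nIso (φ : A →* MulAut E) (ι : G →* A) (D : Subgroup G) :
    Subgroup.normalizer (DH φ ι D : Set (E ⋊[φ] A)) ≃* EC φ ι D ⋊[phN φ ι D] AN ι D where
  toFun y := ⟨⟨y.1.left, (mem_norm.mp y.2).1⟩, ⟨y.1.right, (mem_norm.mp y.2).2⟩⟩
  invFun z := ⟨⟨z.left.1, z.right.1⟩, mem_norm.mpr ⟨z.left.2, z.right.2⟩⟩
  left_inv _ := rfl
  right_inv _ := rfl
  map_mul' x y := by
    ext
    · rfl
    · rfl

theorem comap_nIso (D : Subgroup G) :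
    (DH (phN φ ι D) (iN ι D) (D.subgroupOf (GN D))).comap (nIso φ ι D).toMonoidHom =
      (DH φ ι D).subgroupOf (Subgroup.normalizer (DH φ ι D : Set (E ⋊[φ] A))) := by
  ext y
  rw [Subgroup.mem_comap, Subgroup.mem_subgroupOf, mem_DH, mem_DH]
  constructor
  · rintro ⟨h1, d, hd, h2⟩
    exact ⟨congrArg Subtype.val h1, d, Subgroup.mem_subgroupOf.mp hd, congrArg Subtype.val h2⟩
  · rintro ⟨h1, d, hd, h2⟩
    exact ⟨Subtype.ext h1, ⟨d, Subgroup.le_normalizer hd⟩, Subgroup.mem_subgroupOf.mpr hd,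
      Subtype.ext h2⟩

end iso

end Pool.Agent.Hp21.UN
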