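import Pool.Agent.Hp21.UN.Reg

/-!
# Perfect groups `V ⋊ A` and the Alperin–McKay equality
-/

set_option autoImplicit false
set_option linter.unusedSectionVars false
set_option linter.style.haveILetI false

open scoped BigOperators Classical

noncomputable section

namespace Pool.Agent.Hp21.UN

open Pool.Agent.Q90.WR Pool.Agent.H254R3.IN Pool.Agent.Q259.BW Pool.Agent.Q288.MB
open Pool.Agent.N19.RB
open Pool.Agent.Helper884

section perf

variable (M A : Type) [CommGroup M] [Group A] [Finite A]

variable {M A} in
theorem aug_one : ∏ᶠ x, (1 : A → M) x = 1 := by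
  simp

variable {M A} in
theorem aug_mul {f g : A → M} (hf : ∏ᶠ x, f x = 1) (hg : ∏ᶠ x, g x = 1) :
    ∏ᶠ x, (f * g) x = 1 := by
  have := finprod_mul_distrib (Set.toFinite (Function.mulSupport f))
    (Set.toFinite (Function.mulSupport g))
  simp only [Pi.mul_apply]
  rw [this, hf, hg, one_mul]

variable {M A} in
theorem aug_inv {f : A → M} (hf : ∏ᶠ x, f x = 1) : ∏ᶠ x, (f⁻¹) x = 1 := by
  simp only [Pi.inv_apply]
  rw [finprod_inv_distrib, hf, inv_one]

/-- The group of the functions `f : A → M` with `∏ f(x) = 1`. -/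
def aug : Subgroup (A → M) where
  carrier := {f | ∏ᶠ x, f x = 1}
  one_mem' := aug_one
  mul_mem' := aug_mul
  inv_mem' := aug_inv

variable {M A}

theorem mem_aug {f : A → M} : f ∈ aug M A ↔ ∏ᶠ x, f x = 1 := Iff.rfl

theorem rph_aug (a : A) {f : A → M} (hf : f ∈ aug M A) : rph M A a f ∈ aug M A := by
  rw [mem_aug] at hf ⊢
  simp only [rph_apply]
  rw [← hf]
  exact finprod_comp_equiv (Equiv.mulLeft a⁻¹) (f := f)

/-- Left translation by `a` on the functions with product one. -/
def ape (a : A) : aug M A ≃* aug M A where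
  toFun f := ⟨rph M A a f, rph_aug a f.2⟩
  invFun f := ⟨rph M A a⁻¹ f, rph_aug a⁻¹ f.2⟩
  left_inv f := Subtype.ext (phi_inv' a f.1)
  right_inv f := Subtype.ext (phi_inv a f.1)
  map_mul' f g := Subtype.ext (map_mul (rph M A a) f.1 g.1)

theorem ape_one : (ape 1 : aug M A ≃* aug M A) = 1 := by
  ext f : 2
  exact congrArg (fun h : MulAut (A → M) => h f) (map_one (rph M A))

theorem ape_mul (a b : A) : (ape (a * b) : aug M A ≃* aug M A) = ape a * ape b := by
  ext f : 2
  exact congrArg (fun h : MulAut (A → M) => h f) (map_mul (rph M A) a b)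

variable (M A) in
/-- The action of `A` on `aug M A` by left translation. -/
def aph : A →* MulAut (aug M A) where
  toFun := ape
  map_one' := ape_one
  map_mul' := ape_mul

theorem aph_coe (a : A) (f : aug M A) : ((aph M A a f : aug M A) : A → M) = rph M A a f := rfl

variable (M A) in
/-- The group `{f : A → M | ∏ f(x) = 1} ⋊ A`. -/
abbrev AW : Type := aug M A ⋊[aph M A] A

/-- the element with value `m` at `g` and `m⁻¹` at `1` -/
def dif (g : A) (m : M) : aug M A :=
  ⟨Pi.mulSingle g m * (Pi.mulSingle 1 m)⁻¹, by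
    rw [mem_aug]
    have e : ∀ (x : A), ∏ᶠ y, (Pi.mulSingle x m : A → M) y = m := by
      intro x
      rw [finprod_eq_single _ x]
      · simp
      · intro y hy
        rw [Pi.mulSingle_eq_of_ne hy]
    simp only [Pi.mul_apply, Pi.inv_apply]
    rw [finprod_mul_distrib (Set.toFinite _) (Set.toFinite _), finprod_inv_distrib, e, e,
      mul_inv_cancel]⟩

theorem dif_mul (g h : A) (m : M) : dif (g * h) m = aph M A g (dif h m) * dif g m := by
  apply Subtype.ext
  rw [Subgroup.coe_mul, aph_coe]
  funext x
  simp only [dif, Pi.mul_apply, Pi.inv_apply, rph_apply]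
  have e1 : (Pi.mulSingle h m : A → M) (g⁻¹ * x) = (Pi.mulSingle (g * h) m : A → M) x := by
    rw [Pi.mulSingle_apply, Pi.mulSingle_apply]
    congr 1
    rw [eq_iff_iff, inv_mul_eq_iff_eq_mul]
  have e2 : (Pi.mulSingle 1 m : A → M) (g⁻¹ * x) = (Pi.mulSingle g m : A → M) x := by
    rw [Pi.mulSingle_apply, Pi.mulSingle_apply]
    congr 1
    rw [eq_iff_iff, inv_mul_eq_iff_eq_mul, mul_one]
  rw [e1, e2]
  group

theorem aug_closure : (⊤ : Subgroup (aug M A)) =
    Subgroup.closure (Set.range fun x : A × M => dif x.1 x.2) := by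
  have := Fintype.ofFinite A
  symm
  rw [eq_top_iff]
  intro f _
  have h1 : f = ∏ x : A, dif x ((f : A → M) x) := by
    apply Subtype.ext
    funext y
    have h0 : (((∏ x : A, dif x ((f : A → M) x) : aug M A)) : A → M) y =
        ∏ x : A, (Pi.mulSingle x ((f : A → M) x) * (Pi.mulSingle 1 ((f : A → M) x))⁻¹ : A → M) y := by
      rw [← Finset.prod_apply]
      exact congrFun (map_prod (aug M A).subtype (fun x => dif x ((f : A → M) x)) Finset.univ) y
    rw [h0]
    simp only [Pi.mul_apply, Pi.inv_apply]
    rw [Finset.prod_mul_distrib, Finset.prod_inv_distrib]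
    have h2 : ∏ x : A, (Pi.mulSingle x ((f : A → M) x) : A → M) y = (f : A → M) y := by
      rw [Finset.prod_eq_single y]
      · simp
      · intro x _ hx
        rw [Pi.mulSingle_eq_of_ne hx.symm]
      · intro h
        exact absurd (Finset.mem_univ _) h
    have h3 : ∏ x : A, (Pi.mulSingle 1 ((f : A → M) x) : A → M) y = 1 := by
      by_cases hy : y = 1
      · subst hy
        simp only [Pi.mulSingle_eq_same]
        rw [← finprod_eq_prod_of_fintype]
        exact f.2
      · refine Finset.prod_eq_one fun x _ => ?_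
        rw [Pi.mulSingle_eq_of_ne hy]
    rw [h2, h3, inv_one, mul_one]
  rw [h1]
  exact prod_mem fun x _ => Subgroup.subset_closure ⟨(x, (f : A → M) x), rfl⟩

/-- If `A` is perfect, so is `{f : A → M | ∏ f(x) = 1} ⋊ A`. -/
theorem perfect (hA : commutator A = ⊤) : commutator (AW M A) = ⊤ := by
  set N := commutator (AW M A) with hN
  have hr : ∀ a : A, (SemidirectProduct.inr a : AW M A) ∈ N := by
    intro a
    have h1 : a ∈ commutator A := by
      rw [hA]
      trivial
    have h2 : (commutator A).map (SemidirectProduct.inr : A →* AW M A) ≤ N := by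
      rw [hN, commutator_def, commutator_def, Subgroup.map_commutator]
      exact Subgroup.commutator_mono le_top le_top
    exact h2 (Subgroup.mem_map_of_mem _ h1)
  have hact : ∀ (a : A) (f : aug M A), (QuotientGroup.mk (SemidirectProduct.inl (aph M A a f)) :
      AW M A ⧸ N) = QuotientGroup.mk (SemidirectProduct.inl f) := by
    intro a f
    rw [SemidirectProduct.inl_aut]
    rw [QuotientGroup.mk_mul, QuotientGroup.mk_mul]
    have h1 : (QuotientGroup.mk (SemidirectProduct.inr a) : AW M A ⧸ N) = 1 :=
      (QuotientGroup.eq_one_iff _).mpr (hr a)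
    have h2 : (QuotientGroup.mk (SemidirectProduct.inr a⁻¹) : AW M A ⧸ N) = 1 :=
      (QuotientGroup.eq_one_iff _).mpr (hr a⁻¹)
    rw [h1, h2, one_mul, mul_one]
  have hcomm : ∀ x y : AW M A ⧸ N, x * y = y * x := by
    intro x y
    obtain ⟨x, rfl⟩ := QuotientGroup.mk_surjective x
    obtain ⟨y, rfl⟩ := QuotientGroup.mk_surjective y
    rw [← QuotientGroup.mk_mul, ← QuotientGroup.mk_mul, QuotientGroup.eq]
    have : (x * y)⁻¹ * (y * x) = y⁻¹ * x⁻¹ * y⁻¹⁻¹ * x⁻¹⁻¹ := by
      group
    rw [this, hN, commutator_def]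
    exact Subgroup.commutator_mem_commutator (Subgroup.mem_top y⁻¹) (Subgroup.mem_top x⁻¹)
  have hd : ∀ (m : M) (g : A), (SemidirectProduct.inl (dif g m) : AW M A) ∈ N := by
    intro m
    let ψ : A →* AW M A ⧸ N :=
      { toFun := fun g => QuotientGroup.mk (SemidirectProduct.inl (dif g m))
        map_one' := by
          have h := dif_mul (1 : A) 1 m
          have h2 : dif (1 : A) m = 1 := by
            rw [mul_one, map_one, MulAut.one_apply] at h
            exact left_eq_mul.mp h
          rw [h2, map_one]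
          rfl
        map_mul' := fun g h => by
          rw [dif_mul, map_mul, QuotientGroup.mk_mul, hact, hcomm] }
    have h1 : commutator A ≤ ψ.ker := by
      rw [commutator_def, Subgroup.commutator_le]
      intro x _ y _
      rw [MonoidHom.mem_ker, map_commutatorElement, commutatorElement_def]
      rw [hcomm (ψ x) (ψ y)]
      group
    intro g
    have h2 : g ∈ ψ.ker := h1 (by
      rw [hA]
      trivial)
    exact (QuotientGroup.eq_one_iff _).mp h2
  rw [eq_top_iff]
  intro x _
  rw [← SemidirectProduct.inl_left_mul_inr_right x]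
  refine mul_mem ?_ (hr _)
  have h1 : (⊤ : Subgroup (aug M A)) ≤ N.comap (SemidirectProduct.inl : aug M A →* AW M A) := by
    rw [aug_closure, Subgroup.closure_le]
    rintro _ ⟨⟨g, m⟩, rfl⟩
    exact hd m g
  exact h1 (Subgroup.mem_top x.left)

/-- the restriction of `thR` -/
def thA {G : Type} [Group G] [Fintype G] (lam : M →* ℂ) (ι : G →* A) : aug M A →* ℂ :=
  (thR lam ι).comp (aug M A).subtype

theorem thA_St {G : Type} [Group G] [Fintype G] {lam : M →* ℂ} {c : M} (hc : lam c ≠ 1)
    {ι : G →* A} (hι : Function.Injective ι) (h2 : 2 * Nat.card G < Nat.card A) :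
    St (aph M A) ι (thA lam ι) := by
  have := Fintype.ofFinite A
  refine ⟨hι, fun a => ?_⟩
  constructor
  · intro h
    by_contra hne
    push Not at hne
    obtain ⟨x, hx1, hx2⟩ : ∃ x : A, (∀ g, ι g ≠ x) ∧ ∀ g, ι g ≠ a * x := by
      by_contra hcon
      push Not at hcon
      have h3 : (Finset.univ : Finset A) ⊆ Finset.univ.image ι ∪
          Finset.univ.image fun g => a⁻¹ * ι g := by
        intro x _
        rw [Finset.mem_union, Finset.mem_image, Finset.mem_image]
        by_cases h4 : ∃ g, ι g = x
        · obtain ⟨g, hg⟩ := h4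
          exact Or.inl ⟨g, Finset.mem_univ _, hg⟩
        · push Not at h4
          obtain ⟨g, hg⟩ := hcon x h4
          exact Or.inr ⟨g, Finset.mem_univ _, by rw [hg]; group⟩
      have h5 := (Finset.card_le_card h3).trans (Finset.card_union_le _ _)
      have h6 := Finset.card_image_le (s := (Finset.univ : Finset G)) (f := ι)
      have h7 := Finset.card_image_le (s := (Finset.univ : Finset G)) (f := fun g => a⁻¹ * ι g)
      rw [Finset.card_univ] at h5 h6 h7
      rw [Nat.card_eq_fintype_card, Nat.card_eq_fintype_card] at h2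
      omega
    have h3 := h (dif x c)⁻¹
    have h4 : thA lam ι (dif x c)⁻¹ = lam c := by
      change thR lam ι ((dif x c)⁻¹ : aug M A) = lam c
      rw [thR_apply, Finset.prod_eq_single 1]
      · rw [map_one]
        congr 1
        simp only [dif, InvMemClass.coe_inv, Pi.inv_apply, Pi.mul_apply, Pi.mulSingle_eq_same]
        rw [Pi.mulSingle_eq_of_ne]
        · simp
        · intro h'
          exact hx1 1 (by rw [map_one, h'])
      · intro g _ hg
        have e : (((dif x c)⁻¹ : aug M A) : A → M) (ι g) = 1 := by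
          simp only [dif, InvMemClass.coe_inv, Pi.inv_apply, Pi.mul_apply]
          rw [Pi.mulSingle_eq_of_ne (hx1 g), Pi.mulSingle_eq_of_ne]
          · simp
          · intro h'
            exact hg (hι (by rw [h', map_one]))
        rw [e, map_one]
      · intro h'
        exact absurd (Finset.mem_univ _) h'
    have h5 : thA lam ι (aph M A a (dif x c)⁻¹) = 1 := by
      change thR lam ι (rph M A a ((dif x c)⁻¹ : aug M A)) = 1
      rw [thR_apply]
      refine Finset.prod_eq_one fun g _ => ?_
      have e : (((dif x c)⁻¹ : aug M A) : A → M) (a⁻¹ * ι g) = 1 := by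
        simp only [dif, InvMemClass.coe_inv, Pi.inv_apply, Pi.mul_apply]
        rw [Pi.mulSingle_eq_of_ne, Pi.mulSingle_eq_of_ne]
        · simp
        · intro h'
          exact hne g (inv_mul_eq_one.mp h').symm
        · intro h'
          exact hx2 g (inv_mul_eq_iff_eq_mul.mp h')
      rw [rph_apply, e, map_one]
    rw [h4, h5] at h3
    exact hc h3.symm
  · rintro ⟨k, rfl⟩ f
    exact ((thR_St hc hι).stab _).mpr ⟨k, rfl⟩ f

end perf

end Pool.Agent.Hp21.UN
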