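import Pool.Agent.Hp21.UN.Amc

/-!
# The Alperin–McKay equality for regular wreath products
-/

set_option autoImplicit false
set_option linter.unusedSectionVars false
set_option linter.style.haveILetI false

open scoped BigOperators Classical

noncomputable section

namespace Pool.Agent.Hp21.UN

open Pool.Agent.Q90.WR Pool.Agent.H254R3.IN Pool.Agent.Q259.BW Pool.Agent.Q288.MB
open Pool.Agent.N19.RB
open Pool.Agent.Helper884

section reg

variable (M A : Type) [CommGroup M] [Group A]

variable {M A} in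
/-- left translation of functions -/
def rpe (a : A) : (A → M) ≃* (A → M) where
  toFun f x := f (a⁻¹ * x)
  invFun f x := f (a * x)
  left_inv f := funext fun x => congrArg f (inv_mul_cancel_left a x)
  right_inv f := funext fun x => congrArg f (mul_inv_cancel_left a x)
  map_mul' _ _ := rfl

variable {M A} in
theorem rpe_one : (rpe 1 : (A → M) ≃* (A → M)) = 1 := by
  ext f x
  simp [rpe]

variable {M A} in
theorem rpe_mul (a b : A) : (rpe (a * b) : (A → M) ≃* (A → M)) = rpe a * rpe b := by
  ext f x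
  simp [rpe, mul_assoc]

/-- The action of `A` on the functions `A → M` by left translations. -/
def rph : A →* MulAut (A → M) where
  toFun := rpe
  map_one' := rpe_one
  map_mul' := rpe_mul

theorem rph_apply (a : A) (f : A → M) (x : A) : rph M A a f x = f (a⁻¹ * x) := rfl

/-- the regular wreath product as a semidirect product -/
def rIso : (A → M) ⋊[rph M A] A ≃* M ≀ᵣ A where
  toFun x := ⟨x.left, x.right⟩
  invFun x := ⟨x.left, x.right⟩
  left_inv _ := rfl
  right_inv _ := rfl
  map_mul' _ _ := rfl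

variable {M A}

/-- the product of the values of a character at the elements of a subgroup -/
def thR {G : Type} [Group G] [Fintype G] (lam : M →* ℂ) (ι : G →* A) : (A → M) →* ℂ where
  toFun f := ∏ g : G, lam (f (ι g))
  map_one' := by simp
  map_mul' f f' := by
    simp only [Pi.mul_apply, map_mul, Finset.prod_mul_distrib]

theorem thR_apply {G : Type} [Group G] [Fintype G] (lam : M →* ℂ) (ι : G →* A) (f : A → M) :
    thR lam ι f = ∏ g : G, lam (f (ι g)) := rfl

theorem thR_St {G : Type} [Group G] [Fintype G] {lam : M →* ℂ} {c : M} (hc : lam c ≠ 1)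
    {ι : G →* A} (hι : Function.Injective ι) : St (rph M A) ι (thR lam ι) := by
  refine ⟨hι, fun a => ?_⟩
  constructor
  · intro h
    by_contra hne
    push Not at hne
    have h1 := h (Pi.mulSingle 1 c)
    have h2 : thR lam ι (Pi.mulSingle 1 c) = lam c := by
      rw [thR_apply, Finset.prod_eq_single 1]
      · rw [map_one, Pi.mulSingle_eq_same]
      · intro g _ hg
        rw [Pi.mulSingle_eq_of_ne (fun h' => hg (hι (by rw [h', map_one]))), map_one]
      · intro h'
        exact absurd (Finset.mem_univ _) h'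
    have h3 : thR lam ι (rph M A a (Pi.mulSingle 1 c)) = 1 := by
      rw [thR_apply]
      refine Finset.prod_eq_one fun g _ => ?_
      rw [rph_apply, Pi.mulSingle_eq_of_ne, map_one]
      intro h'
      exact hne g (inv_mul_eq_one.mp h').symm
    rw [h2, h3] at h1
    exact hc h1.symm
  · rintro ⟨k, rfl⟩ f
    rw [thR_apply, thR_apply]
    refine Fintype.prod_equiv (Equiv.mulLeft k⁻¹) _ _ fun g => ?_
    rw [rph_apply, Equiv.coe_mulLeft, map_mul, map_inv]

theorem exists_lam (M : Type) [CommGroup M] [Finite M] [Nontrivial M] :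
    ∃ (lam : M →* ℂ) (c : M), lam c ≠ 1 := by
  have := Fintype.ofFinite M
  obtain ⟨c, hc⟩ := exists_ne (1 : M)
  by_contra hcon
  push Not at hcon
  have h1 : (fun x : M => if x = 1 then (1 : ℂ) else 0) =
      ∑ χ ∈ IC.Irr M, IC.B (fun x : M => if x = 1 then (1 : ℂ) else 0) χ • χ := by
    apply IC.expand
    intro g y
    simp only [mul_inv_cancel_comm]
  have h2 : ∀ χ ∈ IC.Irr M, χ c = χ 1 := by
    intro χ hχ
    obtain ⟨θ, rfl⟩ := abelian_irr (IC.mem_Irr.mp hχ)
    rw [hcon θ c, map_one]
  have h3 := congrFun h1 c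
  have h4 := congrFun h1 1
  rw [Finset.sum_apply] at h3 h4
  have h5 : ∑ χ ∈ IC.Irr M, (IC.B (fun x : M => if x = 1 then (1 : ℂ) else 0) χ • χ) c =
      ∑ χ ∈ IC.Irr M, (IC.B (fun x : M => if x = 1 then (1 : ℂ) else 0) χ • χ) 1 := by
    refine Finset.sum_congr rfl fun χ hχ => ?_
    simp only [Pi.smul_apply, h2 χ hχ]
  rw [← h3, ← h4, if_neg hc, if_pos rfl] at h5
  exact zero_ne_one h5

variable {O : ValuationSubring ℂ} {p : ℕ} [hp : Fact p.Prime] {C : (D : Type) → Group D → Prop}

theorem not_dvd_fun [Finite M] [Finite A] (hM : ¬ p ∣ Nat.card M) : ¬ p ∣ Nat.card (A → M) := by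
  rw [Nat.card_fun]
  intro h
  exact hM (hp.out.dvd_of_dvd_pow h)

theorem reg_of (hpO : (p : ℂ) ∈ O.nonunits) (hC : IsoClosed C) [Finite M] [Nontrivial M]
    (hM : ¬ p ∣ Nat.card M) [Finite A] {G : Type} [Group G] [Finite G] {ι : G →* A}
    (hι : Function.Injective ι) (h : AMC p O C (M ≀ᵣ A)) : AMC p O C G := by
  have := Fintype.ofFinite M
  have := Fintype.ofFinite A
  have := Fintype.ofFinite G
  have := Fintype.ofFinite (M ≀ᵣ A)
  obtain ⟨lam, c, hc⟩ := exists_lam M
  exact AMC_of hpO (not_dvd_fun hM) hC (thR_St hc hι) (AMC_iso hC (rIso M A).symm h)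

theorem reg_iff (hpO : (p : ℂ) ∈ O.nonunits) (hC : IsoClosed C) [Finite M] [Nontrivial M]
    (hM : ¬ p ∣ Nat.card M) [Finite A] :
    AMC p O C (M ≀ᵣ A) ↔ ∀ K : Subgroup A, AMC p O C K := by
  have := Fintype.ofFinite M
  have := Fintype.ofFinite A
  have := Fintype.ofFinite (M ≀ᵣ A)
  constructor
  · intro h K
    exact reg_of hpO hC hM (ι := K.subtype) K.subtype_injective h
  · intro h
    exact AMC_iso hC (rIso M A) (AMC_to hpO (not_dvd_fun hM) hC fun θ => h (stA (rph M A) θ))

theorem exists_emb (G : Type) [Group G] [Finite G] {n : ℕ} (hn : Nat.card G ≤ n) :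
    ∃ ι : G →* Equiv.Perm (Fin n), Function.Injective ι := by
  have := Fintype.ofFinite G
  let j : G ↪ Fin n := (Finite.equivFin G).toEmbedding.trans (Fin.castLEEmb hn)
  exact ⟨(Equiv.Perm.viaEmbeddingHom j).comp (MulAction.toPermHom G G),
    (Equiv.Perm.viaEmbeddingHom_injective j).comp MulAction.toPerm_injective⟩

theorem universal (hpO : (p : ℂ) ∈ O.nonunits) (hC : IsoClosed C) [Finite M] [Nontrivial M]
    (hM : ¬ p ∣ Nat.card M) :
    (∀ (G : Type) [Group G] [Finite G], AMC p O C G) ↔
      ∀ m : ℕ, ∃ n : ℕ, m ≤ n ∧ AMC p O C (M ≀ᵣ Equiv.Perm (Fin n)) := by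
  constructor
  · intro h m
    exact ⟨m, le_rfl, h _⟩
  · intro h G _ _
    obtain ⟨n, hn, h1⟩ := h (Nat.card G)
    obtain ⟨ι, hι⟩ := exists_emb G hn
    exact reg_of hpO hC hM hι h1

end reg

end Pool.Agent.Hp21.UN
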